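import Pool.Agent.helper57.PP.Spec

set_option autoImplicit false

namespace Pool.Agent.helper57.PP

open Finset

/-- three edge-disjoint spanning trees of a triangulation of the projective plane use all its edges -/
theorem main_of (h : FINAL_stmt) (V : Type) [Fintype V] [DecidableEq V] (F : Finset (Finset V))
    (hF : IsSurface F) (hc : (gr (edges F)).Connected)
    (hn : Fintype.card V + F.card = (edges F).card + 1) :
    ∃ e : Fin (3 * (Fintype.card V - 1)) → Sym2 V, Function.Injective e ∧
      (∀ z, (∃ j, e j = z) ↔ z ∈ (gr (edges F)).edgeSet) ∧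
      (∀ T : Fin 3 → SimpleGraph V, (∀ i, (T i).IsTree) →
        (∀ i j, i ≠ j → Disjoint (T i).edgeSet (T j).edgeSet) → (∀ i, T i ≤ gr (edges F)) →
        ∀ z, (∃ j, e j = z) ↔ ∃ i, z ∈ (T i).edgeSet) ∧
      ∀ j, (SimpleGraph.fromEdgeSet {z | ∃ i < Fintype.card V - 1, z = cyc e j i}).IsTree := by
  classical
  obtain ⟨e, he, her, het⟩ := h V F hF hc hn
  refine ⟨e, he, her, ?_, het⟩
  intro T hT hdis hle z
  -- the edges of the trees as finsets
  have hcard : ∀ i, (T i).edgeFinset.card = Fintype.card V - 1 := by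
    intro i
    have := (hT i).card_edgeFinset
    omega
  have hdis' : ∀ i ∈ (univ : Finset (Fin 3)), ∀ j ∈ (univ : Finset (Fin 3)), i ≠ j →
      Disjoint (T i).edgeFinset (T j).edgeFinset := by
    intro i _ j _ hij
    rw [Finset.disjoint_left]
    intro a ha hb
    rw [SimpleGraph.mem_edgeFinset] at ha hb
    exact Set.disjoint_left.1 (hdis i j hij) ha hb
  have hU : (univ.biUnion fun i : Fin 3 => (T i).edgeFinset).card = 3 * (Fintype.card V - 1) := by
    rw [Finset.card_biUnion hdis']
    simp [hcard]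
  have hR : (univ.image e).card = 3 * (Fintype.card V - 1) := by
    rw [Finset.card_image_of_injective _ he]
    simp
  have hsub : (univ.biUnion fun i : Fin 3 => (T i).edgeFinset) ⊆ univ.image e := by
    intro a ha
    rw [mem_biUnion] at ha
    obtain ⟨i, -, hi⟩ := ha
    rw [SimpleGraph.mem_edgeFinset] at hi
    have h3 : a ∈ (gr (edges F)).edgeSet := SimpleGraph.edgeSet_subset_edgeSet.2 (hle i) hi
    obtain ⟨j, hj⟩ := (her a).2 h3
    rw [mem_image]
    exact ⟨j, mem_univ _, hj⟩
  have heq := Finset.eq_of_subset_of_card_le hsub (by rw [hU, hR])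
  constructor
  · rintro ⟨j, rfl⟩
    have : e j ∈ univ.biUnion fun i : Fin 3 => (T i).edgeFinset := by
      rw [heq]
      exact mem_image_of_mem _ (mem_univ _)
    rw [mem_biUnion] at this
    obtain ⟨i, -, hi⟩ := this
    exact ⟨i, by rwa [SimpleGraph.mem_edgeFinset] at hi⟩
  · rintro ⟨i, hi⟩
    exact (her z).2 (SimpleGraph.edgeSet_subset_edgeSet.2 (hle i) hi)

end Pool.Agent.helper57.PP
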