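import Pool.Agent.helper25.PP.Spec

set_option autoImplicit false

namespace PP

open Finset SimpleGraph CT

section

variable {V : Type}

theorem SWR_dist {G : SimpleGraph V} {a b c d : V} (h : Ok G a b c d) :
    a ≠ b ∧ c ≠ d ∧ a ≠ c ∧ b ≠ d ∧ a ≠ d ∧ b ≠ c := by
  obtain ⟨h1, h2, h3, h4, h5, h6⟩ := h
  refine ⟨h1.ne, h2.ne, h3, h4, ?_, ?_⟩
  · rintro rfl
    exact h5 h2.symm
  · rintro rfl
    exact h5 h1

theorem SWR_ok1 {G : SimpleGraph V} {a b c d : V} (h : Ok G a b c d) : Ok G b a d c := by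
  obtain ⟨h1, h2, h3, h4, h5, h6⟩ := h
  exact ⟨h1.symm, h2.symm, h4, h3, h6, h5⟩

theorem SWR_ok2 {G : SimpleGraph V} {a b c d : V} (h : Ok G a b c d) : Ok G c d a b := by
  obtain ⟨h1, h2, h3, h4, h5, h6⟩ := h
  exact ⟨h2, h1, h3.symm, h4.symm, fun h => h5 h.symm, fun h => h6 h.symm⟩

theorem SWR_adj (G : SimpleGraph V) (a b c d x y : V) : (sw G a b c d).Adj x y ↔
    (G.Adj x y ∧ s(x, y) ≠ s(a, b) ∧ s(x, y) ≠ s(c, d)) ∨
    (x ≠ y ∧ (s(x, y) = s(a, c) ∨ s(x, y) = s(b, d))) := Iff.rfl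

theorem SWR_sw1 (G : SimpleGraph V) (a b c d : V) : sw G b a d c = sw G a b c d := by
  ext x y
  rw [SWR_adj, SWR_adj, Sym2.eq_swap (a := b) (b := a), Sym2.eq_swap (a := d) (b := c),
    or_comm (a := s(x, y) = s(b, d))]

theorem SWR_sw2 (G : SimpleGraph V) (a b c d : V) : sw G c d a b = sw G a b c d := by
  ext x y
  rw [SWR_adj, SWR_adj, Sym2.eq_swap (a := c) (b := a), Sym2.eq_swap (a := d) (b := b),
    and_comm (a := s(x, y) ≠ s(c, d))]

theorem SWR_nb [Fintype V] [DecidableEq V] {G : SimpleGraph V} {a b c d : V}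
    (h : Ok G a b c d) : (nb (sw G a b c d) a).card = (nb G a).card := by
  obtain ⟨hab, hcd, hac, hbd, had, hbc⟩ := SWR_dist h
  have h1 : nb (sw G a b c d) a = insert c ((nb G a).erase b) := by
    ext w
    rw [mem_nb, SWR_adj, mem_insert, mem_erase, mem_nb]
    simp only [Sym2.eq_iff, ne_eq, hac, had, hab, false_and, or_false, true_and,
      not_false_eq_true, and_true, false_or]
    constructor
    · rintro (⟨h2, h3⟩ | ⟨_, h2⟩)
      · exact Or.inr ⟨h3, h2⟩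
      · exact Or.inl h2
    · rintro (rfl | ⟨h2, h3⟩)
      · exact Or.inr ⟨hac, rfl⟩
      · exact Or.inl ⟨h3, h2⟩
  have hb : b ∈ nb G a := (mem_nb G a b).2 h.1
  have hc : c ∉ (nb G a).erase b := by
    rw [mem_erase, mem_nb]
    rintro ⟨_, h2⟩
    exact h.2.2.2.2.1 h2
  rw [h1, card_insert_of_notMem hc, card_erase_of_mem hb]
  have := card_pos.2 ⟨b, hb⟩
  omega

theorem SWR_nb' [Fintype V] [DecidableEq V] {G : SimpleGraph V} {a b c d u : V}
    (h1 : u ≠ a) (h2 : u ≠ b) (h3 : u ≠ c) (h4 : u ≠ d) :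
    nb (sw G a b c d) u = nb G u := by
  ext w
  rw [mem_nb, mem_nb, SWR_adj]
  simp only [Sym2.eq_iff, ne_eq, h1, h2, h3, h4, false_and, or_false, not_false_eq_true,
    and_true, and_false]

end

theorem SWR (hNB4 : NB4_stmt) : SWR_stmt := by
  intro V _ _ G a b c d hreg h
  obtain ⟨hab, hcd, hac, hbd, had, hbc⟩ := SWR_dist h
  refine ⟨?_, ?_, ?_⟩
  · rw [(hNB4 V (sw G a b c d)).1]
    have h4 := (hNB4 V G).1.1 hreg
    intro u
    by_cases hua : u = a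
    · subst hua
      rw [SWR_nb h, h4]
    by_cases hub : u = b
    · subst hub
      rw [← SWR_sw1, SWR_nb (SWR_ok1 h), h4]
    by_cases huc : u = c
    · subst huc
      rw [← SWR_sw2, SWR_nb (SWR_ok2 h), h4]
    by_cases hud : u = d
    · subst hud
      rw [← SWR_sw2, ← SWR_sw1, SWR_nb (SWR_ok1 (SWR_ok2 h)), h4]
    rw [SWR_nb' hua hub huc hud, h4]
  · refine ⟨?_, ?_, hab, hcd, ?_, ?_⟩
    · exact Or.inr ⟨hac, Or.inl rfl⟩
    · exact Or.inr ⟨hbd, Or.inr rfl⟩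
    · rw [SWR_adj]
      rintro (⟨_, h2, _⟩ | ⟨_, h2 | h2⟩)
      · exact h2 rfl
      · rw [Sym2.eq_iff] at h2
        rcases h2 with ⟨_, h2⟩ | ⟨h2, _⟩
        · exact hbc h2
        · exact hac h2
      · rw [Sym2.eq_iff] at h2
        rcases h2 with ⟨h2, _⟩ | ⟨h2, _⟩
        · exact hab h2
        · exact had h2
    · rw [SWR_adj]
      rintro (⟨_, _, h2⟩ | ⟨_, h2 | h2⟩)
      · exact h2 rfl
      · rw [Sym2.eq_iff] at h2
        rcases h2 with ⟨h2, _⟩ | ⟨_, h2⟩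
        · exact hac h2.symm
        · exact had h2.symm
      · rw [Sym2.eq_iff] at h2
        rcases h2 with ⟨h2, _⟩ | ⟨h2, _⟩
        · exact hbc h2.symm
        · exact hcd h2
  · ext x y
    rw [SWR_adj, SWR_adj]
    constructor
    · rintro (⟨h1 | ⟨_, h1 | h1⟩, h2, h3⟩ | ⟨_, h1 | h1⟩)
      · exact h1.1
      · exact absurd h1 h2
      · exact absurd h1 h3
      · rw [Sym2.eq_iff] at h1
        rcases h1 with ⟨rfl, rfl⟩ | ⟨rfl, rfl⟩
        · exact h.1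
        · exact h.1.symm
      · rw [Sym2.eq_iff] at h1
        rcases h1 with ⟨rfl, rfl⟩ | ⟨rfl, rfl⟩
        · exact h.2.1
        · exact h.2.1.symm
    · intro h1
      by_cases h2 : s(x, y) = s(a, b)
      · exact Or.inr ⟨h1.ne, Or.inl h2⟩
      by_cases h3 : s(x, y) = s(c, d)
      · exact Or.inr ⟨h1.ne, Or.inr h3⟩
      refine Or.inl ⟨Or.inl ⟨h1, h2, h3⟩, ?_, ?_⟩
      · intro h4
        rw [Sym2.eq_iff] at h4
        rcases h4 with ⟨rfl, rfl⟩ | ⟨rfl, rfl⟩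
        · exact h.2.2.2.2.1 h1
        · exact h.2.2.2.2.1 h1.symm
      · intro h4
        rw [Sym2.eq_iff] at h4
        rcases h4 with ⟨rfl, rfl⟩ | ⟨rfl, rfl⟩
        · exact h.2.2.2.2.2 h1
        · exact h.2.2.2.2.2 h1.symm

end PP
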