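import Pool.Agent.helper57.PP.Spec

set_option autoImplicit false

namespace Pool.Agent.helper57.PP

open Finset

theorem ALN (h1 : SC_stmt) : ALN_stmt := by
  intro W _ G B x hG hB hx hbd
  obtain ⟨t, ht, hxt⟩ := mem_vs.1 hx
  apply h1 W G hG x
  · exact cof_mono hB _
  · exact ⟨t, mem_cof.2 ⟨ht, by rwa [singleton_subset_iff]⟩⟩
  · intro e he hxe
    rw [cof_cof _ hxe]
    have hn : e ∉ bd B := fun h => hbd e h hxe
    rw [mem_bd] at hn
    have heven : ¬ Odd (cof B e).card := fun h => hn ⟨he, h⟩
    rw [Nat.not_odd_iff_even] at heven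
    rcases (cof B e).eq_empty_or_nonempty with h | h
    · exact Or.inl h
    · right
      have hE : e ∈ edges G := edges_mono hB ((edges_iff_cof_nonempty he).2 h)
      have h2 := hG.two e hE
      apply Finset.eq_of_subset_of_card_le (cof_mono hB e)
      rw [h2]
      have := h.card_pos
      obtain ⟨k, hk⟩ := heven
      omega

end Pool.Agent.helper57.PP
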