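import Pool.Agent.helper57.PP.Spec

set_option autoImplicit false

namespace Pool.Agent.helper57.PP

open Finset

theorem FINAL (h1 : DB_stmt) (h2 : CFR_stmt) (h3 : SWP_stmt) (h4 : PROJ_stmt) (h5 : TQD_stmt)
    (h6 : TQE_stmt) (h7 : TQR_stmt) (h8 : ORD_stmt) (h9 : CNT_stmt) : FINAL_stmt := by
  intro V _ _ F hF hc hn
  classical
  rcases F.eq_empty_or_nonempty with rfl | hne
  · -- a single vertex
    have hE : edges (∅ : Finset (Finset V)) = ∅ := rfl
    rw [hE] at hn
    simp only [card_empty, add_zero, zero_add] at hn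
    refine ⟨fun j => ?_, ?_, ?_, ?_⟩
    · exact absurd j.2 (by omega)
    · intro j; exact absurd j.2 (by omega)
    · intro z
      constructor
      · rintro ⟨j, -⟩
        exact absurd j.2 (by omega)
      · intro hz
        exfalso
        rw [hE] at hz
        induction z using Sym2.ind with
        | _ a b =>
          rw [SimpleGraph.mem_edgeSet] at hz
          have : ({a, b} : Finset V) ∈ (∅ : Finset (Finset V)) := hz.2
          simp at this
    · intro j
      exact absurd j.2 (by omega)
  · obtain ⟨w, hw, hD⟩ := h1 V F hF hc hne hn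
    obtain ⟨m, p, A, hG, hH, hcf⟩ := h2 _ _ _ hD
    obtain ⟨L, R, U, ρ, tm, c1, c0, hS⟩ := h3 _ _ _ m p A hD hG hH hcf
    obtain ⟨Z, ix, tp, bt, hP⟩ := h4 V F w m p A hD hG hH
    have hTQ := h5 V F w m p A L R U ρ tm c1 c0 Z ix tp bt hD hG hH hS hP
    obtain ⟨he1, he2⟩ := h6 V F w m p A L R U ρ tm c1 c0 Z ix tp bt hF hw hD hG hH hS hP
    have hr := h7 V _ Z _ _ _ _ _ _ _ hTQ
    set T : Fin 3 → V → V := ![T1 R tp, T2 Z L U bt, T3 Z L U tp] with hT
    set s : V := (p 0).1 with hs
    set φ : V → ℚ := phi m Z ix tp tm c1 c0 with hφ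
    have hsym : ∀ a b c d : V, s(a, b) = s(c, d) → ({a, b} : Finset V) = {c, d} := by
      intro a b c d h
      rw [Sym2.eq_iff] at h
      rcases h with ⟨rfl, rfl⟩ | ⟨rfl, rfl⟩
      · rfl
      · exact Finset.pair_comm _ _
    have hsym' : ∀ a b c d : V, ({a, b} : Finset V) = {c, d} → s(a, b) = s(c, d) := by
      intro a b c d h
      rw [Sym2.eq_iff]
      have ha : a ∈ ({c, d} : Finset V) := by rw [← h]; simp
      have hb : b ∈ ({c, d} : Finset V) := by rw [← h]; simp
      have hc' : c ∈ ({a, b} : Finset V) := by rw [h]; simp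
      have hd : d ∈ ({a, b} : Finset V) := by rw [h]; simp
      simp only [mem_insert, mem_singleton] at ha hb hc' hd
      rcases ha with rfl | rfl
      · rcases hb with rfl | rfl
        · rcases hd with rfl | rfl <;> simp
        · simp
      · rcases hb with rfl | rfl
        · simp
        · rcases hc' with rfl | rfl <;> simp
    have hinj : ∀ (k k' : Fin 3) (v v' : V), v ≠ s → v' ≠ s → s(v, T k v) = s(v', T k' v') →
        k = k' ∧ v = v' := fun k k' v v' hv hv' h => he2 k k' v v' hv hv' (hsym _ _ _ _ h)
    obtain ⟨e, hei, her, het⟩ := h8 V s T φ hTQ.inj hinj hr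
    refine ⟨e, hei, ?_, het⟩
    intro z
    rw [her z]
    constructor
    · rintro ⟨k, v, hv, rfl⟩
      rw [SimpleGraph.mem_edgeSet]
      exact ⟨edges_ne (he1 k v hv), he1 k v hv⟩
    · -- counting
      intro hz
      have hcard := h9 V F hF hn
      set X : Finset (Fin 3 × V) := univ ×ˢ (univ.erase s) with hX
      have hXc : X.card = 3 * (Fintype.card V - 1) := by
        rw [hX, Finset.card_product, Finset.card_erase_of_mem (mem_univ _)]
        simp
      have himg : X.image (fun q => ({q.2, T q.1 q.2} : Finset V)) = edges F := by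
        apply Finset.eq_of_subset_of_card_le
        · intro f hf
          rw [mem_image] at hf
          obtain ⟨q, hq, rfl⟩ := hf
          rw [hX, mem_product, mem_erase] at hq
          exact he1 q.1 q.2 hq.2.1
        · rw [Finset.card_image_of_injOn, hXc, hcard]
          intro q hq q' hq' h
          rw [hX, mem_coe, mem_product, mem_erase] at hq hq'
          have := he2 q.1 q'.1 q.2 q'.2 hq.2.1 hq'.2.1 h
          exact Prod.ext this.1 this.2
      induction z using Sym2.ind with
      | _ a b =>
        rw [SimpleGraph.mem_edgeSet] at hz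
        have h2 : ({a, b} : Finset V) ∈ edges F := hz.2
        rw [← himg, mem_image] at h2
        obtain ⟨q, hq, hq'⟩ := h2
        rw [hX, mem_product, mem_erase] at hq
        exact ⟨q.1, q.2, hq.2.1, (hsym' _ _ _ _ hq').symm⟩

end Pool.Agent.helper57.PP
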