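import Pool.Agent.helper57.PP.Spec

set_option autoImplicit false

namespace Pool.Agent.helper57.PP

open Finset

theorem LJ (h1 : DT_stmt) (h2 : TR1_stmt) : LJ_stmt := by
  intro W _ _ G hG hc hne hn S hS hev
  obtain ⟨Y, hY, hYc, hconn, hB, -⟩ := h1 W G hG hc hne
  obtain ⟨B, hBG, hdis⟩ := hB S
  have hsub : symmDiff S (bd B) ⊆ edges G \ Y := by
    intro e he
    rw [mem_sdiff]
    refine ⟨?_, fun h => (Finset.disjoint_left.1 hdis) he h⟩
    rw [mem_symmDiff] at he
    rcases he with he | he
    · exact hS he.1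
    · exact edges_mono hBG (bd_subset_edges B he.1)
  have heven : EvenSet (symmDiff S (bd B)) :=
    evenSet_symmDiff hev (evenSet_bd fun t ht => hG.card3 t (hBG ht))
  have hcard : (edges G \ Y).card + 1 = Fintype.card W := by
    rw [card_sdiff_of_subset hY]
    have := card_le_card hY
    omega
  have := h2 W (edges G \ Y) (fun e he => (mem_edges.1 (mem_sdiff.1 he).1).1) hconn hcard _ hsub heven
  refine ⟨B, hBG, ?_⟩
  ext e
  have h3 : e ∉ symmDiff S (bd B) := by rw [this]; simp
  rw [mem_symmDiff] at h3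
  tauto

end Pool.Agent.helper57.PP
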