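import Pool.Agent.helper57.PP.Spec

set_option autoImplicit false

namespace Pool.Agent.helper57.PP

open Finset

section
variable {W : Type} [DecidableEq W]

omit [DecidableEq W] in
theorem REM_prop (q1 q2 q3 q4 : Prop) (m1 : q2 → ¬ q3) (m2 : q2 → ¬ q4) (m3 : q4 → ¬ q3) :
    ((q1 ∧ ¬ (q3 ∨ q2) ∨ (q3 ∨ q2) ∧ ¬ q1) ∧ ¬ (q2 ∨ q4) ∨
      (q2 ∨ q4) ∧ ¬ (q1 ∧ ¬ (q3 ∨ q2) ∨ (q3 ∨ q2) ∧ ¬ q1)) ↔
      (q1 ∧ ¬ (q3 ∨ q4) ∨ (q3 ∨ q4) ∧ ¬ q1) := by
  by_cases h1 : q1 <;> by_cases h2 : q2 <;> by_cases h3 : q3 <;> by_cases h4 : q4 <;>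
    simp only [h1, h2, h3, h4, true_or, or_true, or_false, false_or, not_true_eq_false,
      not_false_eq_true, and_true, and_false, true_and, false_and, or_self, and_self, true_implies,
      false_implies, imp_false] at m1 m2 m3 ⊢

theorem REM_mid {y0 yr : W} {mid : List W} {e : Finset W} (h : e ∈ pe (y0 :: (mid ++ [yr]))) :
    (∃ y ∈ mid, y ∈ e) ∨ (mid = [] ∧ e = {y0, yr}) := by
  cases mid with
  | nil => right; simpa using h
  | cons c mid =>
    left
    simp only [List.cons_append, pe_cons_cons, mem_insert] at h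
    rcases h with rfl | h
    · exact ⟨c, by simp, by simp⟩
    · obtain ⟨A, a, b, B, h1, rfl⟩ := mem_pe.1 h
      refine ⟨a, ?_, by simp⟩
      have h2 := congrArg List.dropLast h1
      have h3 : (c :: (mid ++ [yr])).dropLast = c :: mid := by
        rw [← List.cons_append, List.dropLast_concat]
      rw [h3, List.dropLast_append_of_ne_nil (by simp), List.dropLast_cons_of_ne_nil (by simp)] at h2
      rw [h2]
      simp

theorem REM_peC (A1 : List W) (y0 x yr : W) (B : List W) (e : Finset W) :
    e ∈ pe (A1 ++ y0 :: x :: yr :: B) ↔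
      (e ∈ pe (A1 ++ [y0]) ∨ e ∈ pe (yr :: B)) ∨ (e = {x, y0} ∨ e = {x, yr}) := by
  rw [pe_append]
  simp only [pe_cons_cons, mem_union, mem_insert]
  rw [Finset.pair_comm y0 x]
  tauto

theorem REM_peC' (A1 : List W) (y0 yr : W) (mid B : List W) (e : Finset W) :
    e ∈ pe (A1 ++ y0 :: (mid ++ yr :: B)) ↔
      (e ∈ pe (A1 ++ [y0]) ∨ e ∈ pe (yr :: B)) ∨ e ∈ pe (y0 :: (mid ++ [yr])) := by
  rw [pe_append, mem_union]
  have : y0 :: (mid ++ yr :: B) = (y0 :: mid) ++ yr :: B := by simp
  rw [this, pe_append (y0 :: mid) yr B, mem_union]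
  simp only [List.cons_append]
  tauto

omit [DecidableEq W] in
theorem REM_ends {a z : W} {cs A1 : List W} {y0 x yr : W} {B : List W}
    (h : A1 ++ y0 :: x :: yr :: B = pth a cs z) (mid : List W) :
    ∃ cs', A1 ++ y0 :: (mid ++ yr :: B) = pth a cs' z := by
  unfold pth at h ⊢
  obtain ⟨F1, hF⟩ : ∃ F1, A1 ++ [y0] = a :: F1 := by
    cases A1 with
    | nil =>
      simp only [List.nil_append, List.cons.injEq] at h
      exact ⟨[], by simp [h.1]⟩
    | cons b A1 =>
      simp only [List.cons_append, List.cons.injEq] at h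
      exact ⟨A1 ++ [y0], by simp [h.1]⟩
  obtain ⟨E1, hE⟩ : ∃ E1, yr :: B = E1 ++ [z] := by
    rcases List.eq_nil_or_concat B with rfl | ⟨B', b, rfl⟩
    · have h1 : (A1 ++ [y0, x]) ++ [yr] = (a :: cs) ++ [z] := by simpa using h
      have h2 := List.append_inj' h1 (by simp)
      exact ⟨[], by simpa using h2.2⟩
    · have h1 : (A1 ++ y0 :: x :: yr :: B') ++ [b] = (a :: cs) ++ [z] := by simpa using h
      have h2 := List.append_inj' h1 (by simp)
      exact ⟨yr :: B', by simpa using h2.2⟩
  refine ⟨F1 ++ mid ++ E1, ?_⟩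
  have h3 : A1 ++ y0 :: (mid ++ yr :: B) = (A1 ++ [y0]) ++ mid ++ (yr :: B) := by simp
  rw [h3, hF, hE]
  simp

end

theorem REM (h1 : INR_stmt) (h2 : FANB_stmt) : REM_stmt := by
  intro W _ T R a z bs ts A1 y0 x yr B mid hD hS hxP hnd hfan hmid
  have hC := hS.nd
  have hx : x ∉ A1 ∧ x ≠ y0 ∧ x ≠ yr ∧ x ∉ B := by
    simp only [List.nodup_append, List.nodup_cons, List.mem_cons] at hC
    grind
  have hxm : x ∉ mid := fun h => hmid x h (by simp)
  have hyy : y0 ≠ yr ∧ yr ∉ A1 ∧ y0 ∉ B := by
    simp only [List.nodup_append, List.nodup_cons, List.mem_cons] at hC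
    grind
  have hsubR : cof R {x} ⊆ R := cof_subset _ _
  obtain ⟨hb, hdis⟩ := h2 W x y0 mid yr hnd (by simp [hx, hxm])
  have hEF : ∀ e ∈ pe (y0 :: (mid ++ [yr])), insert x e ∈ R := by
    intro e he
    apply hsubR
    rw [hfan]
    exact mem_image_of_mem _ he
  have n1 : ∀ e, (e = {x, y0} ∨ e = {x, yr}) → ¬ (e ∈ pe (A1 ++ [y0]) ∨ e ∈ pe (yr :: B)) := by
    rintro e he h
    have hxe : x ∈ e := by rcases he with rfl | rfl <;> simp
    rcases h with h | h
    · have := mem_of_mem_pe h hxe
      simp only [List.mem_append, List.mem_singleton] at this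
      tauto
    · have := mem_of_mem_pe h hxe
      simp only [List.mem_cons] at this
      tauto
  have n2 : ∀ e, (e = {x, y0} ∨ e = {x, yr}) → e ∉ pe (y0 :: (mid ++ [yr])) := by
    rintro e he h
    rw [Finset.disjoint_left] at hdis
    exact hdis (by simpa using he) h
  have n3 : ∀ e ∈ pe (y0 :: (mid ++ [yr])), ¬ (e ∈ pe (A1 ++ [y0]) ∨ e ∈ pe (yr :: B)) := by
    rintro e he h
    rcases REM_mid he with ⟨y, hy, hye⟩ | ⟨-, rfl⟩
    · have hyC := hmid y hy
      rcases h with h | h
      · have := mem_of_mem_pe h hye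
        simp only [List.mem_append, List.mem_singleton] at this
        simp only [List.mem_append, List.mem_cons] at hyC
        tauto
      · have := mem_of_mem_pe h hye
        simp only [List.mem_cons] at this
        simp only [List.mem_append, List.mem_cons] at hyC
        tauto
    · rcases h with h | h
      · have := mem_of_mem_pe h (show yr ∈ ({y0, yr} : Finset W) by simp)
        simp only [List.mem_append, List.mem_singleton] at this
        rcases this with h | h
        · exact hyy.2.1 h
        · exact hyy.1 h.symm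
      · have := mem_of_mem_pe h (show y0 ∈ ({y0, yr} : Finset W) by simp)
        simp only [List.mem_cons] at this
        rcases this with h | h
        · exact hyy.1 h
        · exact hyy.2.2 h
  have hvsR : ∀ u ∈ mid, u ∈ vs R := by
    intro u hu
    obtain ⟨e, he, hue⟩ := exists_pe_of_mem (a := y0) (cs := mid) (z := yr) (v := u)
      (by simp [pth, hu])
    exact mem_vs.2 ⟨insert x e, hEF e he, mem_insert_of_mem hue⟩
  constructor
  · exact (sdiff_subset).trans hS.sub
  · -- nodup
    simp only [List.nodup_append, List.nodup_cons, List.mem_cons, List.mem_append] at hC hnd hmid ⊢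
    grind
  · obtain ⟨cs, hcs⟩ := hS.ends
    exact REM_ends hcs mid
  · -- pe_sub
    intro e he
    rw [REM_peC'] at he
    rcases he with he | he
    · exact hS.pe_sub ((REM_peC _ _ _ _ _ _).2 (Or.inl he))
    · exact mem_edges.2 ⟨card_of_mem_pe hnd he, _, hS.sub (hEF e he), subset_insert _ _⟩
  · -- bdR
    rw [bd_sdiff hsubR, hS.bdR, hfan, hb]
    ext e
    simp only [mem_symmDiff, mem_union, REM_peC, REM_peC', mem_insert, mem_singleton]
    have m1 := n1 e
    have m2 := n2 e
    have m3 := n3 e
    exact REM_prop _ _ _ _ m1 m2 m3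
  · -- up
    intro u hu v hv huv
    have hux : u ≠ x := by
      rintro rfl
      simp only [List.mem_append, List.mem_cons] at hu
      tauto
    have hvx : v ≠ x := by
      rintro rfl
      simp only [List.mem_append, List.mem_cons] at hv
      tauto
    have key : ({u, v} ∈ pe (A1 ++ y0 :: x :: yr :: B)) ∨ ∃ t ∈ R, {u, v} ⊆ t := by
      by_cases huC : u ∈ A1 ++ y0 :: x :: yr :: B
      · by_cases hvC : v ∈ A1 ++ y0 :: x :: yr :: B
        · rcases hS.up u huC v hvC huv with h | h
          · right
            exact (mem_edges.1 h).2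
          · exact Or.inl h
        · right
          have hvm : v ∈ mid := by
            simp only [List.mem_append, List.mem_cons] at hv hvC
            tauto
          have := (h1 W T R a z bs ts _ hD hS v hvC (Or.inl (hvsR v hvm))).1
          obtain ⟨t, ht, hsub⟩ := (mem_edges.1 huv).2
          exact ⟨t, this (mem_cof.2 ⟨ht, by
            rw [singleton_subset_iff]; exact hsub (by simp)⟩), hsub⟩
      · right
        have hum : u ∈ mid := by
          simp only [List.mem_append, List.mem_cons] at hu huC
          tauto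
        have := (h1 W T R a z bs ts _ hD hS u huC (Or.inl (hvsR u hum))).1
        obtain ⟨t, ht, hsub⟩ := (mem_edges.1 huv).2
        exact ⟨t, this (mem_cof.2 ⟨ht, by
          rw [singleton_subset_iff]; exact hsub (by simp)⟩), hsub⟩
    rcases key with h | ⟨t, ht, hsub⟩
    · right
      rw [REM_peC] at h
      rw [REM_peC']
      rcases h with h | h
      · exact Or.inl h
      · exfalso
        have hxe : x ∈ ({u, v} : Finset W) := by rcases h with h | h <;> rw [h] <;> simp
        simp only [mem_insert, mem_singleton] at hxe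
        rcases hxe with h | h
        · exact hux h.symm
        · exact hvx h.symm
    · have hc2 := (mem_edges.1 huv).1
      by_cases hxt : x ∈ t
      · right
        have : t ∈ cof R {x} := mem_cof.2 ⟨ht, by rwa [singleton_subset_iff]⟩
        rw [hfan, fan, mem_image] at this
        obtain ⟨e, he, rfl⟩ := this
        rw [REM_peC']
        right
        have hsub' : ({u, v} : Finset W) ⊆ e := by
          intro y hy
          have hyx : y ≠ x := by
            simp only [mem_insert, mem_singleton] at hy
            rcases hy with rfl | rfl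
            · exact hux
            · exact hvx
          have := hsub hy
          rw [mem_insert] at this
          tauto
        have := Finset.eq_of_subset_of_card_le hsub' (by rw [card_of_mem_pe hnd he, hc2])
        rwa [this]
      · left
        refine mem_edges.2 ⟨hc2, t, ?_, hsub⟩
        rw [mem_sdiff]
        refine ⟨ht, fun h => hxt ?_⟩
        have := (mem_cof.1 h).2
        rwa [singleton_subset_iff] at this

end Pool.Agent.helper57.PP
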