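import Pool.Agent.helper57.PP.Spec

set_option autoImplicit false

namespace Pool.Agent.helper57.PP

open Finset

section
variable {W : Type}

theorem SWF_uniq {σ : List (Step W)} (hnd : (σ.map Step.x).Nodup) {a c b d : List (Step W)}
    {s t : Step W} (h1 : σ = a ++ s :: b) (h2 : σ = c ++ t :: d) (hx : s.x = t.x) :
    a = c ∧ s = t ∧ b = d := by
  induction a generalizing σ c with
  | nil =>
    cases c with
    | nil =>
      rw [h1] at h2
      simp only [List.nil_append, List.cons.injEq] at h2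
      exact ⟨rfl, h2.1, h2.2⟩
    | cons u c =>
      exfalso
      subst h1
      simp only [List.nil_append, List.cons_append, List.cons.injEq] at h2
      rw [h2.2] at hnd
      simp [hx] at hnd
  | cons u a ih =>
    cases c with
    | nil =>
      exfalso
      subst h2
      simp only [List.nil_append, List.cons_append, List.cons.injEq] at h1
      rw [h1.2] at hnd
      simp [hx] at hnd
    | cons v c =>
      subst h1
      simp only [List.cons_append, List.cons.injEq] at h2
      have hnd' : ((a ++ s :: b).map Step.x).Nodup := by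
        rw [List.cons_append, List.map_cons, List.nodup_cons] at hnd
        exact hnd.2
      obtain ⟨h3, h4, h5⟩ := ih hnd' rfl h2.2
      exact ⟨by rw [h3, h2.1], h4, h5⟩

theorem SWF_split {α : Type} {A B C D : List α} {s : α} (h : A ++ B = C ++ s :: D) :
    (D.length < B.length → s ∈ B) ∧ (B.length ≤ D.length → s ∈ A) := by
  rw [List.append_eq_append_iff] at h
  rcases h with ⟨E, h1, h2⟩ | ⟨E, h1, h2⟩
  · refine ⟨fun _ => ?_, fun hl => ?_⟩
    · rw [h2]; simp
    · exfalso
      rw [h2] at hl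
      simp only [List.length_append, List.length_cons] at hl
      omega
  · cases E with
    | nil =>
      simp only [List.nil_append] at h2
      refine ⟨fun _ => by rw [← h2]; simp, fun hl => ?_⟩
      exfalso
      rw [← h2] at hl
      simp only [List.length_cons] at hl
      omega
    | cons u E =>
      simp only [List.cons_append, List.cons.injEq] at h2
      refine ⟨fun hl => ?_, fun _ => by rw [h1, h2.1]; simp⟩
      exfalso
      rw [h2.2] at hl
      simp only [List.length_append] at hl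
      omega

end

theorem SWF (h1 : SWEEP_stmt) (h2 : CX_stmt) (h3 : CM_stmt) (h4 : CO_stmt) (h5 : CE_stmt)
    (h6 : CR_stmt) : SWF_stmt := by
  intro W _ T a z b1 bs' ts' t1 hD hP hQ hX hH2 hH3
  obtain ⟨σ0, σ1, σ2, hS, a0, a1, a2, a3, a4, a5⟩ := h1 W T a z b1 bs' ts' t1 hD hP hQ hX hH2 hH3
  obtain ⟨σ, hσ⟩ : ∃ σ, σ = σ0 ++ σ1 ++ σ2 := ⟨_, rfl⟩
  rw [← hσ] at hS a4
  set P : List W := pth a (b1 :: bs') z with hPdef
  set Q : List W := pth a (ts' ++ [t1]) z with hQdef
  obtain ⟨x1, x2, -, x4⟩ := h2 W T T ∅ a z (b1 :: bs') Q P σ hS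
  obtain ⟨m1, m2⟩ := h3 W T T a z (b1 :: bs') Q σ hS
  have hCE := h5 W T T ∅ a z (b1 :: bs') Q P σ hS
  have hCO : ∀ (σ' σ'' : List (Step W)) (s : Step W), σ = σ' ++ s :: σ'' →
      ∀ y ∈ s.y0 :: (s.mid ++ [s.yr]), y ∈ P ∨ y ∈ σ''.map Step.x := by
    intro σ' σ'' s h
    rw [h] at hS
    exact h4 W T T a z (b1 :: bs') Q σ' σ'' s hS
  have hQnd : Q.Nodup := by
    have := hD.nd
    rw [hQdef, pth]
    simp only [List.nodup_cons, List.nodup_append, List.mem_cons, List.mem_append] at this ⊢
    grind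
  obtain ⟨ρ, -, r2, r3⟩ := h6 W T T ∅ a z (b1 :: bs') Q P σ hS (fun v => (Q.idxOf v : ℚ)) (by
    rw [List.pairwise_iff_getElem]
    intro i j hi hj hij
    rw [List.Nodup.idxOf_getElem hQnd, List.Nodup.idxOf_getElem hQnd]
    exact_mod_cast hij)
  -- the decompositions
  have hdec : ∀ x : W, ∃ q : List (Step W) × Step W × List (Step W),
      x ∈ σ.map Step.x → σ = q.1 ++ q.2.1 :: q.2.2 ∧ q.2.1.x = x := by
    intro x
    by_cases hx : x ∈ σ.map Step.x
    · rw [List.mem_map] at hx
      obtain ⟨s, hs, hsx⟩ := hx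
      obtain ⟨α, β, hab⟩ := List.append_of_mem hs
      exact ⟨(α, s, β), fun _ => ⟨hab, hsx⟩⟩
    · exact ⟨([], ⟨x, x, [], x⟩, []), fun h => absurd h hx⟩
  choose q hq using hdec
  have hU : ∀ y : W, ∃ s : Step W, y ∈ σ.flatMap Step.mid → s ∈ σ ∧ y ∈ s.mid := by
    intro y
    by_cases hy : y ∈ σ.flatMap Step.mid
    · rw [List.mem_flatMap] at hy
      obtain ⟨s, hs, hsy⟩ := hy
      exact ⟨s, fun _ => ⟨hs, hsy⟩⟩
    · exact ⟨⟨y, y, [], y⟩, fun h => absurd h hy⟩
  choose u hu using hU
  have hmem : ∀ {s : Step W}, s ∈ σ → s.x ∈ σ.map Step.x := fun hs => List.mem_map_of_mem hs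
  have key : ∀ (σ' σ'' : List (Step W)) (s : Step W), σ = σ' ++ s :: σ'' →
      (q s.x).2.1 = s ∧ (q s.x).2.2 = σ'' := by
    intro σ' σ'' s h
    have hs : s ∈ σ := by rw [h]; simp
    obtain ⟨h7, h8⟩ := hq s.x (hmem hs)
    obtain ⟨-, h9, h10⟩ := SWF_uniq x1 h7 h h8
    exact ⟨h9, h10⟩
  have later : ∀ (σ' σ'' : List (Step W)) (s : Step W), σ = σ' ++ s :: σ'' →
      ∀ y ∈ σ''.map Step.x, (q y).2.2.length < σ''.length := by
    intro σ' σ'' s h y hy
    rw [List.mem_map] at hy
    obtain ⟨s', hs', rfl⟩ := hy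
    obtain ⟨α, β, hab⟩ := List.append_of_mem hs'
    have h7 : σ = (σ' ++ s :: α) ++ s' :: β := by rw [h, hab]; simp
    rw [(key _ _ _ h7).2, hab]
    simp only [List.length_append, List.length_cons]
    omega
  have hvx : ∀ x ∈ vs T, x ∉ P → x ∈ σ.map Step.x := by
    intro x hx hxP
    rw [x2 x]
    refine ⟨Or.inr hx, ?_⟩
    rintro (h | h)
    · exact hxP h
    · simp [vs] at h
  have hσmem : ∀ {x : W} , x ∈ σ.map Step.x → (q x).2.1 ∈ σ := by
    intro x hx
    have := (hq x hx).1
    rw [this]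
    simp
  have htx : ∀ x ∈ ts' ++ [t1], x ∈ σ.map Step.x := by
    intro x hx
    rw [x2 x]
    refine ⟨Or.inl ?_, ?_⟩
    · rw [hQdef, pth]
      simp only [List.mem_cons, List.mem_append] at hx ⊢
      tauto
    · rintro (h | h)
      · have := hD.nd
        rw [hPdef, pth] at h
        simp only [List.nodup_cons, List.nodup_append, List.mem_cons, List.mem_append,
          List.not_mem_nil, or_false] at this h hx
        grind
      · simp [vs] at h
  refine ⟨fun x => (q x).2.1.y0, fun x => (q x).2.1.yr, fun y => (u y).x, ρ,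
    fun x => (q x).2.2.length, σ2.length, σ1.length + σ2.length, ?_⟩
  constructor
  · -- l
    intro x hx hxP
    have hxm := hvx x hx hxP
    obtain ⟨e1, e2⟩ := hq x hxm
    have hs := hσmem hxm
    refine ⟨?_, ?_, ?_, ?_⟩
    · have := (hCE _ hs).2 (q x).2.1.y0 (by simp)
      rwa [e2] at this
    · have := (r3 _ hs).1
      rwa [e2] at this
    · exact a4 _ hs
    · rcases hCO _ _ _ e1 (q x).2.1.y0 (by simp) with h | h
      · exact Or.inl h
      · exact Or.inr (later _ _ _ e1 _ h)
  · -- r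
    intro x hx hxP
    have hxm := hvx x hx hxP
    obtain ⟨e1, e2⟩ := hq x hxm
    have hs := hσmem hxm
    refine ⟨?_, ?_, ?_⟩
    · have := (hCE _ hs).2 (q x).2.1.yr (by simp)
      rwa [e2] at this
    · intro h
      have := (hCE _ hs).1
      simp [h] at this
    · rcases hCO _ _ _ e1 (q x).2.1.yr (by simp) with h | h
      · exact Or.inl h
      · exact Or.inr (later _ _ _ e1 _ h)
  · -- rt
    intro x hx
    have hxm := htx x hx
    obtain ⟨e1, e2⟩ := hq x hxm
    have hs := hσmem hxm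
    rw [hσ, List.append_assoc, List.mem_append] at hs
    rcases hs with hs | hs
    · have := a5 _ hs (by rw [e2]; exact hx)
      rwa [e2] at this
    · exact absurd (by rw [e2]; exact hx) (a2 _ hs).1
  · -- u
    intro y hy hyQ
    have hym : y ∈ σ.flatMap Step.mid := (m2 y).2 ⟨hyQ, Or.inr hy⟩
    obtain ⟨hs, hys⟩ := hu y hym
    obtain ⟨α, β, hab⟩ := List.append_of_mem hs
    obtain ⟨k1, k2⟩ := key _ _ _ hab
    have hyl : y ∈ (u y).y0 :: ((u y).mid ++ [(u y).yr]) := by simp [hys]
    obtain ⟨c1, c2⟩ := hCE _ hs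
    refine ⟨c2 y hyl, x4 _ hs, (r3 _ hs).2 y hys, ?_, ?_, ?_⟩
    · rcases hCO _ _ _ hab y hyl with h | h
      · exact Or.inl h
      · right
        show (q y).2.2.length < (q (u y).x).2.2.length
        rw [k2]
        exact later _ _ _ hab _ h
    · show y ≠ (q (u y).x).2.1.y0
      rw [k1]
      rintro h
      rw [List.nodup_cons] at c1
      exact c1.1 (by rw [← h]; simp [hys])
    · show y ≠ (q (u y).x).2.1.yr
      rw [k1]
      rintro h
      rw [List.nodup_cons, List.nodup_append] at c1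
      exact c1.2.2.2 y hys _ (by simp) h
  · -- inj
    intro x hx y hy hxP hyP h
    have e1 := hq x (hvx x hx hxP)
    have e2 := hq y (hvx y hy hyP)
    have h7 : (q x).1 ++ (q x).2.1 :: (q x).2.2 = (q y).1 ++ (q y).2.1 :: (q y).2.2 :=
      e1.1.symm.trans e2.1
    have h8 := List.append_inj' h7 (by simp only [List.length_cons]; omega)
    have h9 := h8.2
    simp only [List.cons.injEq] at h9
    rw [← e1.2, ← e2.2, h9.1]
  · omega
  · -- p2
    intro x hx hxP h
    obtain ⟨e1, e2⟩ := hq x (hvx x hx hxP)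
    rw [hσ] at e1
    have := a3 _ ((SWF_split e1).1 h)
    rwa [e2] at this
  · -- p1
    intro x hx hxP h
    obtain ⟨e1, e2⟩ := hq x (hvx x hx hxP)
    rw [hσ] at e1
    have h7 := (SWF_split e1).2 h
    rw [List.mem_append] at h7
    rcases h7 with h7 | h7
    · have := a0 _ h7 b1 (by simp)
      rwa [e2] at this
    · have := a1 _ h7
      rwa [e2] at this
  · -- p1'
    intro x hx hxP h t ht
    obtain ⟨e1, e2⟩ := hq x (hvx x hx hxP)
    rw [hσ, List.append_assoc] at e1
    have := (a2 _ ((SWF_split e1).1 (by simpa using h))).2 t ht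
    rwa [e2] at this
  · -- p0
    intro x hx hxP h b hb
    obtain ⟨e1, e2⟩ := hq x (hvx x hx hxP)
    rw [hσ, List.append_assoc] at e1
    have := a0 _ ((SWF_split e1).2 (by simpa using h)) b hb
    rwa [e2] at this
  · exact r2

end Pool.Agent.helper57.PP
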