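import Pool.Agent.helper57.PP.SC
import Pool.Agent.helper57.PP.ALN
import Pool.Agent.helper44.PP.ISO
import Pool.Agent.helper37.PP.ZT
import Pool.Agent.helper20.PP.HS
import Pool.Agent.helper99.PP.DC
import Pool.Agent.helper30.PP.DSJ
import Pool.Agent.helper98.PP.C4
import Pool.Agent.helper18.PP.C5
import Pool.Agent.helper98.PP.C6
import Pool.Agent.helper45.PP.CB
import Pool.Agent.helper3.PP.CE
import Pool.Agent.helper71.PP.GEO
import Pool.Agent.helper74.PP.HALF
import Pool.Agent.helper28.PP.CFR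
import Pool.Agent.helper48.PP.CM
import Pool.Agent.helper92.PP.CNT
import Pool.Agent.helper37.PP.CX
import Pool.Agent.helper37.PP.SWA
import Pool.Agent.helper96.PP.CO
import Pool.Agent.helper51.PP.CR
import Pool.Agent.helper33.PP.LED
import Pool.Agent.helper44.PP.LS
import Pool.Agent.helper17.PP.LCN
import Pool.Agent.helper74.PP.LCD
import Pool.Agent.helper22.PP.DT
import Pool.Agent.helper55.PP.TR1
import Pool.Agent.helper57.PP.LJ
import Pool.Agent.helper57.PP.NIV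
import Pool.Agent.helper13.PP.TR2
import Pool.Agent.helper51.PP.WX
import Pool.Agent.helper98.PP.DB
import Pool.Agent.helper19.PP.DIST
import Pool.Agent.helper76.PP.DST
import Pool.Agent.helper12.PP.ZL
import Pool.Agent.helper19.PP.DSC
import Pool.Agent.helper39.PP.EIJ
import Pool.Agent.helper28.PP.LEQ
import Pool.Agent.helper74.PP.ENDS
import Pool.Agent.helper5.PP.WALK
import Pool.Agent.helper29.PP.FAN
import Pool.Agent.helper20.PP.FANB
import Pool.Agent.helper40.PP.INR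
import Pool.Agent.helper87.PP.SEP1
import Pool.Agent.helper21.PP.SEP2
import Pool.Agent.helper20.PP.SEP
import Pool.Agent.helper43.PP.MC
import Pool.Agent.helper57.PP.REM
import Pool.Agent.helper85.PP.QOUT
import Pool.Agent.helper70.PP.PT
import Pool.Agent.helper19.PP.RM
import Pool.Agent.helper87.PP.PH
import Pool.Agent.helper33.PP.SWEEP
import Pool.Agent.helper57.PP.SWF
import Pool.Agent.helper8.PP.SWP
import Pool.Agent.helper5.PP.PROJ
import Pool.Agent.helper57.PP.TQD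
import Pool.Agent.helper98.PP.TQE
import Pool.Agent.helper40.PP.TQR
import Pool.Agent.helper14.PP.ORD
import Pool.Agent.helper57.PP.FINAL

/-!
# Project pp (MP_974a61_co): the assembly
-/

set_option autoImplicit false

namespace Pool.Agent.helper57.PP

theorem t_SC : SC_stmt := SC
theorem t_ALN : ALN_stmt := ALN t_SC
theorem t_ISO : ISO_stmt := ISO
theorem t_ZT : ZT_stmt := ZT
theorem t_HS : HS_stmt := HS t_ISO t_ZT t_ALN
theorem t_DC : DC_stmt := DC t_SC
theorem t_DSJ : DSJ_stmt := DSJ t_HS t_DC t_ISO t_ZT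
theorem t_C4 : C4_stmt := C4 t_HS t_DSJ t_ISO t_ZT
theorem t_C5 : C5_stmt := C5 t_ISO t_ZT
theorem t_C6 : C6_stmt := C6 t_HS t_ALN t_ISO t_ZT
theorem t_CB : CB_stmt := CB
theorem t_CE : CE_stmt := CE
theorem t_GEO : GEO_stmt := GEO
theorem t_HALF : HALF_stmt := HALF t_ISO t_ZT t_DC
theorem t_CFR : CFR_stmt := CFR t_GEO t_HALF t_C4 t_C5 t_C6 t_ISO
theorem t_CM : CM_stmt := CM
theorem t_CNT : CNT_stmt := CNT
theorem t_CX : CX_stmt := CX
theorem t_SWA : SWA_stmt := SWA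
theorem t_CO : CO_stmt := CO t_CX t_SWA
theorem t_CR : CR_stmt := CR
theorem t_LED : LED_stmt := LED
theorem t_LS : LS_stmt := LS t_LED
theorem t_LCN : LCN_stmt := LCN t_LED
theorem t_LCD : LCD_stmt := LCD t_LED
theorem t_DT : DT_stmt := DT t_DC
theorem t_TR1 : TR1_stmt := TR1
theorem t_LJ : LJ_stmt := LJ t_DT t_TR1
theorem t_NIV : NIV_stmt := NIV t_LED t_CB
theorem t_TR2 : TR2_stmt := TR2
theorem t_WX : WX_stmt := WX t_DT t_TR2
theorem t_DB : DB_stmt := DB t_LED t_LS t_LCN t_LCD t_LJ t_NIV t_WX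
theorem t_DIST : DIST_stmt := DIST
theorem t_DST : DST_stmt := DST t_HS t_SC t_ISO t_ZT
theorem t_ZL : ZL_stmt := ZL
theorem t_DSC : DSC_stmt := DSC t_DST t_DSJ t_ISO t_ZL
theorem t_EIJ : EIJ_stmt := EIJ t_HS t_LED t_ISO t_ZL
theorem t_LEQ : LEQ_stmt := LEQ
theorem t_ENDS : ENDS_stmt := ENDS t_LEQ
theorem t_WALK : WALK_stmt := WALK
theorem t_FAN : FAN_stmt := FAN t_WALK
theorem t_FANB : FANB_stmt := FANB
theorem t_INR : INR_stmt := INR
theorem t_SEP1 : SEP1_stmt := SEP1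
theorem t_SEP2 : SEP2_stmt := SEP2
theorem t_SEP : SEP_stmt := SEP t_INR t_SEP1 t_SEP2
theorem t_MC : MC_stmt := MC t_SEP
theorem t_REM : REM_stmt := REM t_INR t_FANB
theorem t_QOUT : QOUT_stmt := QOUT t_INR
theorem t_PT : PT_stmt := PT t_MC t_FAN t_REM t_QOUT
theorem t_RM : RM_stmt := RM t_MC t_FAN t_REM
theorem t_PH : PH_stmt := PH t_RM t_QOUT
theorem t_SWEEP : SWEEP_stmt := SWEEP t_PT t_PH t_SWA t_ENDS t_CX t_INR t_QOUT
theorem t_SWF : SWF_stmt := SWF t_SWEEP t_CX t_CM t_CO t_CE t_CR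
theorem t_SWP : SWP_stmt := SWP t_SWF t_DSC t_ISO t_ZL
theorem t_PROJ : PROJ_stmt := PROJ t_HS t_ISO
theorem t_TQD : TQD_stmt := TQD t_HS t_ISO
theorem t_TQE : TQE_stmt := TQE t_HS t_ISO t_LED t_EIJ t_DIST
theorem t_TQR : TQR_stmt := TQR
theorem t_ORD : ORD_stmt := ORD
theorem t_FINAL : FINAL_stmt := FINAL t_DB t_CFR t_SWP t_PROJ t_TQD t_TQE t_TQR t_ORD t_CNT

end Pool.Agent.helper57.PP
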