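import Pool.Agent.helper57.PP.Defs

/-!
# Project pp: more definitions and basic facts
-/

set_option autoImplicit false

namespace Pool.Agent.helper57.PP

open Finset

section defs

variable {W : Type} [DecidableEq W]

/-- the boundary: the edges which lie in an odd number of members of `T` -/
def bd (T : Finset (Finset W)) : Finset (Finset W) := (edges T).filter fun e => Odd (cof T e).card

/-- the vertices -/
def vs (T : Finset (Finset W)) : Finset W := T.biUnion id

/-- the number of members of `S` which contain `v` -/
def dg (S : Finset (Finset W)) (v : W) : ℕ := (S.filter fun e => v ∈ e).card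

/-- all degrees are even -/
def EvenSet (S : Finset (Finset W)) : Prop := ∀ v, Even (dg S v)

/-- the edges of a path -/
def pe : List W → Finset (Finset W)
  | [] => ∅
  | [_] => ∅
  | a :: b :: l => insert {a, b} (pe (b :: l))

/-- the path from `a` to `z` with the interior vertices `l` -/
def pth (a : W) (l : List W) (z : W) : List W := a :: (l ++ [z])

/-- the triangles formed by `x` and the edges of a path -/
def fan (x : W) (l : List W) : Finset (Finset W) := (pe l).image (insert x)

end defs

section lemmas

variable {W : Type} [DecidableEq W]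

theorem mem_edges {T : Finset (Finset W)} {e : Finset W} :
    e ∈ edges T ↔ e.card = 2 ∧ ∃ t ∈ T, e ⊆ t := by
  simp only [edges, mem_biUnion, mem_powersetCard]
  constructor
  · rintro ⟨t, ht, h1, h2⟩
    exact ⟨h2, t, ht, h1⟩
  · rintro ⟨h2, t, ht, h1⟩
    exact ⟨t, ht, h1, h2⟩

theorem mem_cof {T : Finset (Finset W)} {e t : Finset W} : t ∈ cof T e ↔ t ∈ T ∧ e ⊆ t := by
  simp [cof]

theorem mem_vs {T : Finset (Finset W)} {v : W} : v ∈ vs T ↔ ∃ t ∈ T, v ∈ t := by
  simp [vs]

theorem mem_bd {T : Finset (Finset W)} {e : Finset W} :
    e ∈ bd T ↔ e.card = 2 ∧ Odd (cof T e).card := by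
  simp only [bd, mem_filter, mem_edges]
  constructor
  · rintro ⟨⟨h, -⟩, h'⟩
    exact ⟨h, h'⟩
  · rintro ⟨h, h'⟩
    refine ⟨⟨h, ?_⟩, h'⟩
    have hne : (cof T e).Nonempty := by
      rw [← Finset.card_pos]
      exact h'.pos
    obtain ⟨t, ht⟩ := hne
    exact ⟨t, (mem_cof.1 ht).1, (mem_cof.1 ht).2⟩

theorem bd_subset_edges (T : Finset (Finset W)) : bd T ⊆ edges T := filter_subset _ _

theorem cof_subset (T : Finset (Finset W)) (e : Finset W) : cof T e ⊆ T := filter_subset _ _

theorem cof_mono {R T : Finset (Finset W)} (h : R ⊆ T) (e : Finset W) : cof R e ⊆ cof T e :=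
  filter_subset_filter _ h

theorem cof_anti (T : Finset (Finset W)) {e e' : Finset W} (h : e ⊆ e') : cof T e' ⊆ cof T e := by
  intro t ht
  rw [mem_cof] at ht ⊢
  exact ⟨ht.1, h.trans ht.2⟩

theorem cof_cof (T : Finset (Finset W)) {v : W} {e : Finset W} (h : v ∈ e) :
    cof (cof T {v}) e = cof T e := by
  ext t
  simp only [mem_cof, singleton_subset_iff]
  constructor
  · rintro ⟨⟨h1, -⟩, h2⟩
    exact ⟨h1, h2⟩
  · rintro ⟨h1, h2⟩
    exact ⟨⟨h1, h2 h⟩, h2⟩

theorem cof_sdiff (A B : Finset (Finset W)) (e : Finset W) : cof (A \ B) e = cof A e \ cof B e := by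
  ext t
  simp only [mem_cof, mem_sdiff]
  tauto

theorem edges_mono {R T : Finset (Finset W)} (h : R ⊆ T) : edges R ⊆ edges T := by
  intro e he
  rw [mem_edges] at he ⊢
  obtain ⟨h1, t, ht, h2⟩ := he
  exact ⟨h1, t, h ht, h2⟩

theorem vs_mono {R T : Finset (Finset W)} (h : R ⊆ T) : vs R ⊆ vs T := by
  intro v hv
  rw [mem_vs] at hv ⊢
  obtain ⟨t, ht, h2⟩ := hv
  exact ⟨t, h ht, h2⟩

theorem edges_iff_cof_nonempty {T : Finset (Finset W)} {e : Finset W} (h : e.card = 2) :
    e ∈ edges T ↔ (cof T e).Nonempty := by
  rw [mem_edges]
  constructor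
  · rintro ⟨-, t, ht, h2⟩
    exact ⟨t, mem_cof.2 ⟨ht, h2⟩⟩
  · rintro ⟨t, ht⟩
    exact ⟨h, t, (mem_cof.1 ht).1, (mem_cof.1 ht).2⟩

/-- an edge has two different ends -/
theorem edges_ne {T : Finset (Finset W)} {x y : W} (h : ({x, y} : Finset W) ∈ edges T) : x ≠ y := by
  rintro rfl
  have := (mem_edges.1 h).1
  simp at this

theorem edges_comm {T : Finset (Finset W)} {x y : W} (h : ({x, y} : Finset W) ∈ edges T) :
    ({y, x} : Finset W) ∈ edges T := by rwa [Finset.pair_comm]

theorem left_mem_vs {T : Finset (Finset W)} {x y : W} (h : ({x, y} : Finset W) ∈ edges T) : x ∈ vs T := by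
  obtain ⟨-, t, ht, h2⟩ := mem_edges.1 h
  exact mem_vs.2 ⟨t, ht, h2 (by simp)⟩

theorem right_mem_vs {T : Finset (Finset W)} {x y : W} (h : ({x, y} : Finset W) ∈ edges T) : y ∈ vs T :=
  left_mem_vs (edges_comm h)

/-! ### paths -/

@[simp] theorem pe_nil : pe ([] : List W) = ∅ := rfl

@[simp] theorem pe_singleton (a : W) : pe [a] = ∅ := rfl

@[simp] theorem pe_cons_cons (a b : W) (l : List W) : pe (a :: b :: l) = insert {a, b} (pe (b :: l)) := rfl

theorem mem_pe {l : List W} {e : Finset W} :
    e ∈ pe l ↔ ∃ A a b B, l = A ++ a :: b :: B ∧ e = {a, b} := by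
  induction l with
  | nil => simp
  | cons c l ih =>
    cases l with
    | nil =>
      simp only [pe_singleton, notMem_empty, false_iff]
      rintro ⟨A, a, b, B, h, -⟩
      have := congrArg List.length h
      simp at this
      omega
    | cons d l =>
      rw [pe_cons_cons, mem_insert, ih]
      constructor
      · rintro (h | ⟨A, a, b, B, h, h'⟩)
        · exact ⟨[], c, d, l, rfl, h⟩
        · exact ⟨c :: A, a, b, B, by rw [h]; rfl, h'⟩
      · rintro ⟨A, a, b, B, h, h'⟩
        cases A with
        | nil =>
          simp only [List.nil_append, List.cons.injEq] at h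
          left
          rw [h', h.1, h.2.1]
        | cons c' A =>
          right
          simp only [List.cons_append, List.cons.injEq] at h
          exact ⟨A, a, b, B, h.2, h'⟩

theorem mem_of_mem_pe {l : List W} {e : Finset W} (h : e ∈ pe l) {v : W} (hv : v ∈ e) : v ∈ l := by
  obtain ⟨A, a, b, B, rfl, rfl⟩ := mem_pe.1 h
  simp only [mem_insert, mem_singleton] at hv
  rcases hv with rfl | rfl <;> simp

theorem card_of_mem_pe {l : List W} (hl : l.Nodup) {e : Finset W} (h : e ∈ pe l) : e.card = 2 := by
  obtain ⟨A, a, b, B, rfl, rfl⟩ := mem_pe.1 h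
  rw [Finset.card_pair]
  rintro rfl
  simp [List.nodup_append] at hl

theorem pe_append (A : List W) (a : W) (B : List W) :
    pe (A ++ a :: B) = pe (A ++ [a]) ∪ pe (a :: B) := by
  induction A with
  | nil => simp
  | cons c A ih =>
    cases A with
    | nil => simp
    | cons d A =>
      simp only [List.cons_append, pe_cons_cons] at ih ⊢
      rw [ih, insert_union]

theorem pe_reverse (l : List W) : pe l.reverse = pe l := by
  induction l with
  | nil => rfl
  | cons a l ih =>
    cases l with
    | nil => rfl
    | cons b l =>
      rw [pe_cons_cons, ← ih, List.reverse_cons, List.reverse_cons, List.append_assoc,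
        List.singleton_append, pe_append]
      simp only [pe_cons_cons, pe_singleton, Finset.pair_comm]
      ext e
      simp only [mem_union, mem_insert, notMem_empty, or_false]
      tauto

/-- the edges of a path at an interior vertex -/
theorem pe_at {A B : List W} {y0 x yr : W} (h : (A ++ y0 :: x :: yr :: B).Nodup) {e : Finset W}
    (he : e ∈ pe (A ++ y0 :: x :: yr :: B)) (hx : x ∈ e) : e = {y0, x} ∨ e = {x, yr} := by
  rw [pe_append] at he
  simp only [pe_cons_cons, mem_union, mem_insert] at he
  have hnd : x ∉ A ∧ x ≠ y0 ∧ x ≠ yr ∧ x ∉ B := by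
    simp only [List.nodup_append, List.nodup_cons, List.mem_cons] at h
    grind
  rcases he with he | he | he | he
  · have := mem_of_mem_pe he hx
    simp only [List.mem_append, List.mem_singleton] at this
    tauto
  · exact Or.inl he
  · exact Or.inr he
  · have := mem_of_mem_pe he hx
    simp only [List.mem_cons] at this
    tauto

/-- a path with at least two vertices has an edge at every vertex -/
theorem exists_pe_of_mem {a : W} {cs : List W} {z v : W} (h : v ∈ pth a cs z) :
    ∃ e ∈ pe (pth a cs z), v ∈ e := by
  unfold pth at h ⊢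
  induction cs generalizing a with
  | nil =>
    refine ⟨{a, z}, by simp, ?_⟩
    simpa using h
  | cons c cs ih =>
    simp only [List.cons_append, List.mem_cons] at h
    rcases h with h | h
    · exact ⟨{a, c}, by simp, by simp [h]⟩
    · obtain ⟨e, he, hv⟩ := ih (a := c) (by simpa using h)
      exact ⟨e, by simp only [List.cons_append, pe_cons_cons, mem_insert] at he ⊢; tauto, hv⟩

/-! ### parity -/

theorem card_symmDiff_add {α : Type*} [DecidableEq α] (A B : Finset α) :
    (symmDiff A B).card + 2 * (A ∩ B).card = A.card + B.card := by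
  have h1 : (symmDiff A B).card = (A \ B).card + (B \ A).card := by
    have hs : symmDiff A B = (A \ B) ∪ (B \ A) := rfl
    rw [hs]
    apply Finset.card_union_of_disjoint
    rw [Finset.disjoint_left]
    intro x hx hx'
    simp only [mem_sdiff] at hx hx'
    tauto
  have h2 := Finset.card_sdiff_add_card_inter A B
  have h3 := Finset.card_sdiff_add_card_inter B A
  rw [Finset.inter_comm B A] at h3
  omega

theorem odd_card_symmDiff {α : Type*} [DecidableEq α] (A B : Finset α) :
    Odd (symmDiff A B).card ↔ (Odd A.card ∧ ¬ Odd B.card) ∨ (Odd B.card ∧ ¬ Odd A.card) := by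
  have h := card_symmDiff_add A B
  simp only [Nat.odd_iff]
  omega

theorem cof_symmDiff (A B : Finset (Finset W)) (e : Finset W) :
    cof (symmDiff A B) e = symmDiff (cof A e) (cof B e) := by
  ext t
  simp only [mem_cof, mem_symmDiff]
  tauto

theorem bd_symmDiff (A B : Finset (Finset W)) : bd (symmDiff A B) = symmDiff (bd A) (bd B) := by
  ext e
  rw [mem_bd, cof_symmDiff, odd_card_symmDiff, mem_symmDiff, mem_bd, mem_bd]
  tauto

theorem symmDiff_eq_sdiff' {α : Type*} [DecidableEq α] {A B : Finset α} (h : B ⊆ A) :
    symmDiff A B = A \ B := by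
  ext x
  simp only [mem_symmDiff, mem_sdiff]
  have := @h x
  tauto

theorem bd_sdiff {A B : Finset (Finset W)} (h : B ⊆ A) : bd (A \ B) = symmDiff (bd A) (bd B) := by
  rw [← symmDiff_eq_sdiff' h, bd_symmDiff]

theorem bd_empty : bd (∅ : Finset (Finset W)) = ∅ := by
  ext e
  simp [mem_bd, cof]

theorem odd_dg_symmDiff (S S' : Finset (Finset W)) (v : W) :
    Odd (dg (symmDiff S S') v) ↔ (Odd (dg S v) ∧ ¬ Odd (dg S' v)) ∨ (Odd (dg S' v) ∧ ¬ Odd (dg S v)) := by
  unfold dg
  have : (symmDiff S S').filter (fun e => v ∈ e) =
      symmDiff (S.filter fun e => v ∈ e) (S'.filter fun e => v ∈ e) := by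
    ext t
    simp only [mem_filter, mem_symmDiff]
    tauto
  rw [this, odd_card_symmDiff]

theorem evenSet_iff {S : Finset (Finset W)} : EvenSet S ↔ ∀ v, ¬ Odd (dg S v) := by
  unfold EvenSet
  simp only [Nat.not_odd_iff_even]

theorem evenSet_symmDiff {S S' : Finset (Finset W)} (h : EvenSet S) (h' : EvenSet S') :
    EvenSet (symmDiff S S') := by
  rw [evenSet_iff] at h h' ⊢
  intro v
  rw [odd_dg_symmDiff]
  have := h v
  have := h' v
  tauto

theorem evenSet_empty : EvenSet (∅ : Finset (Finset W)) := by
  intro v
  simp [dg]

/-- boundaries are even -/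
theorem evenSet_bd {T : Finset (Finset W)} (h : ∀ t ∈ T, t.card = 3) : EvenSet (bd T) := by
  induction T using Finset.induction_on with
  | empty => rw [bd_empty]; exact evenSet_empty
  | insert t T ht ih =>
    have h1 : insert t T = symmDiff {t} T := by
      ext x
      simp only [mem_insert, mem_symmDiff, mem_singleton]
      constructor
      · rintro (rfl | hx)
        · exact Or.inl ⟨rfl, ht⟩
        · exact Or.inr ⟨hx, fun hh => ht (hh ▸ hx)⟩
      · tauto
    rw [h1, bd_symmDiff]
    apply evenSet_symmDiff _ (ih fun t' ht' => h t' (mem_insert_of_mem ht'))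
    have h3 : t.card = 3 := h t (mem_insert_self _ _)
    obtain ⟨a, b, c, hab, hac, hbc, rfl⟩ := Finset.card_eq_three.1 h3
    have h2 : bd {({a, b, c} : Finset W)} = {{a, b}, {a, c}, {b, c}} := by
      ext e
      rw [mem_bd]
      have : (cof {({a, b, c} : Finset W)} e) = if e ⊆ {a, b, c} then {{a, b, c}} else ∅ := by
        ext t
        simp only [mem_cof, mem_singleton]
        split_ifs with hh
        · simp only [mem_singleton]
          constructor
          · tauto
          · rintro rfl
            exact ⟨rfl, hh⟩
        · simp only [notMem_empty, iff_false]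
          rintro ⟨rfl, h'⟩
          exact hh h'
      rw [this]
      simp only [mem_insert, mem_singleton]
      constructor
      · rintro ⟨hc, ho⟩
        split_ifs at ho with hh
        · obtain ⟨x, y, hxy, rfl⟩ := Finset.card_eq_two.1 hc
          have hx : x ∈ ({a, b, c} : Finset W) := hh (by simp)
          have hy : y ∈ ({a, b, c} : Finset W) := hh (by simp)
          simp only [mem_insert, mem_singleton] at hx hy
          rcases hx with rfl | rfl | rfl <;> rcases hy with rfl | rfl | rfl <;>
            simp_all [Finset.pair_comm]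
        · simp at ho
      · have hs : ∀ u v : W, u ∈ ({a, b, c} : Finset W) → v ∈ ({a, b, c} : Finset W) →
            ({u, v} : Finset W) ⊆ {a, b, c} := by
          intro u v hu hv w hw
          simp only [mem_insert, mem_singleton] at hw
          rcases hw with rfl | rfl <;> assumption
        rintro (rfl | rfl | rfl)
        · exact ⟨Finset.card_pair hab, by rw [if_pos (hs _ _ (by simp) (by simp))]; simp⟩
        · exact ⟨Finset.card_pair hac, by rw [if_pos (hs _ _ (by simp) (by simp))]; simp⟩
        · exact ⟨Finset.card_pair hbc, by rw [if_pos (hs _ _ (by simp) (by simp))]; simp⟩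
    rw [h2]
    intro v
    unfold dg
    have n1 : ({a, b} : Finset W) ≠ {a, c} := by
      intro hh
      have : b ∈ ({a, c} : Finset W) := by rw [← hh]; simp
      simp only [mem_insert, mem_singleton] at this
      tauto
    have n2 : ({a, b} : Finset W) ≠ {b, c} := by
      intro hh
      have : a ∈ ({b, c} : Finset W) := by rw [← hh]; simp
      simp only [mem_insert, mem_singleton] at this
      tauto
    have n3 : ({a, c} : Finset W) ≠ {b, c} := by
      intro hh
      have : a ∈ ({b, c} : Finset W) := by rw [← hh]; simp
      simp only [mem_insert, mem_singleton] at this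
      tauto
    rw [Finset.card_filter, Finset.sum_insert (by simp [n1, n2]), Finset.sum_insert (by simp [n3]),
      Finset.sum_singleton]
    simp only [mem_insert, mem_singleton]
    by_cases ha : v = a
    · subst ha; simp [hab, hac]
    · by_cases hb : v = b
      · subst hb; simp [ha, hbc]
      · by_cases hc : v = c
        · subst hc; simp [ha, hb]
        · simp [ha, hb, hc]

/-- an even set of edges of a path is empty -/
theorem even_path {l : List W} (hl : l.Nodup) {S : Finset (Finset W)} (hS : S ⊆ pe l)
    (he : EvenSet S) : S = ∅ := by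
  induction l with
  | nil => simpa using hS
  | cons a l ih =>
    cases l with
    | nil => simpa using hS
    | cons b l =>
      have ha : a ∉ b :: l := (List.nodup_cons.1 hl).1
      have hnot : ({a, b} : Finset W) ∉ S := by
        intro hab
        have h1 : S.filter (fun e => a ∈ e) = {{a, b}} := by
          ext e
          simp only [mem_filter, mem_singleton]
          constructor
          · rintro ⟨h1, h2⟩
            have := hS h1
            rw [pe_cons_cons, mem_insert] at this
            rcases this with h | h
            · exact h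
            · exact absurd (mem_of_mem_pe h h2) ha
          · rintro rfl
            exact ⟨hab, by simp⟩
        have h2 := he a
        unfold dg at h2
        rw [h1] at h2
        simp at h2
      apply ih (List.nodup_cons.1 hl).2
      intro e heS
      have := hS heS
      rw [pe_cons_cons, mem_insert] at this
      rcases this with rfl | h
      · exact absurd heS hnot
      · exact h

/-- the degrees in a path are odd exactly at its ends -/
theorem odd_dg_path {x : W} {M : List W} {y : W} (h : (x :: (M ++ [y])).Nodup) (v : W) :
    Odd (dg (pe (x :: (M ++ [y]))) v) ↔ v = x ∨ v = y := by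
  induction M generalizing x with
  | nil =>
    simp only [List.nil_append, pe_cons_cons, pe_singleton, dg]
    have hxy : x ≠ y := by
      rintro rfl
      simp at h
    by_cases hv : v = x ∨ v = y
    · have : (insert {x, y} ∅ : Finset (Finset W)).filter (fun e => v ∈ e) = {{x, y}} := by
        ext e
        simp only [mem_filter, mem_insert, notMem_empty, or_false, mem_singleton]
        constructor
        · tauto
        · rintro rfl
          simp [hv]
      rw [this]
      simp [hv]
    · have : (insert {x, y} ∅ : Finset (Finset W)).filter (fun e => v ∈ e) = ∅ := by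
        ext e
        simp only [mem_filter, mem_insert, notMem_empty, or_false, iff_false]
        rintro ⟨rfl, h'⟩
        exact hv (by simpa using h')
      rw [this]
      simp [hv]
  | cons c M ih =>
    have h' : (c :: (M ++ [y])).Nodup := (List.nodup_cons.1 h).2
    have hx : x ∉ c :: (M ++ [y]) := (List.nodup_cons.1 h).1
    have ih' := ih h'
    have hxc : x ≠ c := fun hh => hx (by simp [hh])
    have hxy : x ≠ y := fun hh => hx (by simp [hh])
    have hcy : c ≠ y := by
      rintro rfl
      simp at h'
    have hnot : ({x, c} : Finset W) ∉ pe (c :: (M ++ [y])) := fun hh =>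
      hx (mem_of_mem_pe hh (by simp))
    have hs : pe (x :: (c :: M ++ [y])) = symmDiff {{x, c}} (pe (c :: (M ++ [y]))) := by
      ext e
      simp only [List.cons_append, pe_cons_cons, mem_insert, mem_symmDiff, mem_singleton]
      constructor
      · rintro (rfl | h2)
        · exact Or.inl ⟨rfl, hnot⟩
        · exact Or.inr ⟨h2, fun hh => hnot (hh ▸ h2)⟩
      · tauto
    rw [hs, odd_dg_symmDiff, ih']
    have hd : Odd (dg {({x, c} : Finset W)} v) ↔ v = x ∨ v = c := by
      unfold dg
      by_cases hv : v = x ∨ v = c
      · have : ({{x, c}} : Finset (Finset W)).filter (fun e => v ∈ e) = {{x, c}} := by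
          ext e
          simp only [mem_filter, mem_singleton]
          constructor
          · tauto
          · rintro rfl
            simp [hv]
        rw [this]
        simp [hv]
      · have : ({{x, c}} : Finset (Finset W)).filter (fun e => v ∈ e) = ∅ := by
          ext e
          simp only [mem_filter, mem_singleton, notMem_empty, iff_false]
          rintro ⟨rfl, h'⟩
          exact hv (by simpa using h')
        rw [this]
        simp [hv]
    rw [hd]
    by_cases h1 : v = x
    · subst h1; simp [hxc, hxy]
    · by_cases h2 : v = c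
      · subst h2; simp [hcy, h1]
      · simp [h1, h2]

/-- the edges of a cycle -/
theorem even_cycle {x : W} {M : List W} {y : W} (h : (x :: (M ++ [y])).Nodup) (hM : M ≠ []) :
    EvenSet (insert {x, y} (pe (x :: (M ++ [y])))) := by
  have hxy : x ≠ y := by
    rintro rfl
    simp at h
  have hnot : ({x, y} : Finset W) ∉ pe (x :: (M ++ [y])) := by
    intro hh
    cases M with
    | nil => exact hM rfl
    | cons c M =>
      simp only [List.cons_append, pe_cons_cons, mem_insert] at hh
      rcases hh with hh | hh
      · have : y ∈ ({x, c} : Finset W) := by rw [← hh]; simp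
        simp only [mem_insert, mem_singleton] at this
        rcases this with rfl | rfl
        · exact hxy rfl
        · simp at h
      · have := mem_of_mem_pe hh (show x ∈ ({x, y} : Finset W) by simp)
        exact (List.nodup_cons.1 h).1 this
  have hs : insert {x, y} (pe (x :: (M ++ [y]))) = symmDiff (pe [x, y]) (pe (x :: (M ++ [y]))) := by
    ext e
    simp only [pe_cons_cons, pe_singleton, mem_insert, mem_symmDiff, notMem_empty, or_false]
    constructor
    · rintro (rfl | h2)
      · exact Or.inl ⟨rfl, hnot⟩
      · exact Or.inr ⟨h2, fun hh => hnot (hh ▸ h2)⟩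
    · tauto
  rw [hs, evenSet_iff]
  intro v
  rw [odd_dg_symmDiff, odd_dg_path h]
  have := odd_dg_path (x := x) (M := []) (y := y) (by simp [hxy]) v
  simp only [List.nil_append] at this
  rw [this]
  tauto

end lemmas

end Pool.Agent.helper57.PP
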