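import Mathlib

/-!
# Triangulated surfaces and their lifts: definitions (MP_974a61_co, rows pp:*)
-/

set_option autoImplicit false

namespace Pool.Agent.helper57.PP

open Finset

section defs

variable {W : Type} [DecidableEq W]

/-- the edges: the two-element subsets of the members of `T` -/
def edges (T : Finset (Finset W)) : Finset (Finset W) := T.biUnion fun t => t.powersetCard 2

/-- the members of `T` which contain `e` -/
def cof (T : Finset (Finset W)) (e : Finset W) : Finset (Finset W) := T.filter fun t => e ⊆ t

/-- triangulated surface without boundary: triangles, every edge lies in exactly two triangles, and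
the link of every vertex is connected -/
structure IsSurface (F : Finset (Finset W)) : Prop where
  card3 : ∀ t ∈ F, t.card = 3
  two : ∀ e ∈ edges F, (cof F e).card = 2
  link : ∀ v a b : W, {v, a} ∈ edges F → {v, b} ∈ edges F →
    Relation.ReflTransGen (fun x y : W => ({v, x, y} : Finset W) ∈ F) a b

/-- the graph with the edge set `S` -/
def gr (S : Finset (Finset W)) : SimpleGraph W where
  Adj x y := x ≠ y ∧ {x, y} ∈ S
  symm := ⟨fun x y h => ⟨h.1.symm, by rw [Finset.pair_comm]; exact h.2⟩⟩
  loopless := ⟨fun x h => h.1 rfl⟩

end defs

/-- the `i`-th element after the `j`-th one in the cyclic ordering `e` of `N` elements: `e ((j + i) mod N)` -/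
def cyc {N : ℕ} {α : Type} (e : Fin N → α) (j : Fin N) (i : ℕ) : α := e ⟨(j.1 + i) % N, Nat.mod_lt _ j.pos⟩

end Pool.Agent.helper57.PP
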