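import Pool.Agent.helper57.PP.Spec

set_option autoImplicit false

namespace Pool.Agent.helper57.PP

open Finset

theorem NIV_two : ∀ x : ZMod 2, x + x = 0 := by decide

theorem NIV_sg {V : Type} (x : V × ZMod 2) : sg (sg x) = x := by
  have : x.2 + 1 + 1 = x.2 := by rw [add_assoc, NIV_two, add_zero]
  exact Prod.ext rfl this

theorem NIV_cases {V : Type} {x y : V × ZMod 2} (h : x.1 = y.1) : x = y ∨ x = sg y := by
  have : ∀ a b : ZMod 2, a = b ∨ a = b + 1 := by decide
  rcases this x.2 y.2 with h' | h'
  · exact Or.inl (Prod.ext h h')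
  · exact Or.inr (Prod.ext h h')

theorem NIV_tel (g : ℕ → ZMod 2) (m : ℕ) : ∑ i ∈ range m, (g i + g (i + 1)) = g 0 + g m := by
  induction m with
  | zero => simp [NIV_two]
  | succ m ih =>
    rw [sum_range_succ, ih]
    have := NIV_two (g m)
    linear_combination this

theorem NIV (h1 : LED_stmt) (h2 : CB_stmt) : NIV_stmt := by
  intro V _ _ F w hF hw A hA hinv m p hm per inj hedge hbd
  obtain ⟨l1, -, l3, l4, l5⟩ := h1 V F w hF hw
  have hfst : ∀ t ∈ lift F w, ∀ x ∈ t, ∀ y ∈ t, x.1 = y.1 → x = y := by
    intro t ht x hx y hy hxy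
    have h3 : t.card = 3 ∧ t.image Prod.fst ∈ F := by
      unfold lift at ht
      rw [mem_filter] at ht
      exact ⟨ht.2.1, ht.2.2.1⟩
    have h4 : (t.image Prod.fst).card = t.card := by rw [hF.card3 _ h3.2, h3.1]
    exact Finset.card_image_iff.1 h4 hx hy hxy
  -- the projection of an edge
  have hpe : ∀ x y : V × ZMod 2, ({x, y} : Finset (V × ZMod 2)).image Prod.fst = {x.1, y.1} := by
    intro x y
    simp [image_insert]
  set A0 : Finset (Finset V) := A.image (image Prod.fst) with hA0
  have hA0F : A0 ⊆ F := by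
    intro t ht
    rw [hA0, mem_image] at ht
    obtain ⟨t', ht', rfl⟩ := ht
    have := hA ht'
    unfold lift at this
    rw [mem_filter] at this
    exact this.2.2.1
  -- step 1
  have s1 : ∀ e ∈ edges (lift F w), (cof A e).card = (cof A0 (e.image Prod.fst)).card := by
    intro e he
    apply Finset.card_bij (fun t _ => t.image Prod.fst)
    · intro t ht
      rw [mem_cof] at ht ⊢
      exact ⟨mem_image_of_mem _ ht.1, image_subset_image ht.2⟩
    · intro t ht t' ht' htt
      rw [mem_cof] at ht ht'
      rcases l5 t (hA ht.1) t' (hA ht'.1) htt with h | h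
      · exact h.symm
      · exfalso
        obtain ⟨x, y, hxy, rfl⟩ := Finset.card_eq_two.1 (mem_edges.1 he).1
        have hx : x ∈ t := ht.2 (by simp)
        have hx' : x ∈ t.image sg := by rw [← h]; exact ht'.2 (by simp)
        rw [mem_image] at hx'
        obtain ⟨z, hz, hzx⟩ := hx'
        have : z = x := hfst t (hA ht.1) z hz x hx (by rw [← hzx]; rfl)
        rw [this] at hzx
        have h5 := congrArg Prod.snd hzx
        have h6 : ∀ a : ZMod 2, a + 1 ≠ a := by decide
        exact h6 _ h5
    · intro T0 hT0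
      rw [mem_cof] at hT0
      obtain ⟨hT, hsub⟩ := hT0
      rw [hA0, mem_image] at hT
      obtain ⟨t, ht, rfl⟩ := hT
      obtain ⟨x, y, hxy, rfl⟩ := Finset.card_eq_two.1 (mem_edges.1 he).1
      have hxe := (l1 x y).1 he
      rw [hpe] at hsub
      have hx1 : x.1 ∈ t.image Prod.fst := hsub (by simp)
      have hy1 : y.1 ∈ t.image Prod.fst := hsub (by simp)
      rw [mem_image] at hx1 hy1
      obtain ⟨x', hx', hx1⟩ := hx1
      obtain ⟨y', hy', hy1⟩ := hy1
      have hne : x' ≠ y' := by
        rintro rfl
        exact hxe.1 (hx1.symm.trans hy1)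
      have hw' : x'.2 + y'.2 = w {x'.1, y'.1} := by
        have := hA ht
        unfold lift at this
        rw [mem_filter] at this
        exact this.2.2.2 x' hx' y' hy' hne
      rw [hx1, hy1, ← hxe.2.2] at hw'
      rcases NIV_cases hx1 with hc | hc
      · subst hc
        have hyy : y' = y := Prod.ext hy1 (add_left_cancel hw')
        subst hyy
        refine ⟨t, mem_cof.2 ⟨ht, ?_⟩, rfl⟩
        intro z hz
        simp only [mem_insert, mem_singleton] at hz
        rcases hz with rfl | rfl <;> assumption
      · have hyy : y' = sg y := by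
          refine Prod.ext hy1 ?_
          show y'.2 = y.2 + 1
          have h7 : x'.2 = x.2 + 1 := by rw [hc]; rfl
          rw [h7] at hw'
          have : ∀ a b c : ZMod 2, a + 1 + b = a + c → b = c + 1 := by decide
          exact this _ _ _ hw'
        refine ⟨t.image sg, mem_cof.2 ⟨hinv t ht, ?_⟩, ?_⟩
        · intro z hz
          simp only [mem_insert, mem_singleton] at hz
          rw [mem_image]
          rcases hz with rfl | rfl
          · exact ⟨x', hx', by rw [hc, NIV_sg]⟩
          · exact ⟨y', hy', by rw [hyy, NIV_sg]⟩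
        · rw [image_image]
          rfl
  -- step 2
  have s2 : ∀ e ∈ edges (lift F w), (e ∈ bd A ↔ e.image Prod.fst ∈ bd A0) := by
    intro e he
    rw [mem_bd, mem_bd, s1 e he]
    have h3 := (mem_edges.1 he).1
    have h4 := (mem_edges.1 (l4 e he).2).1
    simp only [h3, h4, true_and]
  have hp2 : ∀ i, (p (i + m)).1 = (p i).1 := fun i => by rw [per]; rfl
  -- step 3
  have s3 : bd A0 = (range m).image fun i => {(p i).1, (p (i + 1)).1} := by
    ext f
    rw [mem_image]
    constructor
    · intro hf
      obtain ⟨hc2, T0, hT0, hsub⟩ := mem_edges.1 (bd_subset_edges _ hf)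
      obtain ⟨a, b, hab, rfl⟩ := Finset.card_eq_two.1 hc2
      rw [hA0, mem_image] at hT0
      obtain ⟨t, ht, rfl⟩ := hT0
      have hx1 : a ∈ t.image Prod.fst := hsub (by simp)
      have hy1 : b ∈ t.image Prod.fst := hsub (by simp)
      rw [mem_image] at hx1 hy1
      obtain ⟨x, hx, rfl⟩ := hx1
      obtain ⟨y, hy, rfl⟩ := hy1
      have hxy : x ≠ y := fun h => hab (by rw [h])
      have he : ({x, y} : Finset (V × ZMod 2)) ∈ edges (lift F w) :=
        mem_edges.2 ⟨card_pair hxy, t, hA ht, by
          intro z hz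
          simp only [mem_insert, mem_singleton] at hz
          rcases hz with rfl | rfl <;> assumption⟩
      have h5 := (s2 _ he).2 (by rw [hpe]; exact hf)
      rw [hbd, zt, mem_image] at h5
      obtain ⟨i, hi, hie⟩ := h5
      rw [mem_range] at hi
      have h6 : ({x.1, y.1} : Finset V) = {(p i).1, (p (i + 1)).1} := by
        rw [← hpe, ← hie, hpe]
      rcases Nat.lt_or_ge i m with hl | hl
      · exact ⟨i, mem_range.2 hl, h6.symm⟩
      · refine ⟨i - m, mem_range.2 (by omega), ?_⟩
        rw [h6, ← hp2 (i - m), ← hp2 (i - m + 1), show i - m + m = i by omega,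
          show i - m + 1 + m = i + 1 by omega]
    · rintro ⟨i, hi, rfl⟩
      rw [mem_range] at hi
      rw [← hpe, ← s2 _ (hedge i), hbd, zt, mem_image]
      exact ⟨i, mem_range.2 (by omega), rfl⟩
  -- projection of edges
  have proj : ∀ x y x' y' : V × ZMod 2, ({x, y} : Finset (V × ZMod 2)) ∈ edges (lift F w) →
      ({x', y'} : Finset (V × ZMod 2)) ∈ edges (lift F w) → x.1 = x'.1 → y.1 = y'.1 →
      (x = x' ∧ y = y') ∨ (x = sg x' ∧ y = sg y') := by
    intro x y x' y' he he' h3 h4
    have e1 := ((l1 x y).1 he).2.2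
    have e2 := ((l1 x' y').1 he').2.2
    rw [h3, h4, ← e2] at e1
    rcases NIV_cases h3 with hc | hc
    · left
      subst hc
      exact ⟨rfl, Prod.ext h4 (add_left_cancel e1)⟩
    · right
      refine ⟨hc, Prod.ext h4 ?_⟩
      show y.2 = y'.2 + 1
      have h7 : x.2 = x'.2 + 1 := by rw [hc]; rfl
      rw [h7] at e1
      have : ∀ a b c : ZMod 2, a + 1 + b = a + c → b = c + 1 := by decide
      exact this _ _ _ e1
  have p2m : p (2 * m) = p 0 := by
    have h3 := per 0
    have h4 := per m
    rw [zero_add] at h3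
    rw [show 2 * m = m + m by ring, h4, h3, NIV_sg]
  have hinj : ∀ i < m, ∀ j < m, ({(p i).1, (p (i + 1)).1} : Finset V) = {(p j).1, (p (j + 1)).1} →
      i = j := by
    intro i hi j hj hij
    have pm : ∀ k ≤ 2 * m, ∀ l < 2 * m, p k = p l → k = l ∨ (k = 2 * m ∧ l = 0) := by
      intro k hk l hl h
      rcases Nat.lt_or_ge k (2 * m) with h' | h'
      · exact Or.inl (inj k h' l hl h)
      · right
        have hk' : k = 2 * m := by omega
        rw [hk', p2m] at h
        exact ⟨hk', (inj 0 (by omega) l hl h).symm⟩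
    have hai : (p i).1 ∈ ({(p j).1, (p (j + 1)).1} : Finset V) := by rw [← hij]; simp
    have hbi : (p (i + 1)).1 ∈ ({(p j).1, (p (j + 1)).1} : Finset V) := by rw [← hij]; simp
    have hne := ((l1 _ _).1 (hedge i)).1
    simp only [mem_insert, mem_singleton] at hai hbi
    rcases hai with ha | ha <;> rcases hbi with hb | hb
    · exact absurd (ha.trans hb.symm) hne
    · rcases proj _ _ _ _ (hedge i) (hedge j) ha hb with ⟨h3, -⟩ | ⟨h3, -⟩
      · exact inj i (by omega) j (by omega) h3
      · rw [← per j] at h3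
        have := inj i (by omega) (j + m) (by omega) h3
        omega
    · rcases proj _ _ _ _ (hedge i) (edges_comm (hedge j)) ha hb with ⟨h3, h4⟩ | ⟨h3, h4⟩
      · have h5 := inj i (by omega) (j + 1) (by omega) h3
        have h6 := inj (i + 1) (by omega) j (by omega) h4
        omega
      · rw [← per] at h3 h4
        have h5 := pm (j + 1 + m) (by omega) i (by omega) h3.symm
        have h6 := pm (j + m) (by omega) (i + 1) (by omega) h4.symm
        omega
    · exact absurd (ha.trans hb.symm) hne
  -- the sum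
  have hsum : ∑ e ∈ bd A0, w e = 1 := by
    rw [s3, sum_image]
    · have : ∀ i ∈ range m, w {(p i).1, (p (i + 1)).1} = (p i).2 + (p (i + 1)).2 := fun i _ =>
        ((l1 _ _).1 (hedge i)).2.2.symm
      rw [sum_congr rfl this, NIV_tel (fun i => (p i).2)]
      have h3 := per 0
      rw [zero_add] at h3
      show (p 0).2 + (p m).2 = 1
      rw [h3]
      show (p 0).2 + ((p 0).2 + 1) = 1
      rw [← add_assoc, NIV_two, zero_add]
    · intro i hi j hj h
      rw [mem_coe, mem_range] at hi hj
      exact hinj i hi j hj h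
  have hzero := h2 V F w hF.card3 hw A0 hA0F
  rw [hsum] at hzero
  exact absurd hzero (by decide)

end Pool.Agent.helper57.PP
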