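import Pool.Agent.helper57.PP.Spec

set_option autoImplicit false

namespace Pool.Agent.helper57.PP

open Finset

theorem SC_tri {W : Type} [DecidableEq W] {t : Finset W} {v : W} (h : t.card = 3) (hv : v ∈ t) :
    ∃ a b, v ≠ a ∧ v ≠ b ∧ a ≠ b ∧ t = {v, a, b} := by
  have h2 : (t.erase v).card = 2 := by rw [card_erase_of_mem hv, h]
  obtain ⟨a, b, hab, he⟩ := Finset.card_eq_two.1 h2
  have ha : a ∈ t.erase v := by rw [he]; simp
  have hb : b ∈ t.erase v := by rw [he]; simp
  refine ⟨a, b, (ne_of_mem_erase ha).symm, (ne_of_mem_erase hb).symm, hab, ?_⟩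
  rw [← he, insert_erase hv]

theorem SC : SC_stmt := by
  intro W _ F hF v S hS hne hall
  obtain ⟨t0, ht0⟩ := hne
  have ht0F := mem_cof.1 (hS ht0)
  have hv0 : v ∈ t0 := by
    have := ht0F.2
    rwa [singleton_subset_iff] at this
  obtain ⟨a, b, hva, hvb, hab, rfl⟩ := SC_tri (hF.card3 _ ht0F.1) hv0
  apply Finset.Subset.antisymm hS
  intro t ht
  have htF := mem_cof.1 ht
  have hvt : v ∈ t := by
    have := htF.2
    rwa [singleton_subset_iff] at this
  obtain ⟨c, d, hvc, hvd, hcd, rfl⟩ := SC_tri (hF.card3 _ htF.1) hvt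
  have e1 : ({v, a} : Finset W) ∈ edges F := mem_edges.2 ⟨card_pair hva, _, ht0F.1, by
    intro x hx; simp only [mem_insert, mem_singleton] at hx ⊢; tauto⟩
  have e2 : ({v, c} : Finset W) ∈ edges F := mem_edges.2 ⟨card_pair hvc, _, htF.1, by
    intro x hx; simp only [mem_insert, mem_singleton] at hx ⊢; tauto⟩
  have hl := hF.link v a c e1 e2
  have key : v ≠ c ∧ (cof S {v, c}).Nonempty := by
    clear e2 ht htF hvt hcd hvc hvd
    induction hl with
    | refl =>
      refine ⟨hva, {v, a, b}, mem_cof.2 ⟨ht0, ?_⟩⟩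
      intro x hx
      simp only [mem_insert, mem_singleton] at hx ⊢
      tauto
    | @tail x y _ hxy ih =>
      have h3 := hF.card3 _ hxy
      obtain ⟨hvx, hn⟩ := ih
      have hvy : v ≠ y := by
        rintro rfl
        rw [show ({v, x, v} : Finset W) = {v, x} by
          ext z; simp only [mem_insert, mem_singleton]; tauto] at h3
        have := card_le_two (a := v) (b := x)
        omega
      refine ⟨hvy, {v, x, y}, mem_cof.2 ⟨?_, ?_⟩⟩
      · rcases hall {v, x} (card_pair hvx) (by simp) with h | h
        · exact absurd h hn.ne_empty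
        · have : ({v, x, y} : Finset W) ∈ cof F {v, x} := mem_cof.2 ⟨hxy, by
            intro z hz; simp only [mem_insert, mem_singleton] at hz ⊢; tauto⟩
          rw [← h] at this
          exact (mem_cof.1 this).1
      · intro z hz
        simp only [mem_insert, mem_singleton] at hz ⊢
        tauto
  rcases hall {v, c} (card_pair hvc) (by simp) with h | h
  · exact absurd h key.2.ne_empty
  · have : ({v, c, d} : Finset W) ∈ cof F {v, c} := mem_cof.2 ⟨htF.1, by
      intro z hz; simp only [mem_insert, mem_singleton] at hz ⊢; tauto⟩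
    rw [← h] at this
    exact (mem_cof.1 this).1

end Pool.Agent.helper57.PP
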