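import Pool.Agent.helper57.PP.Basic

/-!
# Project pp (rows pp:* of problem MP_974a61_co): the cyclic ordering conjecture of Kajitani, Ueno and
Miyano for three spanning trees of a simple graph in the projective plane

THEOREM (`FINAL_stmt`): the edges of every triangulation of the projective plane have a cyclic ordering
in which any `n - 1` cyclically consecutive edges form a spanning tree.

Rules: every `XX_stmt` is proved in `Pool/Agent/<seat>/PP/XX.lean`: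
`import Pool.Agent.helper57.PP.Spec`, `set_option autoImplicit false`,
`namespace Pool.Agent.helper57.PP`, `open Finset`, `theorem XX (h1 : YY_stmt) ... : XX_stmt` with the
hypotheses named in the lock note.  Auxiliary lemmas are prefixed `XX_`.
No sorry, no straight double quotes, no `congr!`, no `convert`, no `native_decide`.
If a statement is false or awkward, tell helper57 at once.

Defs.lean: `edges T`, `cof T e`, `IsSurface`, `gr S`, `cyc`.  Basic.lean: `bd T`, `vs T`, `dg S v`,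
`EvenSet`, `pe l` (edges of a path), `pth a l z = a :: (l ++ [z])`, `fan`, and the PROVED lemmas
`mem_edges mem_cof mem_bd mem_vs cof_mono cof_cof cof_sdiff edges_mono edges_iff_cof_nonempty edges_ne
mem_pe mem_of_mem_pe card_of_mem_pe pe_append pe_reverse pe_at exists_pe_of_mem odd_card_symmDiff
cof_symmDiff bd_symmDiff bd_sdiff bd_empty odd_dg_symmDiff evenSet_iff evenSet_symmDiff evenSet_bd
even_path odd_dg_path even_cycle`.

Notation in the comments: `A ∆ B` is `symmDiff A B`; an edge is a two-element `Finset`; `|cof T e| ≤ 2`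
always.  A part `N` of the star of `v` is ALL-OR-NONE (with respect to `T`) if for every edge `e ∋ v`,
`cof N e` is `∅` or `cof T e`; this is the hypothesis of `StarConn`.
-/

set_option autoImplicit false

namespace Pool.Agent.helper57.PP

open Finset

section defs

variable {W : Type} [DecidableEq W]

/-- the stars are connected: a nonempty part `S` of the star of a vertex `v` which contains, for every
edge at `v`, all or none of the triangles of `T` at this edge, is the whole star -/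
def StarConn (T : Finset (Finset W)) : Prop := ∀ v, ∀ S ⊆ cof T {v}, S.Nonempty →
  (∀ e : Finset W, e.card = 2 → v ∈ e → cof S e = ∅ ∨ cof S e = cof T e) → S = cof T {v}

/-- a triangulated disc `T` whose boundary consists of the bottom path `pth a bs z` and the top path
`pth a ts z` -/
structure Disc (T : Finset (Finset W)) (a z : W) (bs ts : List W) : Prop where
  card3 : ∀ t ∈ T, t.card = 3
  le2 : ∀ e : Finset W, e.card = 2 → (cof T e).card ≤ 2
  star : StarConn T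
  nd : (a :: z :: (bs ++ ts)).Nodup
  bs_ne : bs ≠ []
  ts_ne : ts ≠ []
  bdT : bd T = pe (pth a bs z) ∪ pe (pth a ts z)
  J : ∀ S ⊆ edges T, EvenSet S → ∃ A ⊆ T, bd A = S
  J0 : ∀ A ⊆ T, bd A = ∅ → A = ∅

/-- a state of the sweep: `C` is the current path from `a` to `z`, `R` the set of the triangles below
`C` (between `C` and the bottom path) -/
structure St (T : Finset (Finset W)) (a z : W) (bs : List W) (R : Finset (Finset W)) (C : List W) :
    Prop where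
  sub : R ⊆ T
  nd : C.Nodup
  ends : ∃ cs, C = pth a cs z
  pe_sub : pe C ⊆ edges T
  bdR : bd R = symmDiff (pe (pth a bs z)) (pe C)
  up : ∀ x ∈ C, ∀ y ∈ C, {x, y} ∈ edges T → {x, y} ∈ edges R ∨ {x, y} ∈ pe C

end defs

/-- a step of the sweep: `x` is replaced by `mid`; `y0` and `yr` are the neighbours of `x` on the path -/
structure Step (W : Type) where
  x : W
  y0 : W
  mid : List W
  yr : W

section defs2

variable {W : Type} [DecidableEq W]

/-- `Sw T a z bs R C σ R' C'`: the steps `σ` lead from the state `(R, C)` to the state `(R', C')` -/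
inductive Sw (T : Finset (Finset W)) (a z : W) (bs : List W) :
    Finset (Finset W) → List W → List (Step W) → Finset (Finset W) → List W → Prop
  | nil (R : Finset (Finset W)) (C : List W) (h : St T a z bs R C) : Sw T a z bs R C [] R C
  | cons (R : Finset (Finset W)) (A : List W) (y0 x yr : W) (B mid : List W) (σ : List (Step W))
      (R' : Finset (Finset W)) (C' : List W) (h : St T a z bs R (A ++ y0 :: x :: yr :: B))
      (hx : x ∉ pth a bs z) (hnd : (y0 :: (mid ++ [yr])).Nodup)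
      (hfan : cof R {x} = fan x (y0 :: (mid ++ [yr])))
      (hmid : ∀ y ∈ mid, y ∉ A ++ y0 :: x :: yr :: B)
      (hrest : Sw T a z bs (R \ cof R {x}) (A ++ y0 :: (mid ++ yr :: B)) σ R' C') :
      Sw T a z bs R (A ++ y0 :: x :: yr :: B) (⟨x, y0, mid, yr⟩ :: σ) R' C'

/-- inversion of a sweep without steps -/
theorem sw_nil {T : Finset (Finset W)} {a z : W} {bs : List W} {R : Finset (Finset W)} {C : List W}
    {R' : Finset (Finset W)} {C' : List W} (h : Sw T a z bs R C [] R' C') :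
    R' = R ∧ C' = C ∧ St T a z bs R C := by
  cases h with
  | nil _ _ h => exact ⟨rfl, rfl, h⟩

/-- inversion of a sweep with a first step `s` (so most statements about sweeps can be proved by
induction on `σ`, with `R`, `C` generalized) -/
theorem sw_cons {T : Finset (Finset W)} {a z : W} {bs : List W} {R : Finset (Finset W)} {C : List W}
    {s : Step W} {σ : List (Step W)} {R' : Finset (Finset W)} {C' : List W}
    (h : Sw T a z bs R C (s :: σ) R' C') :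
    ∃ A B, C = A ++ s.y0 :: s.x :: s.yr :: B ∧ St T a z bs R C ∧ s.x ∉ pth a bs z ∧
      (s.y0 :: (s.mid ++ [s.yr])).Nodup ∧ cof R {s.x} = fan s.x (s.y0 :: (s.mid ++ [s.yr])) ∧
      (∀ y ∈ s.mid, y ∉ C) ∧
      Sw T a z bs (R \ cof R {s.x}) (A ++ s.y0 :: (s.mid ++ s.yr :: B)) σ R' C' := by
  cases h with
  | cons _ A y0 x yr B mid _ _ _ h hx hnd hfan hmid hrest =>
    exact ⟨A, B, rfl, h, hx, hnd, hfan, hmid, hrest⟩

end defs2

/-! ## Group D: the sweep of a disc -/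

/-- INR (from nothing): a vertex off the path which is below the path has its whole star below.
Let `N = cof R {v}`.  It is nonempty: if `v ∈ bs` take `e ∈ pe (pth a bs z)` with `v ∈ e`
(`exists_pe_of_mem`); `e ∉ pe C` (`mem_of_mem_pe`), so `e ∈ bd R`.  `N` is all-or-none: let `e ∋ v` be an
edge; `cof N e = cof R e` (`cof_cof`), `e ∉ pe C`.  If `e ∈ pe (pth a bs z)` then `e ∈ bd R`, `|cof R e|` is
odd, and `e ∈ bd T`, so `|cof T e| = 1`: `cof R e = cof T e`.  Otherwise `e ∉ bd R`: `|cof R e|` is even and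
`≤ |cof T e| ≤ 2`, so `cof R e = ∅` or `|cof R e| = 2`, `cof R e = cof T e` (`eq_of_subset_of_card_le`).
`StarConn`. -/
def INR_stmt : Prop := ∀ (W : Type) [DecidableEq W] (T R : Finset (Finset W)) (a z : W)
  (bs ts C : List W), Disc T a z bs ts → St T a z bs R C →
  ∀ v, v ∉ C → (v ∈ vs R ∨ v ∈ bs) → cof T {v} ⊆ R ∧ v ∈ vs R

/-- QOUT (from INR): a removed top vertex is not below the path.
If `v ∈ vs R` then `cof T {v} ⊆ R` (INR).  Take `e ∈ pe (pth a ts z)` with `v ∈ e`.  `e ∈ bd T`, and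
`cof R e = cof T e` (as `cof T e ⊆ cof T {v} ⊆ R`), so `e ∈ bd R`; `e ∉ pe C`, so `e ∈ pe (pth a bs z)` and
`v ∈ pth a bs z`, against `nd`. -/
def QOUT_stmt : Prop := ∀ (W : Type) [DecidableEq W] (T R : Finset (Finset W)) (a z : W)
  (bs ts C : List W), Disc T a z bs ts → St T a z bs R C →
  ∀ v ∈ ts, v ∉ C → v ∉ vs R

/-- SEP1 (from nothing): the part of the disc cut off by a chord `xy`.
`S := insert {x, y} (pe (x :: (M ++ [y])))` is even (`even_cycle`), `{x, y} ∉ pe C` (nodup, `M ≠ []`),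
`S ⊆ edges T`.  `J`: `A ⊆ T` with `bd A = S`.  CLAIM `bd (A \ R) ⊆ pe C`.  Let `e ∈ bd (A \ R)`,
`e ∉ pe C`.  If `e = {x, y}`: `|cof A e|` is odd, so `= 1`, and it is a triangle `τ ∉ R`; as `e ∈ edges R`
there is `τ' ∈ R` with `e ⊆ τ'`, `τ' ≠ τ`, so `cof T e = {τ, τ'}` and `cof R e = {τ'}`: `e ∈ bd R`.  If
`e ≠ {x, y}`: `e ∉ S`, `|cof A e|` is even and `cof A e` contains an element outside of `R`, so
`|cof A e| = 2`, `cof A e = cof T e`, and as `|cof (A \ R) e|` is odd exactly one of the two triangles is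
in `R`: `e ∈ bd R`.  In both cases `e ∈ bd R`, `e ∉ pe C`, so `e ∈ pe (pth a bs z)`, `e ∈ bd T`,
`|cof T e| = 1`: a contradiction.  `bd (A \ R)` is even (`evenSet_bd`), so it is empty (`even_path`), and
`A \ R = ∅` (`J0`). -/
def SEP1_stmt : Prop := ∀ (W : Type) [DecidableEq W] (T R : Finset (Finset W)) (a z : W)
  (bs ts : List W) (A1 : List W) (x : W) (M : List W) (y : W) (B : List W), Disc T a z bs ts →
  St T a z bs R (A1 ++ x :: (M ++ y :: B)) → M ≠ [] → {x, y} ∈ edges R →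
  {x, y} ∉ pe (A1 ++ x :: (M ++ y :: B)) ∧
  ∃ A ⊆ R, bd A = insert {x, y} (pe (x :: (M ++ [y])))

/-- SEP2 (from nothing): an inner vertex of the segment cut off by a chord is not a bottom vertex, and its
star below the path belongs to the part cut off.
Let `C` be the path, `A` as in SEP1, `S = bd A`, `v ∈ M`, `N = cof R {v} \ A`.  Let `e ∋ v` be an edge.
(a) `e ∉ pe C`: `e ∉ S` (`e ≠ {x, y}` as `v ≠ x, y`).  If `e ∈ pe (pth a bs z)`: `|cof T e| = 1`, so `cof N e`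
is `∅` or `cof T e`.  Else `e ∉ bd R`: `|cof R e|` and `|cof A e|` are `0` or `2`, `cof A e ⊆ cof R e ⊆ cof T e`:
`cof N e = cof R e \ cof A e` is `∅` or `cof T e`.
(b) `e ∈ pe C`: then `e ∈ pe (x :: (M ++ [y]))` (as `v ∈ M`, `C` nodup), so `e ∈ S`, `|cof A e| = 1`.  If
`e ∈ pe (pth a bs z)` then `e ∉ bd R`, `|cof R e|` is even and `≤ |cof T e| = 1`, so `cof R e = ∅`, against
`A ⊆ R`.  So `e ∉ pe (pth a bs z)`, `e ∈ bd R`, `|cof R e| = 1`, `cof R e = cof A e`, `cof N e = ∅`.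
So `N` is all-or-none; if `N ≠ ∅` then `N = cof T {v}`, but `cof A {v}` is nonempty (`v` has an edge in `S`)
and disjoint from `N`.  So `N = ∅`.
If `v ∈ pth a bs z`: take `e ∈ pe (pth a bs z)` with `v ∈ e`; by (b) `e ∉ pe C`, so `e ∈ bd R`,
`cof R e = cof T e` has one element, in `cof R {v} ⊆ A`: `|cof A e| = 1`, `e ∈ S`, but `e ∉ pe C` and
`e ≠ {x, y}`. -/
def SEP2_stmt : Prop := ∀ (W : Type) [DecidableEq W] (T R A : Finset (Finset W)) (a z : W)
  (bs ts : List W) (A1 : List W) (x : W) (M : List W) (y : W) (B : List W), Disc T a z bs ts →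
  St T a z bs R (A1 ++ x :: (M ++ y :: B)) → M ≠ [] → {x, y} ∈ edges R → A ⊆ R →
  bd A = insert {x, y} (pe (x :: (M ++ [y]))) →
  ∀ v ∈ M, v ∉ pth a bs z ∧ cof R {v} ⊆ A

/-- SEP (from INR, SEP1, SEP2): the neighbours of an inner vertex `v` of a segment cut off by a chord.
Let `C` be the path and suppose `w ≠ x, y`, `w ∉ M`.  First `{v, w} ∈ edges R`: if `w ∈ C` by `up`
(`{v, w} ∈ pe C` is excluded, as `v ∈ M`); if `w ∉ C` then `w ∈ bs` (`a, z ∈ C`), and INR gives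
`cof T {w} ⊆ R`.  So there is `τ ∈ R` with `v, w ∈ τ`, and `τ ∈ A` (SEP2).  No edge at `w` is in
`S = bd A`, so `|cof A e| ∈ {0, 2}` for all edges `e ∋ w`: `cof A {w}` is all-or-none and nonempty, so
`cof A {w} = cof T {w}`.  If `w ∈ pth a bs z`: `e ∈ pe (pth a bs z)` with `w ∈ e` has `|cof T e| = 1` and
`cof A e = cof T e`, so `e ∈ bd A = S`: a contradiction.  If `w ∈ C`, `w ∉ pth a bs z`: take `e ∈ pe C` with
`w ∈ e`; `e ∉ pe (pth a bs z)`, so `e ∈ bd R` and `|cof R e|` is odd; `cof A e = cof T e = cof R e`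
(`cof T e ⊆ cof T {w} = cof A {w} ⊆ A ⊆ R`), so `e ∈ bd A = S`: a contradiction. -/
def SEP_stmt : Prop := ∀ (W : Type) [DecidableEq W] (T R : Finset (Finset W)) (a z : W)
  (bs ts : List W) (A1 : List W) (x : W) (M : List W) (y : W) (B : List W), Disc T a z bs ts →
  St T a z bs R (A1 ++ x :: (M ++ y :: B)) → M ≠ [] → {x, y} ∈ edges R →
  ∀ v ∈ M, v ∉ pth a bs z ∧
    ∀ w, (w ∈ A1 ++ x :: (M ++ y :: B) ∨ w ∈ pth a bs z) → {v, w} ∈ edges T → w = x ∨ w = y ∨ w ∈ M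

/-- WALK (from nothing): a graph (set of edges `L`) with the degrees 1 at `a` and `b` and 0 or 2
elsewhere contains a path from `a` to `b` which uses all edges at its vertices.
Induction on `|L|`: let `{a, c}` be the edge at `a`.  If `c = b`: `mid = []`.  Else `dg L c = 2`; in
`L' = L.erase {a, c}`: `dg L' a = 0`, `dg L' c = 1`, `dg L' b = 1`, other degrees unchanged: the path
`c :: (mid' ++ [b])` for `L'`; `a` is not on it, since every vertex of it is on an edge of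
`pe (..) ⊆ L'` (`exists_pe_of_mem`); `mid = c :: mid'`. -/
def WALK_stmt : Prop := ∀ (W : Type) [DecidableEq W] (L : Finset (Finset W)) (a b : W),
  (∀ e ∈ L, e.card = 2) → a ≠ b → dg L a = 1 → dg L b = 1 →
  (∀ v, v ≠ a → v ≠ b → dg L v = 0 ∨ dg L v = 2) →
  ∃ mid : List W, (pth a mid b).Nodup ∧ pe (pth a mid b) ⊆ L ∧
    ∀ v ∈ pth a mid b, ∀ e ∈ L, v ∈ e → e ∈ pe (pth a mid b)

/-- FAN (from WALK): the triangles below the path at a vertex without chords form a fan.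
`L := (cof R {x}).image (fun t => t.erase x)` (pairs, as `|t| = 3`); `dg L y = |cof R {x, y}|` for `y ≠ x`
(`t ↦ t.erase x` is injective on the `t ∋ x`), `dg L x = 0`.  For `y = y0` or `yr`: `{x, y} ∈ pe C`,
`∉ pe (pth a bs z)`, so `∈ bd R`, and the degree is `1`.  For other `y ≠ x`: `{x, y} ∉ pe C` (`pe_at`), so
`∉ bd R`: degree `0` or `2`.  WALK: `mid`.  `S := fan x (y0 :: (mid ++ [yr])) ⊆ cof R {x}` (nonempty).
`N := cof R {x} \ S` is all-or-none: let `e = {x, y}`.  If `y` is on the path then all triangles of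
`cof R e` are in `S`: `cof N e = ∅`.  Else `cof S e = ∅` and `cof N e = cof R e` has `0` or `2` elements:
`∅` or `cof T e`.  If `N ≠ ∅` then `N = cof T {x} ⊇ S`: a contradiction.  So `cof R {x} = S`.  For `y ∈ mid`:
`{x, y} ∈ edges R`, so `y ∈ C` gives `y = y0` or `y = yr` by the hypothesis, against nodup. -/
def FAN_stmt : Prop := ∀ (W : Type) [DecidableEq W] (T R : Finset (Finset W)) (a z : W)
  (bs ts : List W) (A1 : List W) (y0 x yr : W) (B : List W), Disc T a z bs ts →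
  St T a z bs R (A1 ++ y0 :: x :: yr :: B) → x ∉ pth a bs z →
  (∀ y ∈ A1 ++ y0 :: x :: yr :: B, {x, y} ∈ edges T → y = y0 ∨ y = yr) →
  ∃ mid : List W, (y0 :: (mid ++ [yr])).Nodup ∧ cof R {x} = fan x (y0 :: (mid ++ [yr])) ∧
    ∀ y ∈ mid, y ∉ A1 ++ y0 :: x :: yr :: B

/-- FANB (from nothing): the boundary of a fan.  Induction on `mid`:
`fan x (y0 :: c :: l) = insert {x, y0, c} (fan x (c :: l))` is the symmetric difference with
`{{x, y0, c}}` (the new triangle contains `y0`, the others do not), `bd_symmDiff`, and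
`bd {{x, y0, c}} = {{x, y0}, {x, c}, {y0, c}}`. -/
def FANB_stmt : Prop := ∀ (W : Type) [DecidableEq W] (x y0 : W) (mid : List W) (yr : W),
  (y0 :: (mid ++ [yr])).Nodup → x ∉ y0 :: (mid ++ [yr]) →
  bd (fan x (y0 :: (mid ++ [yr]))) = {{x, y0}, {x, yr}} ∪ pe (y0 :: (mid ++ [yr])) ∧
  Disjoint ({{x, y0}, {x, yr}} : Finset (Finset W)) (pe (y0 :: (mid ++ [yr])))

/-- REM (from INR, FANB): the new state.  `C = A1 ++ y0 :: x :: yr :: B`, `C' = A1 ++ y0 :: (mid ++ yr :: B)`,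
`R' = R \ cof R {x}`, `F = y0 :: (mid ++ [yr])`.  By `pe_append` (several times)
`pe C = pe (A1 ++ [y0]) ∪ {{y0, x}, {x, yr}} ∪ pe (yr :: B)`,
`pe C' = pe (A1 ++ [y0]) ∪ pe F ∪ pe (yr :: B)`.  `pe F` is disjoint from `pe C`: an edge of `pe F` with an
end in `mid` is not in `pe C`; if `mid = []` then `{y0, yr} ∉ pe C` as `C` is nodup.  So
`bd R' = bd R ∆ bd (cof R {x})` (`bd_sdiff`) `= pe P ∆ pe C ∆ ({{x, y0}, {x, yr}} ∪ pe F) = pe P ∆ pe C'`.
`pe C' ⊆ edges T`: for `{u, v} ∈ pe F`, `insert x {u, v} ∈ R` (`hfan`).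
`up`: let `u, v ∈ C'`, `{u, v} ∈ edges T`.  If `u, v ∈ C` (so `≠ x`): by `up`, `{u, v} ∈ pe C`, and then
`∈ pe C'` (not an edge at `x`), or `{u, v} ⊆ t ∈ R`.  If `u ∉ C` (or `v ∉ C`): `u ∈ mid`, `u ∈ vs R`, and INR
gives `cof T {u} ⊆ R`, so again `{u, v} ⊆ t ∈ R`.  If `x ∉ t` then `t ∈ R'`, `{u, v} ∈ edges R'`.  If
`x ∈ t` then `t = insert x e`, `e ∈ pe F`, and `e = {u, v}` (cardinality): `{u, v} ∈ pe C'`. -/
def REM_stmt : Prop := ∀ (W : Type) [DecidableEq W] (T R : Finset (Finset W)) (a z : W)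
  (bs ts : List W) (A1 : List W) (y0 x yr : W) (B mid : List W), Disc T a z bs ts →
  St T a z bs R (A1 ++ y0 :: x :: yr :: B) → x ∉ pth a bs z → (y0 :: (mid ++ [yr])).Nodup →
  cof R {x} = fan x (y0 :: (mid ++ [yr])) → (∀ y ∈ mid, y ∉ A1 ++ y0 :: x :: yr :: B) →
  St T a z bs (R \ cof R {x}) (A1 ++ y0 :: (mid ++ yr :: B))

/-- MC (from SEP): a segment cut off by a chord contains a vertex without chords.  `Bf` is a set of
bottom vertices.  Strong induction on the length of `M`.  Let `C` be the path.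
If there are `v ∈ M`, `y' ∈ C` with `{v, y'} ∈ edges T`, `{v, y'} ∉ pe C`: by SEP `y' ∈ {x, y} ∪ M`, by `up`
`{v, y'} ∈ edges R`; `v` and `y'` are two vertices of the segment `x :: (M ++ [y])`, not consecutive, and
`{v, y'} ≠ {x, y}`: this is a chord of a shorter segment `x' :: (M' ++ [y'])`, `M' ≠ []`, `M' ⊆ M`, and its
ends are not in `Bf` (the elements of `M` are not in `pth a bs z` by SEP): induction.
Otherwise take any `v ∈ M`; a neighbour `b ∈ Bf` of `v` would be `x`, `y` or in `M` (SEP): impossible. -/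
def MC_stmt : Prop := ∀ (W : Type) [DecidableEq W] (T R : Finset (Finset W)) (a z : W)
  (bs ts : List W) (Bf : Finset W) (A1 : List W) (x : W) (M : List W) (y : W) (B : List W),
  Disc T a z bs ts → St T a z bs R (A1 ++ x :: (M ++ y :: B)) → M ≠ [] → {x, y} ∈ edges R →
  (∀ b ∈ Bf, b ∈ pth a bs z) → x ∉ Bf → y ∉ Bf →
  ∃ v ∈ M, v ∉ pth a bs z ∧ (∀ b ∈ Bf, {v, b} ∉ edges T) ∧
    ∀ y' ∈ A1 ++ x :: (M ++ y :: B), {v, y'} ∈ edges T → {v, y'} ∈ pe (A1 ++ x :: (M ++ y :: B))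

/-- RM (from MC, FAN, REM): a removable vertex not adjacent to `Bf`.
Let `x ∈ C`, `x ∉ pth a bs z`, without neighbours in `Bf`.  If `x` has no chord (no `y' ∈ C` with
`{x, y'} ∈ edges T`, `{x, y'} ∉ pe C`) take `v = x`.  Else `{x, y'} ∈ edges R` (`up`), `y' ∉ Bf`, and
`C = A1 ++ x :: (M ++ y' :: B)` or with `x`, `y'` exchanged, `M ≠ []`: MC gives `v`.  `v` is not an end of `C`,
so `C = A ++ y0 :: v :: yr :: B`, and `{v, y'} ∈ pe C` means `y' = y0` or `y' = yr` (`pe_at`).  FAN, REM. -/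
def RM_stmt : Prop := ∀ (W : Type) [DecidableEq W] (T R : Finset (Finset W)) (a z : W)
  (bs ts : List W) (Bf : Finset W) (C : List W) (x : W),
  Disc T a z bs ts → St T a z bs R C → (∀ b ∈ Bf, b ∈ pth a bs z) → x ∈ C → x ∉ pth a bs z →
  (∀ b ∈ Bf, {x, b} ∉ edges T) →
  ∃ (A : List W) (y0 v yr : W) (B mid : List W), C = A ++ y0 :: v :: yr :: B ∧ v ∉ pth a bs z ∧
    (∀ b ∈ Bf, {v, b} ∉ edges T) ∧ (y0 :: (mid ++ [yr])).Nodup ∧
    cof R {v} = fan v (y0 :: (mid ++ [yr])) ∧ (∀ y ∈ mid, y ∉ C) ∧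
    St T a z bs (R \ cof R {v}) (A ++ y0 :: (mid ++ yr :: B))

/-- PH (from RM, QOUT): a phase of the sweep: remove vertices not adjacent to `Bf` as long as there are
any.  Strong induction on `|R|`: `cof R {v}` is nonempty (a fan has a triangle).  If every `x ∈ C` outside
of `pth a bs z` has a neighbour in `Bf`: `Sw.nil`.  Else RM and `Sw.cons`; the new path has no vertex in
`ts`: `mid ⊆ vs R` and `mid` is disjoint from `C`, so QOUT. -/
def PH_stmt : Prop := ∀ (W : Type) [DecidableEq W] (T R : Finset (Finset W)) (a z : W)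
  (bs ts : List W) (Bf : Finset W) (C : List W),
  Disc T a z bs ts → St T a z bs R C → (∀ b ∈ Bf, b ∈ pth a bs z) → (∀ t ∈ ts, t ∉ C) →
  ∃ (σ : List (Step W)) (R' : Finset (Finset W)) (C' : List W), Sw T a z bs R C σ R' C' ∧
    (∀ s ∈ σ, (∀ b ∈ Bf, {s.x, b} ∉ edges T) ∧ s.x ∉ ts ∧ s.y0 ∉ ts) ∧
    (∀ x ∈ C', x ∉ pth a bs z → ∃ b ∈ Bf, {x, b} ∈ edges T) ∧ (∀ t ∈ ts, t ∉ C')

/-- PT (from MC, FAN, REM, QOUT): the phase in which the top vertices are removed, from left to right.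
Invariants: `C = A' ++ (tl' ++ [z])`, `ts = tl0 ++ tl'`, no element of `A'` is in `ts`, and `tl0 = [] → A' = [a]`.
Strong induction on `|R|`.  `tl' = []`: done (`Sw.nil`).  `tl' = t :: tl''`.
(1) `t` has no chord: FAN, REM for `t` (`t ∉ pth a bs z` by `nd`); `y0` is the last element of `A'`
(nonempty), `yr` the next element of `ts ++ [z]`; the new `A'` is `A' ++ mid` (`mid` is not in `ts` by
QOUT), new `tl0` is `tl0 ++ [t]`.  `t` has no neighbour in `bs` by `HX`.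
(2) `t` has a chord: `y' ∈ C`, `{t, y'} ∈ edges T`, `∉ pe C`, so `∈ edges R`.  If `y' ∈ tl''` or `y' = z`: by
`HQ` `{t, y'} ∈ pe (pth a ts z)`, so `y'` is the successor of `t` in `pth a ts z` (`pe_at`; the predecessor is
in `a :: tl0`), which is its successor in `C`: a contradiction.  If `y' = a`: by `HQ` and `pe_at` `a` is the
predecessor of `t` in `pth a ts z`, so `tl0 = []`, `A' = [a]`, `{a, t} ∈ pe C`: a contradiction.  So
`y' ∈ A'`, `y' ≠ a`, `y' ∉ ts`; `y' ∉ bs` by `HX`, so `y' ∉ pth a bs z`.  `C = A1 ++ y' :: (M ++ t :: ..)`, `M ≠ []`,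
`M ⊆ A'`.  MC with `Bf = bs.toFinset`: `v ∈ M` without chords, `v ∉ pth a bs z`, no neighbours in `bs`.
FAN, REM for `v`; `A' = A2 ++ y0 :: v :: A3` (`v ≠ a` is not the first element), `yr` the next element of
`C`; new `A'` is `A2 ++ y0 :: (mid ++ A3)`, `tl0`, `tl'` unchanged, `tl0 ≠ []` since `A' ≠ [a]`. -/
def PT_stmt : Prop := ∀ (W : Type) [DecidableEq W] (T R : Finset (Finset W)) (a z : W)
  (bs ts : List W) (A' tl0 tl' : List W),
  Disc T a z bs ts →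
  (∀ x ∈ pth a ts z, ∀ y ∈ pth a ts z, {x, y} ∈ edges T → {x, y} ∈ pe (pth a ts z)) →
  (∀ b ∈ bs, ∀ t ∈ ts, {t, b} ∉ edges T) →
  St T a z bs R (A' ++ (tl' ++ [z])) → ts = tl0 ++ tl' → (∀ x ∈ A', x ∉ ts) → A' ≠ [] →
  (tl0 = [] → A' = [a]) →
  ∃ (σ : List (Step W)) (R' : Finset (Finset W)) (C' : List W),
    Sw T a z bs R (A' ++ (tl' ++ [z])) σ R' C' ∧
    (∀ s ∈ σ, (∀ b ∈ bs, {s.x, b} ∉ edges T) ∧ s.y0 ∉ ts ∧
      (s.x ∈ ts → ∃ A B, pth a ts z = A ++ s.x :: s.yr :: B)) ∧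
    (∀ t ∈ ts, t ∉ C')

/-- SWA (from nothing): concatenation of sweeps; states. -/
def SWA_stmt : Prop := ∀ (W : Type) [DecidableEq W] (T : Finset (Finset W)) (a z : W) (bs : List W),
  (∀ R C σ R1 C1 σ' R2 C2, Sw T a z bs R C σ R1 C1 → Sw T a z bs R1 C1 σ' R2 C2 →
    Sw T a z bs R C (σ ++ σ') R2 C2) ∧
  (∀ R C σ R' C', Sw T a z bs R C σ R' C' → St T a z bs R C ∧ St T a z bs R' C' ∧ R' ⊆ R) ∧
  (∀ R C σ σ' R' C', Sw T a z bs R C (σ ++ σ') R' C' →
    ∃ R1 C1, Sw T a z bs R C σ R1 C1 ∧ Sw T a z bs R1 C1 σ' R' C')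

/-- LEQ (from nothing): two nodup paths from `a` with the same edges are equal.  Induction: the edge at
`a` is `{a, b}` in both. -/
def LEQ_stmt : Prop := ∀ (W : Type) [DecidableEq W] (a z : W) (l l' : List W),
  (pth a l z).Nodup → (pth a l' z).Nodup → pe (pth a l z) = pe (pth a l' z) → l = l'

/-- ENDS (from LEQ): the sweep is complete if all vertices of the path are bottom vertices.
Every edge `{x, y} ∈ pe C` is in `edges T`, so by `HP` in `pe P`, `P = pth a bs z`: `pe C ⊆ pe P`,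
`bd R = pe P \ pe C ⊆ pe P` is even (`evenSet_bd`), so `bd R = ∅` (`even_path`), `R = ∅` (`J0`), and
`pe P = pe C`: LEQ. -/
def ENDS_stmt : Prop := ∀ (W : Type) [DecidableEq W] (T R : Finset (Finset W)) (a z : W)
  (bs ts C : List W), Disc T a z bs ts → St T a z bs R C →
  (∀ x ∈ pth a bs z, ∀ y ∈ pth a bs z, {x, y} ∈ edges T → {x, y} ∈ pe (pth a bs z)) →
  (∀ x ∈ C, x ∈ pth a bs z) → R = ∅ ∧ C = pth a bs z

/-! ## Group C: what a sweep gives -/

/-- CX (from nothing): the removed vertices.  Induction.  Step: `R1 = R \ cof R {x}`, `C1` the new path.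
`(C ∪ vs R) = {x} ⊔ (C1 ∪ vs R1)`: `x ∉ C1` (`nd`, `hmid`), `x ∉ vs R1`; a triangle of `R` at `x` is
`insert x e`, `e ∈ pe (y0 :: (mid ++ [yr]))`, its other vertices are in `C1`; `mid ⊆ vs R`. -/
def CX_stmt : Prop := ∀ (W : Type) [DecidableEq W] (T R R' : Finset (Finset W)) (a z : W)
  (bs C C' : List W) (σ : List (Step W)), Sw T a z bs R C σ R' C' →
  (σ.map Step.x).Nodup ∧
  (∀ v, v ∈ σ.map Step.x ↔ (v ∈ C ∨ v ∈ vs R) ∧ ¬ (v ∈ C' ∨ v ∈ vs R')) ∧
  (∀ v, v ∈ C' ∨ v ∈ vs R' → v ∈ C ∨ v ∈ vs R) ∧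
  (∀ s ∈ σ, s.x ∉ pth a bs z)

/-- CM (from nothing): the inserted vertices of a complete sweep.  Induction.  Step:
`(v ∈ P ∨ v ∈ vs R) ∧ v ∉ C ↔ v ∈ mid ∨ ((v ∈ P ∨ v ∈ vs R1) ∧ v ∉ C1)`: `C1` is `C` without `x` and with `mid`;
`x ∉ P`, `x ∉ vs R1`; the vertices `≠ x` of the triangles at `x` are in `{y0, yr} ∪ mid`, `mid ⊆ vs R`. -/
def CM_stmt : Prop := ∀ (W : Type) [DecidableEq W] (T R : Finset (Finset W)) (a z : W)
  (bs C : List W) (σ : List (Step W)), Sw T a z bs R C σ ∅ (pth a bs z) →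
  (σ.flatMap Step.mid).Nodup ∧
  (∀ v, v ∈ σ.flatMap Step.mid ↔ v ∉ C ∧ (v ∈ pth a bs z ∨ v ∈ vs R))

/-- CO (from CX, SWA): in a complete sweep the neighbours in a step are bottom vertices or removed
later.  SWA (third part) splits the sweep at `s`; by cases on the `Sw` with `s :: σ''` the elements of
`s.y0 :: (s.mid ++ [s.yr])` are on the path after the step; CX for the rest (`R' = ∅`, `C' = pth a bs z`). -/
def CO_stmt : Prop := ∀ (W : Type) [DecidableEq W] (T R : Finset (Finset W)) (a z : W)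
  (bs C : List W) (σ' σ'' : List (Step W)) (s : Step W),
  Sw T a z bs R C (σ' ++ s :: σ'') ∅ (pth a bs z) →
  ∀ y ∈ s.y0 :: (s.mid ++ [s.yr]), y ∈ pth a bs z ∨ y ∈ σ''.map Step.x

/-- CE (from nothing): the edges of the steps.  `{s.x, s.y0}, {s.x, s.yr} ∈ pe C ⊆ edges T`; for `y ∈ mid`
there is an edge of `pe (y0 :: (mid ++ [yr]))` at `y`, and `hfan`. -/
def CE_stmt : Prop := ∀ (W : Type) [DecidableEq W] (T R R' : Finset (Finset W)) (a z : W)
  (bs C C' : List W) (σ : List (Step W)), Sw T a z bs R C σ R' C' →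
  ∀ s ∈ σ, (s.y0 :: (s.mid ++ [s.yr])).Nodup ∧ ∀ y ∈ s.y0 :: (s.mid ++ [s.yr]), {s.x, y} ∈ edges T

/-- CR (from nothing): the height function.  Induction, for all `ρ0`.  `nil`: `ρ = ρ0`.  Step: `ρ0'` is
`ρ0` changed on `mid` to increasing values between `ρ0 x` and `ρ0 yr` (e.g. the `i`-th element of `mid`,
`0 ≤ i < k`, gets `ρ0 x + (ρ0 yr - ρ0 x) * (i + 1) / (k + 1)`); it is increasing on the new path `C1`
(`mid` is disjoint from `C`, nodup).  Induction gives `ρ`, equal to `ρ0'` on `C1` and off `vs R1`, so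
`ρ x = ρ0' x = ρ0 x` (`x ∉ vs R1`, `x ∉ mid`).  If `v ∈ C` or `v ∉ vs R`: `v = x` or `v ∈ C1 \ mid` or
`v ∉ vs R1`, `v ∉ mid` (`mid ⊆ vs R`). -/
def CR_stmt : Prop := ∀ (W : Type) [DecidableEq W] (T R R' : Finset (Finset W)) (a z : W)
  (bs C C' : List W) (σ : List (Step W)), Sw T a z bs R C σ R' C' →
  ∀ ρ0 : W → ℚ, C.Pairwise (fun u v => ρ0 u < ρ0 v) →
  ∃ ρ : W → ℚ, (∀ v, v ∈ C ∨ v ∉ vs R → ρ v = ρ0 v) ∧ C'.Pairwise (fun u v => ρ u < ρ v) ∧
    ∀ s ∈ σ, ρ s.y0 < ρ s.x ∧ ∀ y ∈ s.mid, ρ s.x < ρ y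

/-- SWEEP (from PT, PH, SWA, ENDS, CX, INR, QOUT).  `bs = b1 :: bs'`, `ts = ts' ++ [t1]`, `P`, `Q` the bottom and
the top path.  Start: `St T a z bs T Q`: `bdR`: `bd T = pe P ∪ pe Q = pe P ∆ pe Q` (disjoint: a common edge
has both ends in `{a, z}`, but `bs ≠ []`, nodup); `pe Q ⊆ bd T ⊆ edges T`.  PT with `A' = [a]`, `tl0 = []`: `σa`,
state `(Ra, Ca)`; PH with `Bf = bs.toFinset`: `σb`, state `(R0, C0)`; `σ0 = σa ++ σb`.  PH with `Bf = {b1}`: `σ1`,
state `(R1, C1)`.  PH with `Bf = ∅`: `σ2`, state `(R2, C2)`, all elements of `C2` are in `P`: ENDS.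
(4): let `s ∈ σ1 ++ σ2`, `x = s.x`; `x ∉ ts` (PH), `x ∉ P`, and `x ∈ C0 ∨ x ∈ vs R0` (CX for `σ1 ++ σ2`).  Suppose
`t ∈ ts'`, `{x, t} ∈ edges T`.  If `x ∉ C0`: INR: `cof T {x} ⊆ R0`, so `t ∈ vs R0`; but `t ∉ C0`, so `t ∉ vs R0`
(QOUT).  So `x ∈ C0`, and by PH `x` has a neighbour in `bs`: this contradicts `H2`.  (5): the same with `(R1, C1)`,
`b1`, `t1`, `H3`. -/
def SWEEP_stmt : Prop := ∀ (W : Type) [DecidableEq W] (T : Finset (Finset W)) (a z : W)
  (b1 : W) (bs' ts' : List W) (t1 : W),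
  Disc T a z (b1 :: bs') (ts' ++ [t1]) →
  (∀ x ∈ pth a (b1 :: bs') z, ∀ y ∈ pth a (b1 :: bs') z, {x, y} ∈ edges T →
    {x, y} ∈ pe (pth a (b1 :: bs') z)) →
  (∀ x ∈ pth a (ts' ++ [t1]) z, ∀ y ∈ pth a (ts' ++ [t1]) z, {x, y} ∈ edges T →
    {x, y} ∈ pe (pth a (ts' ++ [t1]) z)) →
  (∀ b ∈ b1 :: bs', ∀ t ∈ ts' ++ [t1], {t, b} ∉ edges T) →
  (∀ x ∈ vs T, x ∉ pth a (b1 :: bs') z → x ∉ ts' ++ [t1] →
    ∀ b ∈ b1 :: bs', ∀ t ∈ ts', ¬ ({x, b} ∈ edges T ∧ {x, t} ∈ edges T)) →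
  (∀ x ∈ vs T, x ∉ pth a (b1 :: bs') z → x ∉ ts' ++ [t1] →
    ¬ ({x, b1} ∈ edges T ∧ {x, t1} ∈ edges T)) →
  ∃ σ0 σ1 σ2 : List (Step W),
    Sw T a z (b1 :: bs') T (pth a (ts' ++ [t1]) z) (σ0 ++ σ1 ++ σ2) ∅ (pth a (b1 :: bs') z) ∧
    (∀ s ∈ σ0, ∀ b ∈ b1 :: bs', {s.x, b} ∉ edges T) ∧
    (∀ s ∈ σ1, {s.x, b1} ∉ edges T) ∧
    (∀ s ∈ σ1 ++ σ2, s.x ∉ ts' ++ [t1] ∧ ∀ t ∈ ts', {s.x, t} ∉ edges T) ∧
    (∀ s ∈ σ2, {s.x, t1} ∉ edges T) ∧
    (∀ s ∈ σ0 ++ σ1 ++ σ2, s.y0 ∉ ts' ++ [t1]) ∧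
    (∀ s ∈ σ0, s.x ∈ ts' ++ [t1] → ∃ A B, pth a (ts' ++ [t1]) z = A ++ s.x :: s.yr :: B)

/-- the result of the sweep of a disc `T` with the bottom path `pth a (b1 :: bs') z` and the top path
`pth a (ts' ++ [t1]) z`: `L x`, `R x` are the neighbours of `x` when it is removed, `U y` is the vertex
which is replaced when `y` is inserted, `ρ` is the height from left to right, `tm` the time from the bottom to
the top -/
structure Swf {W : Type} [DecidableEq W] (T : Finset (Finset W)) (a z b1 : W) (bs' ts' : List W)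
    (t1 : W) (L R U : W → W) (ρ : W → ℚ) (tm : W → ℕ) (c1 c0 : ℕ) : Prop where
  l : ∀ x ∈ vs T, x ∉ pth a (b1 :: bs') z → {x, L x} ∈ edges T ∧ ρ (L x) < ρ x ∧
    L x ∉ ts' ++ [t1] ∧ (L x ∈ pth a (b1 :: bs') z ∨ tm (L x) < tm x)
  r : ∀ x ∈ vs T, x ∉ pth a (b1 :: bs') z → {x, R x} ∈ edges T ∧ R x ≠ L x ∧
    (R x ∈ pth a (b1 :: bs') z ∨ tm (R x) < tm x)
  rt : ∀ x ∈ ts' ++ [t1], ∃ A B, pth a (ts' ++ [t1]) z = A ++ x :: R x :: B
  u : ∀ y ∈ vs T, y ∉ pth a (ts' ++ [t1]) z → {U y, y} ∈ edges T ∧ U y ∉ pth a (b1 :: bs') z ∧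
    ρ (U y) < ρ y ∧ (y ∈ pth a (b1 :: bs') z ∨ tm y < tm (U y)) ∧ y ≠ L (U y) ∧ y ≠ R (U y)
  inj : ∀ x ∈ vs T, ∀ y ∈ vs T, x ∉ pth a (b1 :: bs') z → y ∉ pth a (b1 :: bs') z →
    tm x = tm y → x = y
  c : c1 ≤ c0
  p2 : ∀ x ∈ vs T, x ∉ pth a (b1 :: bs') z → tm x < c1 → {x, t1} ∉ edges T
  p1 : ∀ x ∈ vs T, x ∉ pth a (b1 :: bs') z → c1 ≤ tm x → {x, b1} ∉ edges T
  p1' : ∀ x ∈ vs T, x ∉ pth a (b1 :: bs') z → tm x < c0 → ∀ t ∈ ts', {x, t} ∉ edges T
  p0 : ∀ x ∈ vs T, x ∉ pth a (b1 :: bs') z → c0 ≤ tm x → ∀ b ∈ b1 :: bs', {x, b} ∉ edges T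
  inc : (pth a (b1 :: bs') z).Pairwise fun u v => ρ u < ρ v

/-- SWF (from SWEEP, CX, CM, CO, CE, CR).  `σ = σ0 ++ σ1 ++ σ2`.  By CX the `x ∈ vs T`, `x ∉ P`, are the `s.x`
(once each): `L x = s.y0`, `R x = s.yr`, `tm x` = the number of steps after `s`; `c1 = |σ2|`,
`c0 = |σ1| + |σ2|`.  By CM the `y ∈ vs T`, `y ∉ Q`, are in exactly one `s.mid`: `U y = s.x`.  CO: the
neighbours are in `P` or later (so have smaller `tm`).  CE: `y ≠ L (U y)`, `y ≠ R (U y)`, `R x ≠ L x` by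
nodup.  CR with a `ρ0` increasing on `Q`, e.g. `ρ0 v` = the index of `v` in `Q`.
A convenient way: the functions `L`, `R`, `tm` may be defined by `if h : ∃ σ' s σ'', σ = σ' ++ s :: σ'' ∧ s.x = x
then .. choose ..`; the decomposition is unique as `σ.map x` is nodup. -/
def SWF_stmt : Prop := ∀ (W : Type) [DecidableEq W] (T : Finset (Finset W)) (a z : W)
  (b1 : W) (bs' ts' : List W) (t1 : W),
  Disc T a z (b1 :: bs') (ts' ++ [t1]) →
  (∀ x ∈ pth a (b1 :: bs') z, ∀ y ∈ pth a (b1 :: bs') z, {x, y} ∈ edges T →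
    {x, y} ∈ pe (pth a (b1 :: bs') z)) →
  (∀ x ∈ pth a (ts' ++ [t1]) z, ∀ y ∈ pth a (ts' ++ [t1]) z, {x, y} ∈ edges T →
    {x, y} ∈ pe (pth a (ts' ++ [t1]) z)) →
  (∀ b ∈ b1 :: bs', ∀ t ∈ ts' ++ [t1], {t, b} ∉ edges T) →
  (∀ x ∈ vs T, x ∉ pth a (b1 :: bs') z → x ∉ ts' ++ [t1] →
    ∀ b ∈ b1 :: bs', ∀ t ∈ ts', ¬ ({x, b} ∈ edges T ∧ {x, t} ∈ edges T)) →
  (∀ x ∈ vs T, x ∉ pth a (b1 :: bs') z → x ∉ ts' ++ [t1] →
    ¬ ({x, b1} ∈ edges T ∧ {x, t1} ∈ edges T)) →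
  ∃ (L R U : W → W) (ρ : W → ℚ) (tm : W → ℕ) (c1 c0 : ℕ), Swf T a z b1 bs' ts' t1 L R U ρ tm c1 c0

/-! ## Group S: surfaces -/

/-- SC (from nothing): stars of a surface are connected.  Let `S ≠ ∅` be all-or-none at `v`, `t0 ∈ S`,
`t0 = {v, a, b}`.  By induction along `link` for every `c` with `{v, c} ∈ edges F` all triangles of `F` at
`{v, c}` are in `S`: for `c = a`: `cof S {v, a} ≠ ∅`, so `= cof F {v, a}`; if true for `x` and `{v, x, y} ∈ F`
then this triangle is in `S`, so `cof S {v, y} ≠ ∅`.  (Distinctness of `v, x, y` from `card3`.) -/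
def SC_stmt : Prop := ∀ (W : Type) [DecidableEq W] (F : Finset (Finset W)), IsSurface F → StarConn F

/-- DC (from SC): a part without boundary is everything.  For a vertex `v` of `G`, `cof G {v}` is
all-or-none (`|cof G e|` even, `≤ 2`), so `cof G {v} = cof F {v}` (SC).  The set `vs G` is closed under
adjacency in `gr (edges F)`, so it is everything (connected), and `G = F`. -/
def DC_stmt : Prop := ∀ (W : Type) [DecidableEq W] (F : Finset (Finset W)), IsSurface F →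
  (gr (edges F)).Connected → ∀ G ⊆ F, bd G = ∅ → G = ∅ ∨ G = F

/-- DT (from DC): a spanning tree `Y` of the dual graph and the complementary graph.
Prove for every `k`, `1 ≤ k ≤ |F|`: there are `G ⊆ F`, `|G| = k`, `Y ⊆ edges F`, `|Y| + 1 = k`, `cof F e ⊆ G` for
all `e ∈ Y`, `(gr (edges F \ Y)).Connected`, `∀ S, ∃ B ⊆ G, Disjoint (S ∆ bd B) Y`, and
`∀ B ⊆ G, Disjoint (bd B) Y → B = ∅ ∨ B = G`.  `k = 1`: `G = {t}`, `Y = ∅`.  Step: `G ≠ F`, so by DC there is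
`e ∈ bd G`; `cof F e = {τ0, τ}`, `τ0 ∈ G`, `τ ∉ G`; `G' = insert τ G`, `Y' = insert e Y` (`e ∉ Y`).
Connected: `e = {x, y}`, `τ = {x, y, w}`, and `{x, w}, {w, y}` are in `edges F \ Y'` (they are edges of `τ ∉ G`, so
not in `Y`): walks through `e` can be rerouted.  `∀ S`: take `B` for `Y`; if `e ∈ S ∆ bd B` replace `B` by
`B ∆ G` (`bd G` contains `e` and no element of `Y`, as `|cof G e'| = |cof F e'| = 2` for `e' ∈ Y`).  Last:
`B ⊆ G'`, `bd B` disjoint from `Y'`; `B0 = B.erase τ ⊆ G` has the same parity on `Y` (`τ` has no edge in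
`Y`), so `B0 = ∅` or `B0 = G`; as `e ∉ bd B`, both or none of `τ0, τ` are in `B`: `B = ∅` or `B = G'`. -/
def DT_stmt : Prop := ∀ (W : Type) [DecidableEq W] (F : Finset (Finset W)), IsSurface F →
  (gr (edges F)).Connected → F.Nonempty →
  ∃ Y ⊆ edges F, Y.card + 1 = F.card ∧ (gr (edges F \ Y)).Connected ∧
    (∀ S : Finset (Finset W), ∃ B ⊆ F, Disjoint (symmDiff S (bd B)) Y) ∧
    ∀ B ⊆ F, Disjoint (bd B) Y → B = ∅ ∨ B = F

/-- TR1 (from nothing): a tree contains no nonempty even set of edges.  Suppose `S ≠ ∅` even,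
`{x, y} ∈ S`.  Then `(gr (X.erase {x, y}))` is still connected: in `S.erase {x, y}` exactly `x` and `y` have
odd degree, so they are in the same component (handshake lemma
`SimpleGraph.exists_ne_odd_degree_of_exists_odd_degree` in the component of `x`).  But a connected graph
has at least `|W| - 1` edges (`SimpleGraph.Connected.card_vert_le_card_edgeSet_add_one`).
Or: `gr X` is a tree (`SimpleGraph.isTree_iff_connected_and_card`), acyclic; a nonempty even set contains a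
cycle. -/
def TR1_stmt : Prop := ∀ (W : Type) [Fintype W] [DecidableEq W] (X : Finset (Finset W)),
  (∀ e ∈ X, e.card = 2) → (gr X).Connected → X.card + 1 = Fintype.card W →
  ∀ S ⊆ X, EvenSet S → S = ∅

/-- TR2 (from nothing): a graph with at least as many edges as vertices contains a nonempty even set.
Fix `v0`.  The map `S ↦ {v ≠ v0 | dg S v odd}` from the `2 ^ |X|` subsets of `X` to the subsets of
`univ.erase v0` is not injective (pigeonhole); for `S ≠ S'` with the same image `S ∆ S'` is nonempty, and even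
at all `v ≠ v0` (`odd_dg_symmDiff`), so also at `v0`, as `∑ v, dg S v = 2 |S|`. -/
def TR2_stmt : Prop := ∀ (W : Type) [Fintype W] [Nonempty W] [DecidableEq W]
  (X : Finset (Finset W)), (∀ e ∈ X, e.card = 2) → Fintype.card W ≤ X.card →
  ∃ S ⊆ X, S.Nonempty ∧ EvenSet S

/-- a cocycle: the sum over the edges of every triangle is 0 -/
def Coc {V : Type} [DecidableEq V] (F : Finset (Finset V)) (w : Finset V → ZMod 2) : Prop :=
  ∀ t ∈ F, ∑ e ∈ t.powersetCard 2, w e = 0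

/-- CB (from nothing): a cocycle vanishes on boundaries.  Induction on `B` with `bd_symmDiff`:
`∑ e ∈ S ∆ S', w e = ∑ S + ∑ S'` in `ZMod 2`; or exchange the sums:
`∑_(t ∈ B) ∑_(e ⊆ t) w e = ∑_(e ∈ edges B) |cof B e| w e`. -/
def CB_stmt : Prop := ∀ (V : Type) [DecidableEq V] (F : Finset (Finset V)) (w : Finset V → ZMod 2),
  (∀ t ∈ F, t.card = 3) → Coc F w → ∀ B ⊆ F, ∑ e ∈ bd B, w e = 0

/-- WX (from DT, TR2): a cocycle which is not a coboundary.  `Y` from DT, `X = edges F \ Y`,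
`|X| = |V|`; TR2: `S0 ⊆ X` nonempty and even.  Fix `e0 ∈ S0`.  For `e` let `B e ⊆ F` be a set with `{e} ∆ bd (B e)`
disjoint from `Y`, and `w e = 1` if `e0 ∈ {e} ∆ bd (B e)`, else `0`.  CLAIM: for every `S` and `B ⊆ F` with
`S ∆ bd B` disjoint from `Y`: `∑ e ∈ S, w e = [e0 ∈ S ∆ bd B]`: `B'` := the symmetric difference of the `B e`,
`e ∈ S`, satisfies this (induction on `S`), and `bd (B ∆ B')` is disjoint from `Y`, so `B ∆ B'` is `∅` or `F`,
and `bd B = bd B'` (`bd F = ∅`).  Triangles: `S = t.powersetCard 2 = bd {t}`, `B = {t}`.  `S0`: `B = ∅`. -/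
def WX_stmt : Prop := ∀ (V : Type) [Fintype V] [DecidableEq V] (F : Finset (Finset V)),
  IsSurface F → (gr (edges F)).Connected → F.Nonempty →
  Fintype.card V + F.card = (edges F).card + 1 →
  ∃ w : Finset V → ZMod 2, Coc F w ∧ ∃ S ⊆ edges F, EvenSet S ∧ ∑ e ∈ S, w e = 1

/-- the double cover of `F` given by `w` -/
def lift {V : Type} [Fintype V] [DecidableEq V] (F : Finset (Finset V)) (w : Finset V → ZMod 2) :
    Finset (Finset (V × ZMod 2)) :=
  univ.filter fun t => t.card = 3 ∧ t.image Prod.fst ∈ F ∧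
    ∀ x ∈ t, ∀ y ∈ t, x ≠ y → x.2 + y.2 = w {x.1, y.1}

/-- the sheet exchange -/
def sg {V : Type} (x : V × ZMod 2) : V × ZMod 2 := (x.1, x.2 + 1)

/-- LED (from nothing): edges and triangles of the double cover.  (1): a triangle of `lift F w` has
three different first coordinates as its image has 3 elements; conversely if `{x.1, y.1} ⊆ {x.1, y.1, c} ∈ F`
then `{x, y, (c, x.2 + w {x.1, c})}` is a triangle of `lift F w` by the cocycle condition. -/
def LED_stmt : Prop := ∀ (V : Type) [Fintype V] [DecidableEq V] (F : Finset (Finset V))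
  (w : Finset V → ZMod 2), IsSurface F → Coc F w →
  (∀ x y : V × ZMod 2, {x, y} ∈ edges (lift F w) ↔
    x.1 ≠ y.1 ∧ {x.1, y.1} ∈ edges F ∧ x.2 + y.2 = w {x.1, y.1}) ∧
  (∀ x y z : V × ZMod 2, {x, y, z} ∈ lift F w ↔
    x.1 ≠ y.1 ∧ x.1 ≠ z.1 ∧ y.1 ≠ z.1 ∧ {x.1, y.1, z.1} ∈ F ∧ x.2 + y.2 = w {x.1, y.1} ∧
      x.2 + z.2 = w {x.1, z.1}) ∧
  (∀ t ∈ lift F w, t.image sg ∈ lift F w) ∧
  (∀ e ∈ edges (lift F w), e.image sg ∈ edges (lift F w) ∧ e.image Prod.fst ∈ edges F) ∧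
  (∀ t ∈ lift F w, ∀ t' ∈ lift F w, t.image Prod.fst = t'.image Prod.fst → t' = t ∨ t' = t.image sg)

/-- LS (from LED): the double cover is a surface.  Every triangle of `F` at `{x.1, y.1}` has exactly one
lift containing `x, y`.  Link at `v`: the neighbours `c` of `v.1` correspond to the neighbours
`(c, v.2 + w {v.1, c})` of `v`, and `{v.1, c, d} ∈ F` iff their lifts form a triangle with `v` (cocycle). -/
def LS_stmt : Prop := ∀ (V : Type) [Fintype V] [DecidableEq V] (F : Finset (Finset V))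
  (w : Finset V → ZMod 2), IsSurface F → Coc F w → IsSurface (lift F w)

/-- LCN (from LED): the double cover is connected.  Lifting paths, every vertex is connected with
`(v, 0)` or `(v, 1)` (`v` fixed).  Suppose these two are not connected.  `f u` := the `g` for which `(u, g)`
is connected with `(v, 0)` (unique: `sg` is an automorphism of the graph, and if `(u, 0), (u, 1)` are both
connected with `(v, 0)` then `(u, 0) ~ (v, 0)` and, by `sg`, `(u, 1) ~ (v, 1)`).  Then `w {x, y} = f x + f y` for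
every edge, and `∑ e ∈ S, w e = ∑ v, dg S v * f v = 0` for even `S`. -/
def LCN_stmt : Prop := ∀ (V : Type) [Fintype V] [DecidableEq V] (F : Finset (Finset V))
  (w : Finset V → ZMod 2), IsSurface F → Coc F w → (gr (edges F)).Connected →
  (∃ S ⊆ edges F, EvenSet S ∧ ∑ e ∈ S, w e = 1) → (gr (edges (lift F w))).Connected

/-- LCD (from LED): the double cover has twice as many triangles and edges (`image Prod.fst` is
two-to-one: an edge `{x, y}` of `F` has the lifts `{(x, g), (y, g + w {x, y})}`, `g = 0, 1`). -/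
def LCD_stmt : Prop := ∀ (V : Type) [Fintype V] [DecidableEq V] (F : Finset (Finset V))
  (w : Finset V → ZMod 2), IsSurface F → Coc F w →
  (lift F w).card = 2 * F.card ∧ (edges (lift F w)).card = 2 * (edges F).card

/-- LJ (from DT, TR1): on a sphere every even set of edges is a boundary.  `Y` from DT,
`X = edges G \ Y`, `|X| + 1 = |W|`.  For an even `S ⊆ edges G`: `B` with `S ∆ bd B` disjoint from `Y`, so it is an
even subset of `X` (`bd B ⊆ edges G`), so empty (TR1): `S = bd B`. -/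
def LJ_stmt : Prop := ∀ (W : Type) [Fintype W] [DecidableEq W] (G : Finset (Finset W)),
  IsSurface G → (gr (edges G)).Connected → G.Nonempty →
  Fintype.card W + G.card = (edges G).card + 2 →
  ∀ S ⊆ edges G, EvenSet S → ∃ B ⊆ G, bd B = S

/-- the edges of the cycle `p 0, p 1, ..., p (2 m) = p 0` -/
def zt {W : Type} [DecidableEq W] (m : ℕ) (p : ℕ → W) : Finset (Finset W) :=
  (range (2 * m)).image fun i => {p i, p (i + 1)}

/-- NIV (from LED, CB): no `sg`-invariant set of triangles is bounded by a cycle `p` with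
`p (i + m) = sg (p i)`.  `A0 = A.image (image Prod.fst) ⊆ F`.  For `e ∈ edges (lift F w)`:
`|cof A e| = |cof A0 (e.image fst)|` (a triangle of `F` at `e.image fst` has exactly one lift at `e`; it is in
`A` iff its image is in `A0`, since `A` is invariant, LED last part).  So `bd A0` is the set of the
`{(p i).1, (p (i + 1)).1}`, `i < m`, which are different for different `i < m` (`e_i.image fst = e_j.image fst`
implies `e_i = e_j` or `e_i = e_j.image sg = e_(j + m)`, and the edges `e_i`, `i < 2 m`, are different as `p` is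
injective on them and `2 m ≥ 3`), so `∑ e ∈ bd A0, w e = ∑_(i < m) ((p i).2 + (p (i + 1)).2) = (p 0).2 + (p m).2 = 1`
in `ZMod 2`, against CB. -/
def NIV_stmt : Prop := ∀ (V : Type) [Fintype V] [DecidableEq V] (F : Finset (Finset V))
  (w : Finset V → ZMod 2), IsSurface F → Coc F w → ∀ A ⊆ lift F w,
  (∀ t ∈ A, t.image sg ∈ A) → ∀ (m : ℕ) (p : ℕ → V × ZMod 2), 3 ≤ m → (∀ i, p (i + m) = sg (p i)) →
  (∀ i < 2 * m, ∀ j < 2 * m, p i = p j → i = j) → (∀ i, {p i, p (i + 1)} ∈ edges (lift F w)) →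
  bd A ≠ zt m p

/-- a triangulated sphere `G` with a fixed point free symmetry `σ` of order two -/
structure Dbl {W : Type} [DecidableEq W] (G : Finset (Finset W)) (σ : W → W) : Prop where
  surf : IsSurface G
  conn : (gr (edges G)).Connected
  ne : G.Nonempty
  J : ∀ S ⊆ edges G, EvenSet S → ∃ B ⊆ G, bd B = S
  invol : ∀ x, σ (σ x) = x
  inv : ∀ t ∈ G, t.image σ ∈ G
  fix : ∀ x, σ x ≠ x
  far1 : ∀ x, {x, σ x} ∉ edges G
  far2 : ∀ x y, {x, y} ∈ edges G → {σ x, y} ∉ edges G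
  niv : ∀ A ⊆ G, (∀ t ∈ A, t.image σ ∈ A) → ∀ (m : ℕ) (p : ℕ → W), 3 ≤ m →
    (∀ i, p (i + m) = σ (p i)) → (∀ i < 2 * m, ∀ j < 2 * m, p i = p j → i = j) →
    (∀ i, {p i, p (i + 1)} ∈ edges G) → bd A ≠ zt m p

/-- DB (from LED, LS, LCN, LCD, LJ, NIV, WX): the double cover of a projective plane. -/
def DB_stmt : Prop := ∀ (V : Type) [Fintype V] [DecidableEq V] (F : Finset (Finset V)),
  IsSurface F → (gr (edges F)).Connected → F.Nonempty →
  Fintype.card V + F.card = (edges F).card + 1 →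
  ∃ w : Finset V → ZMod 2, Coc F w ∧ Dbl (lift F w) (sg : V × ZMod 2 → V × ZMod 2)

/-! ## Group G: the symmetric geodesic and the half of the sphere -/

/-- a symmetric closed path of length `2 m`, where `m ≥ 3` is the smallest distance of a vertex `x` and
`σ x` -/
structure Geo {W : Type} [DecidableEq W] (G : Finset (Finset W)) (σ : W → W) (m : ℕ) (p : ℕ → W) :
    Prop where
  m3 : 3 ≤ m
  per : ∀ i, p (i + m) = σ (p i)
  edge : ∀ i, {p i, p (i + 1)} ∈ edges G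
  min : ∀ (q : ℕ → W) (l : ℕ), (∀ i < l, {q i, q (i + 1)} ∈ edges G) → q l = σ (q 0) → m ≤ l

/-- GEO (from nothing): existence.  Take the smallest `l` for which there is a path `q` as in `min`
(`Nat.find`; exists by `conn`), `m = l`, `p i = σ^[i / m] (q (i % m))`.  `{p i, p (i + 1)}`: if
`i % m = m - 1` then `p (i + 1) = σ^[i / m] (q m)`; `σ` maps edges to edges (`inv`).  `m ≥ 3`: `m = 0`: `fix`;
`m = 1`: `far1`; `m = 2`: `{x, y}, {y, σ x} ∈ edges G`: `far2`. -/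
def GEO_stmt : Prop := ∀ (W : Type) [DecidableEq W] (G : Finset (Finset W)) (σ : W → W),
  Dbl G σ → ∃ m p, Geo G σ m p

/-- ISO (from nothing): the closed path is isometric.  First part: `q` from `p i` to `p j` of length
`l`, then `p j, p (j + 1), ..., p (i + m) = σ (p i)`: by `min` `m ≤ l + (i + m - j)`.  Second: `invol`.  Third
(injective): `i < j`, `p i = p j`: if `j ≤ i + m` use `l = 0`; else `p j = p i = p (i + 2 m)`, and the first part for
`j ≤ i + 2 m ≤ j + m`, `l = 0`.  Fourth: `l = 1`; fifth: `l = 2`. -/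
def ISO_stmt : Prop := ∀ (W : Type) [DecidableEq W] (G : Finset (Finset W)) (σ : W → W)
  (m : ℕ) (p : ℕ → W), Dbl G σ → Geo G σ m p →
  (∀ (i j l : ℕ) (q : ℕ → W), i ≤ j → j ≤ i + m → q 0 = p i → q l = p j →
    (∀ k < l, {q k, q (k + 1)} ∈ edges G) → j ≤ i + l) ∧
  (∀ i, p (i + 2 * m) = p i) ∧
  (∀ i < 2 * m, ∀ j < 2 * m, p i = p j → i = j) ∧
  (∀ i j, i ≤ j → j ≤ i + m → {p i, p j} ∈ edges G → j = i + 1) ∧
  (∀ i j x, i ≤ j → j ≤ i + m → {p i, x} ∈ edges G → {p j, x} ∈ edges G → j ≤ i + 2) ∧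
  (∀ i, ∃ j < 2 * m, p i = p j)

/-- ZT (from nothing): the edges of the cycle.  Even subsets: if `S ≠ zt`, `S ∌ {p i, p (i + 1)}` for some
`i`, then `S` is a set of edges of the path `p (i + 1), ..., p (i + 2 m)`: `even_path`. -/
def ZT_stmt : Prop := ∀ (W : Type) [DecidableEq W] (m : ℕ) (p : ℕ → W), 3 ≤ m →
  (∀ i, p (i + 2 * m) = p i) → (∀ i < 2 * m, ∀ j < 2 * m, p i = p j → i = j) →
  EvenSet (zt m p) ∧ (∀ S ⊆ zt m p, EvenSet S → S = ∅ ∨ S = zt m p) ∧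
  (∀ i, {p i, p (i + 1)} ∈ zt m p) ∧ (∀ e ∈ zt m p, ∀ v ∈ e, ∃ i < 2 * m, v = p i) ∧
  (∀ i, ∀ e ∈ zt m p, p i ∈ e → e = {p i, p (i + 1)} ∨ e = {p i, p (i + 2 * m - 1)}) ∧
  (∀ i, ({p i, p (i + 1)} : Finset W) ≠ {p i, p (i + 2 * m - 1)}) ∧
  (∀ i < 2 * m, ∀ j < 2 * m, ({p i, p (i + 1)} : Finset W) = {p j, p (j + 1)} → i = j)

/-- the bottom vertices `p 2, ..., p (m - 1)` -/
def bl {W : Type} (m : ℕ) (p : ℕ → W) : List W := (List.range (m - 2)).map fun i => p (i + 2)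

/-- the top vertices `p (2 m - 1), ..., p (m + 2)` -/
def tl {W : Type} (m : ℕ) (p : ℕ → W) : List W :=
  ((List.range (m - 2)).map fun i => p (m + i + 2)).reverse

/-- ZL (from nothing): the two paths as lists.
`pth (p 0) (p 1 :: bl m p) (p m) = (List.range (m + 1)).map p` and
`pth (p 0) (tl m p ++ [p (m + 1)]) (p m) = ((List.range (m + 1)).map (fun i => p (m + i))).reverse`
(as `p (2 m) = p 0`). -/
def ZL_stmt : Prop := ∀ (W : Type) [DecidableEq W] (m : ℕ) (p : ℕ → W), 3 ≤ m →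
  (∀ i, p (i + 2 * m) = p i) → (∀ i < 2 * m, ∀ j < 2 * m, p i = p j → i = j) →
  (p 0 :: p m :: ((p 1 :: bl m p) ++ (tl m p ++ [p (m + 1)]))).Nodup ∧
  (∀ x, x ∈ pth (p 0) (p 1 :: bl m p) (p m) ↔ ∃ i, i ≤ m ∧ x = p i) ∧
  (∀ x, x ∈ pth (p 0) (tl m p ++ [p (m + 1)]) (p m) ↔ ∃ i, m ≤ i ∧ i ≤ 2 * m ∧ x = p i) ∧
  (∀ x, x ∈ p 1 :: bl m p ↔ ∃ i, 1 ≤ i ∧ i < m ∧ x = p i) ∧
  (∀ x, x ∈ tl m p ↔ ∃ i, 2 ≤ i ∧ i < m ∧ x = p (m + i)) ∧
  (∀ x, x ∈ tl m p ++ [p (m + 1)] ↔ ∃ i, 1 ≤ i ∧ i < m ∧ x = p (m + i)) ∧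
  (∀ e, e ∈ pe (pth (p 0) (p 1 :: bl m p) (p m)) ↔ ∃ i, i < m ∧ e = {p i, p (i + 1)}) ∧
  (∀ e, e ∈ pe (pth (p 0) (tl m p ++ [p (m + 1)]) (p m)) ↔
    ∃ i, m ≤ i ∧ i < 2 * m ∧ e = {p i, p (i + 1)}) ∧
  (∀ i y A B, 1 ≤ i → i < m → pth (p 0) (tl m p ++ [p (m + 1)]) (p m) = A ++ p (m + i) :: y :: B →
    y = p (m + i - 1)) ∧
  (∀ r : W → W → Prop, (pth (p 0) (p 1 :: bl m p) (p m)).Pairwise r → ∀ i < m, r (p i) (p (i + 1)))

/-- one of the two halves of the sphere bounded by the symmetric cycle -/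
structure Half {W : Type} [DecidableEq W] (G : Finset (Finset W)) (σ : W → W) (m : ℕ) (p : ℕ → W)
    (A : Finset (Finset W)) : Prop where
  sub : A ⊆ G
  bdA : bd A = zt m p
  half : ∀ t ∈ G, (t ∈ A ↔ t.image σ ∉ A)

/-- HALF (from ISO, ZT, DC): existence.  `zt m p` is even: `J` gives `A` with `bd A = zt m p`.
`A' := A.image (image σ)` has `bd A' = (bd A).image (image σ) = zt m p` (`p (i + m) = σ (p i)`), so
`bd (A ∆ A') = ∅`, `A ∆ A' = ∅` or `G` (DC).  If `A' = A`: `niv`.  So `A ∆ A' = G`: every `t ∈ G` is in exactly one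
of `A` and `A'`, and `t ∈ A' ↔ t.image σ ∈ A`. -/
def HALF_stmt : Prop := ∀ (W : Type) [DecidableEq W] (G : Finset (Finset W)) (σ : W → W)
  (m : ℕ) (p : ℕ → W), Dbl G σ → Geo G σ m p → ∃ A, Half G σ m p A

/-- ALN (from SC): a part `B` of a surface contains the whole star of a vertex `x` of `B` which is not
on the boundary.  For an edge `e ∋ x`: `|cof B e|` is even, `≤ 2`, so `cof B e = ∅` or `= cof G e`. -/
def ALN_stmt : Prop := ∀ (W : Type) [DecidableEq W] (G B : Finset (Finset W)) (x : W),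
  IsSurface G → B ⊆ G → x ∈ vs B → (∀ e ∈ bd B, x ∉ e) → cof B {x} = cof G {x}

/-- HS (from ISO, ZT, ALN): half and whole.  (1), (2): parity of `|cof A e|` and `bdA`, `|cof G e| = 2`.
(3): ALN.  (4): if `x, σ x ∈ vs A`, `x` not on the cycle: `t ∈ A` with `σ x ∈ t`; `t.image σ ∈ cof G {x} ⊆ A` by (3),
against `half`.  (5): `x` is in some `t ∈ G` (`conn`; `G` has an edge, so `W` has another vertex); `t ∈ A` or
`t.image σ ∈ A`.  (6) `edge` and `bdA`. (7) by (3). -/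
def HS_stmt : Prop := ∀ (W : Type) [DecidableEq W] (G : Finset (Finset W)) (σ : W → W)
  (m : ℕ) (p : ℕ → W) (A : Finset (Finset W)), Dbl G σ → Geo G σ m p → Half G σ m p A →
  (∀ e : Finset W, e.card = 2 → e ∉ zt m p → cof A e = ∅ ∨ cof A e = cof G e) ∧
  (∀ e ∈ zt m p, (cof A e).card = 1 ∧ (cof G e).card = 2) ∧
  (∀ x ∈ vs A, (∀ i, x ≠ p i) → cof A {x} = cof G {x}) ∧
  (∀ x ∈ vs A, (∀ i, x ≠ p i) → σ x ∉ vs A) ∧
  (∀ x, x ∈ vs A ∨ σ x ∈ vs A) ∧
  (∀ i, p i ∈ vs A ∧ {p i, p (i + 1)} ∈ edges A) ∧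
  (∀ x ∈ vs A, (∀ i, x ≠ p i) → ∀ y, {x, y} ∈ edges G → {x, y} ∈ edges A)

/-- DST (from HS, SC, ISO, ZT): the half is star connected.  Let `S ⊆ cof A {v}` be nonempty and
all-or-none with respect to `A`.  If `v` is not on the cycle: `cof A e` is `∅` or `cof G e` for all edges
`e ∋ v`, so `S` is all-or-none with respect to `G`, `S = cof G {v} = cof A {v}`.  Let `v = p i`; `e1`, `e2` the
two edges of `zt m p` at `v` (ZT), `|cof A e1| = |cof A e2| = 1`.  The sum of `|cof S e|` over the edges `e ∋ v` is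
`2 |S|` (every triangle at `v` has two edges at `v`), all terms other than `e1`, `e2` are `0` or `2`: so
`|cof S e1| + |cof S e2|` is even.  If both are `0`: `S` is all-or-none with respect to `G`, `S = cof G {v}`
contains triangles at `e1`: a contradiction.  If both are `1`: `S' = cof A {v} \ S` has `cof S' e1 = ∅`,
`cof S' e2 = ∅`, and is all-or-none with respect to `G`: if `S' ≠ ∅` then `S' = cof G {v}`, a contradiction
in the same way.  So `S' = ∅`. -/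
def DST_stmt : Prop := ∀ (W : Type) [DecidableEq W] (G : Finset (Finset W)) (σ : W → W)
  (m : ℕ) (p : ℕ → W) (A : Finset (Finset W)), Dbl G σ → Geo G σ m p → Half G σ m p A → StarConn A

/-- DSJ (from HS, DC, ISO, ZT): even sets in the half bound in the half.  `J`: `B ⊆ G`, `bd B = S`.
`B1 := B \ A`.  `bd B1 ⊆ zt m p`: if `e ∈ bd B1`, `e ∉ zt m p`: `cof A e = ∅` (then `e ∉ edges A`, `e ∉ S`,
`cof B1 e = cof B e` is even) or `cof A e = cof G e` (then `cof B1 e = ∅`).  `bd B1` is even, so `bd B1 = ∅` or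
`zt m p` (ZT).  `bd B1 = ∅`: `B1 = ∅` or `G` (DC), but `B1 ⊆ G \ A ≠ G`: `B ⊆ A`.  `bd B1 = zt m p`:
`bd (G \ A) = zt m p` too (`bd G = ∅`), so `bd ((G \ A) \ B1) = ∅`, `(G \ A) \ B1 = ∅` (not `G`), `B1 = G \ A`, and
`G \ B ⊆ A` has the boundary `S`.  `J0`: DC, and `A ≠ G` (`half`, `G ≠ ∅`, `invol`). -/
def DSJ_stmt : Prop := ∀ (W : Type) [DecidableEq W] (G : Finset (Finset W)) (σ : W → W)
  (m : ℕ) (p : ℕ → W) (A : Finset (Finset W)), Dbl G σ → Geo G σ m p → Half G σ m p A →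
  (∀ S ⊆ edges A, EvenSet S → ∃ B ⊆ A, bd B = S) ∧ (∀ B ⊆ A, bd B = ∅ → B = ∅)

/-- DSC (from DST, DSJ, ISO, ZL): the half is a disc. -/
def DSC_stmt : Prop := ∀ (W : Type) [DecidableEq W] (G : Finset (Finset W)) (σ : W → W)
  (m : ℕ) (p : ℕ → W) (A : Finset (Finset W)), Dbl G σ → Geo G σ m p → Half G σ m p A →
  Disc A (p 0) (p m) (p 1 :: bl m p) (tl m p ++ [p (m + 1)])

/-- the number of the common neighbours of `p 1` and `p (-1)` inside the half -/
def nu {W : Type} [DecidableEq W] (G : Finset (Finset W)) (m : ℕ) (p : ℕ → W)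
    (A : Finset (Finset W)) : ℕ :=
  ((vs A).filter fun y => (∀ i < 2 * m, y ≠ p i) ∧ {y, p 1} ∈ edges G ∧ {y, p (2 * m - 1)} ∈ edges G).card

/-- C4 (from HS, DSJ, ISO, ZT): the quadrangle at the corner.  `x` inside the half, adjacent to `p 1`
and `p (2 m - 1)`.  The edges of the quadrangle `p 0, p 1, x, p (2 m - 1)` are in `edges A` (HS (6), (7)) and form
an even set (`even_cycle` with `M = [p 1, x]`): DSJ. -/
def C4_stmt : Prop := ∀ (W : Type) [DecidableEq W] (G : Finset (Finset W)) (σ : W → W)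
  (m : ℕ) (p : ℕ → W) (A : Finset (Finset W)) (x : W), Dbl G σ → Geo G σ m p → Half G σ m p A →
  x ∈ vs A → (∀ i, x ≠ p i) → {x, p 1} ∈ edges G → {x, p (2 * m - 1)} ∈ edges G →
  ∃ D ⊆ A, bd D = {{p 0, p 1}, {p 1, x}, {x, p (2 * m - 1)}, {p (2 * m - 1), p 0}}

/-- the path with `p 0` replaced by `x` -/
def rp {W : Type} (σ : W → W) (m : ℕ) (p : ℕ → W) (x : W) (i : ℕ) : W :=
  if i % (2 * m) = 0 then x else if i % (2 * m) = m then σ x else p i

/-- C5 (from ISO, ZT): the new geodesic and the new half.  `D` as in C4, `A' = (A \ D) ∪ σ D`.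
`Geo`: `per`, `edge` by cases on `i % (2 * m)` (`{σ x, p (m - 1)}`, `{σ x, p (m + 1)}` are the images of
`{x, p (2 m - 1)}`, `{x, p 1}`); `min` is the same.
`half`: `t ∈ A' ↔ (t ∈ A ∧ t ∉ D) ∨ σ t ∈ D`.  If `σ t ∈ D`: `t ∉ A`, `t ∈ A'`; `σ t ∉ A'` as `σ t ∈ D` and `t ∉ D`.
If `t ∈ D`: symmetric.  Else `t ∈ A' ↔ t ∈ A` and `σ t ∈ A' ↔ σ t ∈ A`.
`bdA`: `D` and `σ D` are disjoint, `σ D` is disjoint from `A`: `bd A' = bd A ∆ bd D ∆ bd (σ D)`,
`bd (σ D) = (bd D).image (image σ)`; `zt m (rp ..)` is `zt m p` without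
`{p 0, p 1}, {p (2 m - 1), p 0}, {p m, p (m + 1)}, {p (m - 1), p m}` and with
`{p 1, x}, {x, p (2 m - 1)}, {p (m + 1), σ x}, {σ x, p (m - 1)}`. -/
def C5_stmt : Prop := ∀ (W : Type) [DecidableEq W] (G : Finset (Finset W)) (σ : W → W)
  (m : ℕ) (p : ℕ → W) (A : Finset (Finset W)) (x : W) (D : Finset (Finset W)), Dbl G σ →
  Geo G σ m p → Half G σ m p A →
  x ∈ vs A → (∀ i, x ≠ p i) → {x, p 1} ∈ edges G → {x, p (2 * m - 1)} ∈ edges G → D ⊆ A →
  bd D = {{p 0, p 1}, {p 1, x}, {x, p (2 * m - 1)}, {p (2 * m - 1), p 0}} →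
  Geo G σ m (rp σ m p x) ∧ Half G σ m (rp σ m p x) ((A \ D) ∪ D.image (image σ))

/-- C6 (from HS, ALN, ISO, ZT; used for `A' = (A \ D) ∪ σ D`, `p' = rp σ m p x` as in C5): `nu` decreases.
Let `y` be counted in `nu'`; then `y` is not on `p'` (so `y ≠ x`, `y ≠ σ x`), `y ∈ vs A'`, and `y` is adjacent to
`p' 1 = p 1` and `p' (2 m - 1) = p (2 m - 1)`.
`y ≠ p 0`: else by HS (3) for `A'` the star of `p 0` is in `A'`; but `{p 0, p 1} ∈ bd D`, so there is `t ∈ D` with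
`p 0 ∈ t`, and `t ∉ A'` (`t ∉ σ D` since `D`, `σ D` are disjoint by `half`).  `y ≠ p m`: ISO (fourth part), as
`{p 1, p m}` is not an edge (`m ≥ 3`).  So `y` is not on `p`.
`y ∈ vs A`: suppose not.  `t ∈ A'` with `y ∈ t`; `t ∉ A`, so `t = σ t'` with `t' ∈ D`, `σ y ∈ t'`.  `σ y` is not on
the quadrangle `bd D` (`σ y = p 0, p 1, p (2 m - 1), x` means `y = p m, p (m + 1), p (m - 1), σ x`), so by ALN the
star of `σ y` is in `D`; `{σ y, p (m + 1)}` is an edge (the image of `{y, p 1}`), so `p (m + 1) ∈ vs D`; it is not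
on the quadrangle either (`m + 1 < 2 m - 1`), so its star is in `D ⊆ A` (ALN); but `{p (m + 1), p (m + 2)} ∈ zt m p`
has only one triangle in `A` (HS (2)).
So `y` is counted in `nu`, and `y ≠ x`, while `x` is counted in `nu`. -/
def C6_stmt : Prop := ∀ (W : Type) [DecidableEq W] (G : Finset (Finset W)) (σ : W → W)
  (m : ℕ) (p : ℕ → W) (A : Finset (Finset W)) (x : W) (D : Finset (Finset W)), Dbl G σ →
  Geo G σ m p → Half G σ m p A →
  x ∈ vs A → (∀ i, x ≠ p i) → {x, p 1} ∈ edges G → {x, p (2 * m - 1)} ∈ edges G → D ⊆ A →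
  bd D = {{p 0, p 1}, {p 1, x}, {x, p (2 * m - 1)}, {p (2 * m - 1), p 0}} →
  Geo G σ m (rp σ m p x) → Half G σ m (rp σ m p x) ((A \ D) ∪ D.image (image σ)) →
  nu G m (rp σ m p x) ((A \ D) ∪ D.image (image σ)) < nu G m p A

/-- CFR (from GEO, HALF, C4, C5, C6, ISO): a symmetric geodesic without conflict at the corner `p 0`.
Choose `m, p, A` with the smallest `nu` (strong induction). -/
def CFR_stmt : Prop := ∀ (W : Type) [DecidableEq W] (G : Finset (Finset W)) (σ : W → W), Dbl G σ →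
  ∃ (m : ℕ) (p : ℕ → W) (A : Finset (Finset W)), Geo G σ m p ∧ Half G σ m p A ∧
    ∀ x ∈ vs A, (∀ i, x ≠ p i) → ¬ ({x, p 1} ∈ edges G ∧ {x, p (2 * m - 1)} ∈ edges G)

/-- the sweep of the half in terms of `p` -/
structure Swp {W : Type} [DecidableEq W] (m : ℕ) (p : ℕ → W) (A : Finset (Finset W))
    (L R U : W → W) (ρ : W → ℚ) (tm : W → ℕ) (c1 c0 : ℕ) : Prop where
  l : ∀ x ∈ vs A, (∀ i ≤ m, x ≠ p i) → {x, L x} ∈ edges A ∧ ρ (L x) < ρ x ∧
    (∀ i, 1 ≤ i → i < m → L x ≠ p (m + i)) ∧ ((∃ i ≤ m, L x = p i) ∨ tm (L x) < tm x)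
  r : ∀ x ∈ vs A, (∀ i ≤ m, x ≠ p i) → {x, R x} ∈ edges A ∧ R x ≠ L x ∧
    ((∃ i ≤ m, R x = p i) ∨ tm (R x) < tm x)
  rt : ∀ i, 1 ≤ i → i < m → R (p (m + i)) = p (m + i - 1)
  u : ∀ y ∈ vs A, (∀ i, m ≤ i → i ≤ 2 * m → y ≠ p i) → {U y, y} ∈ edges A ∧ (∀ i ≤ m, U y ≠ p i) ∧
    ρ (U y) < ρ y ∧ ((∃ i ≤ m, y = p i) ∨ tm y < tm (U y)) ∧ y ≠ L (U y) ∧ y ≠ R (U y)
  inj : ∀ x ∈ vs A, ∀ y ∈ vs A, (∀ i ≤ m, x ≠ p i) → (∀ i ≤ m, y ≠ p i) → tm x = tm y → x = y
  c : c1 ≤ c0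
  p2 : ∀ x ∈ vs A, (∀ i ≤ m, x ≠ p i) → tm x < c1 → {x, p (m + 1)} ∉ edges A
  p1 : ∀ x ∈ vs A, (∀ i ≤ m, x ≠ p i) → c1 ≤ tm x → {x, p 1} ∉ edges A
  p1' : ∀ x ∈ vs A, (∀ i ≤ m, x ≠ p i) → tm x < c0 → ∀ i, 2 ≤ i → i < m → {x, p (m + i)} ∉ edges A
  p0 : ∀ x ∈ vs A, (∀ i ≤ m, x ≠ p i) → c0 ≤ tm x → ∀ i, 1 ≤ i → i < m → {x, p i} ∉ edges A
  inc : ∀ i < m, ρ (p i) < ρ (p (i + 1))

/-- SWP (from SWF, DSC, ISO, ZL): the sweep of the half.  Hypotheses of SWF: `HP`, `HQ`: an edge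
`{p i, p j}`, `0 ≤ i ≤ j ≤ m` or `m ≤ i ≤ j ≤ 2 m`, has `j = i + 1` (ISO, fourth part).  `HX`: `{p i, p (m + j)}`,
`1 ≤ i, j < m`: if `m + j ≤ i + m`, ISO gives `m + j = i + 1`: impossible; else apply ISO to `m + j` and
`i + 2 m ≤ (m + j) + m` (`p (i + 2 m) = p i`): `i + 2 m = m + j + 1`: impossible.  `H2`: `x` adjacent to `p i` and
`p (m + j)`, `1 ≤ i < m`, `2 ≤ j < m`: ISO (fifth part): if `m + j ≤ i + m`: `m + j ≤ i + 2`: impossible; else
`i + 2 m ≤ m + j + 2`: so `i = 1`, `j = m - 1`: this is excluded by the last hypothesis.  `H3`: `i = 1`, `j = 1`: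
`m + 1 ≤ 1 + 2`: impossible.  Translate `Swf` by ZL. -/
def SWP_stmt : Prop := ∀ (W : Type) [DecidableEq W] (G : Finset (Finset W)) (σ : W → W)
  (m : ℕ) (p : ℕ → W) (A : Finset (Finset W)), Dbl G σ → Geo G σ m p → Half G σ m p A →
  (∀ x ∈ vs A, (∀ i, x ≠ p i) → ¬ ({x, p 1} ∈ edges G ∧ {x, p (2 * m - 1)} ∈ edges G)) →
  ∃ (L R U : W → W) (ρ : W → ℚ) (tm : W → ℕ) (c1 c0 : ℕ), Swp m p A L R U ρ tm c1 c0

/-! ## Group A: the three pointers -/

/-- the pointers `T1, T2, T3` of the vertices other than `s`, the order `φ` and three potentials -/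
structure TQ {V : Type} [DecidableEq V] (s : V) (Z : Finset V) (T1 T2 T3 : V → V) (φ β θ : V → ℚ)
    (δ : V → ℕ) : Prop where
  sZ : s ∉ Z
  eq : ∀ v, v ≠ s → v ∉ Z → β v = θ v
  inj : ∀ u v, u ≠ s → v ≠ s → φ u = φ v → u = v
  t1 : ∀ v, v ≠ s → T1 v ≠ s → δ (T1 v) < δ v
  t1Z : ∀ v ∈ Z, T1 v ≠ s → T1 v ∈ Z ∧ φ (T1 v) < φ v ∧ β (T1 v) < β v
  t2 : ∀ v, v ≠ s → T2 v ≠ s → β (T2 v) < β v ∧ (T2 v ∉ Z → φ (T2 v) < φ v) ∧
    (T2 v ∈ Z → φ v < φ (T2 v))
  t3 : ∀ v, v ≠ s → T3 v ≠ s → θ (T3 v) < θ v ∧ (T3 v ∉ Z → φ v < φ (T3 v)) ∧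
    (T3 v ∈ Z → φ (T3 v) < φ v)

/-- TQR (from nothing): in every window all vertices are led to `s`.  `n = |V|`, `#β v` = the number of
the `u` with `β u < β v` (`≤ n - 1`), etc.; `r s = 0`.
`k = 0` (`T2` if `φ v ≤ c`, else `T1`): `r v = 1 + #β v` if `φ v ≤ c` or `v ∈ Z`, else `n + 1 + δ v`.
`k = 1` (`T3` if `φ v ≤ c`, else `T2`): `r v = 1 + #ψ v`, `ψ v = θ v` if `φ v ≤ c`, else `β v`.  If `φ v ≤ c`,
`w = T3 v ≠ s`: if `φ w > c` then `w ∉ Z` (else `φ w < φ v`), so `ψ w = β w = θ w < θ v`.  If `φ v > c`, `w = T2 v ≠ s`: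
if `φ w ≤ c` then `w ∉ Z` (else `φ v < φ w`), `ψ w = θ w = β w < β v`.
`k = 2` (`T1` if `φ v ≤ c`, else `T3`): `r v = 1 + #φ v` if `v ∈ Z`, `φ v ≤ c`; `n + 1 + #θ v` if `φ v > c`;
`2 n + 2 + δ v` if `v ∉ Z`, `φ v ≤ c`.  (If `φ v > c`, `w = T3 v ≠ s`, `φ w ≤ c` then `w ∈ Z`.) -/
def TQR_stmt : Prop := ∀ (V : Type) [Fintype V] [DecidableEq V] (s : V) (Z : Finset V)
  (T1 T2 T3 : V → V) (φ β θ : V → ℚ) (δ : V → ℕ), TQ s Z T1 T2 T3 φ β θ δ →
  ∀ (k : Fin 3) (c : ℚ), ∃ r : V → ℕ, ∀ v, v ≠ s →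
    r (if φ v ≤ c then (![T1, T2, T3] : Fin 3 → V → V) (k + 1) v
      else (![T1, T2, T3] : Fin 3 → V → V) k v) < r v

/-- ORD (from nothing; `Pool.Agent.KU.TRE` in `Pool.Agent.helper62.KU.TRE` gives the trees): the cyclic
ordering.  Sort the vertices `≠ s` by `φ`: `v_0, ..., v_(n-2)`; the edge number `k (n - 1) + i` is
`s(v_i, T k v_i)`.  The window starting at `k (n - 1) + i`, `i < n - 1`, consists of the `s(v_j, T (k + 1) v_j)`,
`j < i`, and the `s(v_j, T k v_j)`, `j ≥ i`: this is the hypothesis with `c = φ (v_(i-1))` (or `c` smaller than all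
values if `i = 0`). -/
def ORD_stmt : Prop := ∀ (V : Type) [Fintype V] [DecidableEq V] (s : V) (T : Fin 3 → V → V)
  (φ : V → ℚ), (∀ u v, u ≠ s → v ≠ s → φ u = φ v → u = v) →
  (∀ (k k' : Fin 3) (v v' : V), v ≠ s → v' ≠ s → s(v, T k v) = s(v', T k' v') → k = k' ∧ v = v') →
  (∀ (k : Fin 3) (c : ℚ), ∃ r : V → ℕ, ∀ v, v ≠ s → r (if φ v ≤ c then T (k + 1) v else T k v) < r v) →
  ∃ e : Fin (3 * (Fintype.card V - 1)) → Sym2 V, Function.Injective e ∧
    (∀ z, (∃ j, e j = z) ↔ ∃ (k : Fin 3) (v : V), v ≠ s ∧ z = s(v, T k v)) ∧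
    ∀ j, (SimpleGraph.fromEdgeSet {z | ∃ i < Fintype.card V - 1, z = cyc e j i}).IsTree

/-- the vertices of the projective plane and their representatives in the half: `Z` = the vertices of
the cycle other than `(p 0).1`, with the index `ix`, the bottom copy `bt` and the top copy `tp` -/
structure Prj {V : Type} [DecidableEq V] (m : ℕ) (p : ℕ → V × ZMod 2)
    (A : Finset (Finset (V × ZMod 2))) (Z : Finset V) (ix : V → ℕ) (tp bt : V → V × ZMod 2) : Prop where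
  z : ∀ v ∈ Z, 1 ≤ ix v ∧ ix v < m ∧ bt v = p (ix v) ∧ tp v = p (m + ix v)
  i : ∀ v, v ≠ (p 0).1 → v ∉ Z → bt v = tp v ∧ tp v ∈ vs A ∧ ∀ i, tp v ≠ p i
  f : ∀ v, v ≠ (p 0).1 → (tp v).1 = v ∧ (bt v).1 = v
  pz : ∀ i, 1 ≤ i → i < m → (p i).1 ≠ (p 0).1 ∧ (p i).1 ∈ Z ∧ ix (p i).1 = i
  pi : ∀ x ∈ vs A, (∀ i, x ≠ p i) → x.1 ≠ (p 0).1 ∧ x.1 ∉ Z ∧ tp x.1 = x
  s : (p 0).1 ∉ Z

/-- PROJ (from HS, ISO): `Z` = the set of the `(p i).1`, `1 ≤ i < m`.  `(p i).1 = (p j).1`, `i, j < m`, implies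
`p i = p j` or `p i = sg (p j) = p (j + m)`, so `i = j` (ISO, third part); `(p (i + m)).1 = (p i).1`.  For `v ∉ Z`,
`v ≠ (p 0).1`: `(v, 0)`, `(v, 1)` are not on the cycle, exactly one is in `vs A` (HS (4), (5)): `tp v = bt v`. -/
def PROJ_stmt : Prop := ∀ (V : Type) [Fintype V] [DecidableEq V] (F : Finset (Finset V))
  (w : Finset V → ZMod 2) (m : ℕ) (p : ℕ → V × ZMod 2) (A : Finset (Finset (V × ZMod 2))),
  Dbl (lift F w) (sg : V × ZMod 2 → V × ZMod 2) → Geo (lift F w) sg m p → Half (lift F w) sg m p A →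
  ∃ (Z : Finset V) (ix : V → ℕ) (tp bt : V → V × ZMod 2), Prj m p A Z ix tp bt

/-- first pointer -/
def T1 {V : Type} (R : V × ZMod 2 → V × ZMod 2) (tp : V → V × ZMod 2) (v : V) : V := (R (tp v)).1

/-- second pointer -/
def T2 {V : Type} [DecidableEq V] (Z : Finset V) (L U : V × ZMod 2 → V × ZMod 2)
    (bt : V → V × ZMod 2) (v : V) : V := if v ∈ Z then (U (bt v)).1 else (L (bt v)).1

/-- third pointer -/
def T3 {V : Type} [DecidableEq V] (Z : Finset V) (L U : V × ZMod 2 → V × ZMod 2)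
    (tp : V → V × ZMod 2) (v : V) : V := if v ∈ Z then (L (tp v)).1 else (U (tp v)).1

/-- the order of the vertices -/
def phi {V : Type} [DecidableEq V] (m : ℕ) (Z : Finset V) (ix : V → ℕ) (tp : V → V × ZMod 2)
    (tm : V × ZMod 2 → ℕ) (c1 c0 : ℕ) (v : V) : ℚ :=
  if v ∈ Z then (if ix v = 1 then (c1 : ℚ) else (c0 : ℚ)) - 1 / 2 + (ix v : ℚ) / (4 * m)
  else (tm (tp v) : ℚ)

/-- the potential of the first pointer -/
def del {V : Type} [DecidableEq V] (m : ℕ) (Z : Finset V) (ix : V → ℕ) (tp : V → V × ZMod 2)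
    (tm : V × ZMod 2 → ℕ) (v : V) : ℕ := if v ∈ Z then ix v else m + tm (tp v)

/-- TQD (from HS, ISO): the pointers satisfy TQ.  Write `s = (p 0).1`, `u_i = (p i).1`, `1 ≤ i < m`: these
are the elements of `Z` (`z`, `f`), `bt u_i = p i`, `tp u_i = p (m + i)`, `(p (m + i)).1 = u_i` (`Geo.per`),
`(p m).1 = s`.  An interior vertex is an `x ∈ vs A` not on `p`; then `x.1 ≠ s`, `x.1 ∉ Z`, `tp x.1 = x`,
`phi x.1 = tm x`.  By ISO: `p i` with `i ≤ m` is not a `p (m + j)`, `1 ≤ j < m`; and no edge joins `p i` and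
`p (m + j)`, `1 ≤ i, j < m` (see SWP).  `phi u_i ∈ (c - 1/2, c - 1/4)` for `c = c1` (`i = 1`), `c0` (`i ≥ 2`); an interior
`x` with `tm x < c` has `phi x.1 ≤ c - 1 < phi u_i`, one with `c ≤ tm x` has `phi u_i < phi x.1`.
`eq`: `bt v = tp v`.  `inj`: the values `tm x` are integers and different (`Swp.inj`), the `phi u_i` are not
integers and increase with `i`.
`t1`: `Z`: `T1 u_i = (p (m + i - 1)).1 = u_(i - 1)` or `s` (`rt`).  Interior `x`, `y = R x`: `y = p j`, `j ≤ m`: `del`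
is `j < m`; `y = p (m + j)`: the same; `y` interior: `tm y < tm x`.
`t1Z`: `phi` increases with the index; `β u_i = ρ (p i)`, `inc`.
`t2`, `v = u_i`: `y = U (p i)` (`p i` is not a `p j`, `m ≤ j ≤ 2 m`), `y` is adjacent to `p i`, so not a `p (m + j)`, and
`y ≠ p j` for `j ≤ m`: interior.  `T2 v = y.1`, `β = ρ y < ρ (p i)`; by `p0` (contrapositive) `tm y < c0`, by `p1`
`tm y < c1` if `i = 1`: so `phi y.1 < phi u_i`.
`t2`, `v = x.1` interior: `y = L x`, `ρ y < ρ x`, `y` is not a `p (m + j)`.  `y = p j`, `j ≤ m`: `j = 0, m`: `T2 v = s`; else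
`T2 v = u_j`, `β u_j = ρ (p j)`, `x` is adjacent to `p j`: by `p0`, `p1` `phi x.1 < phi u_j`.  `y` interior:
`tm y < tm x`.
`t3`, `v = u_i`: `y = L (p (m + i))`, `ρ y < ρ (p (m + i)) = θ v`, `y` is not a `p (m + j)`, and not a `p j`, `1 ≤ j < m` (no
such edge); `y = p 0` or `p m`: `T3 v = s`; so `y` is interior; it is adjacent to `p (m + i)`: by `p1'` (`i ≥ 2`)
`c0 ≤ tm y`, by `p2` (`i = 1`) `c1 ≤ tm y`: `phi u_i < phi y.1`.
`t3`, `v = x.1` interior: `y = U x`, `ρ y < ρ x`, `y` is not a `p j`, `j ≤ m`, `tm x < tm y`.  `y = p (m + j)`: `T3 v = u_j`,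
`θ u_j = ρ y`; `x` is adjacent to `p (m + j)`: by `p1'`, `p2`: `phi u_j < phi x.1`.  `y` interior: clear. -/
def TQD_stmt : Prop := ∀ (V : Type) [Fintype V] [DecidableEq V] (F : Finset (Finset V))
  (w : Finset V → ZMod 2) (m : ℕ) (p : ℕ → V × ZMod 2) (A : Finset (Finset (V × ZMod 2)))
  (L R U : V × ZMod 2 → V × ZMod 2) (ρ : V × ZMod 2 → ℚ) (tm : V × ZMod 2 → ℕ) (c1 c0 : ℕ)
  (Z : Finset V) (ix : V → ℕ) (tp bt : V → V × ZMod 2),
  Dbl (lift F w) (sg : V × ZMod 2 → V × ZMod 2) → Geo (lift F w) sg m p → Half (lift F w) sg m p A →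
  Swp m p A L R U ρ tm c1 c0 → Prj m p A Z ix tp bt →
  TQ (p 0).1 Z (T1 R tp) (T2 Z L U bt) (T3 Z L U tp) (phi m Z ix tp tm c1 c0)
    (fun v => ρ (bt v)) (fun v => ρ (tp v)) (del m Z ix tp tm)

/-- EIJ (from HS, LED, ISO, ZL): the projection is injective on the edges of the half which are not on
the bottom path.  `e = {x, y}`, `e' = {x', y'}`, `x.1 = x'.1`, `y.1 = y'.1` (after exchanging `x'`, `y'`); by LED (first
part) `x.2 + y.2 = x'.2 + y'.2`, so `e' = e` or `e' = {sg x, sg y} = e.image sg`.  In the second case let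
`e' ⊆ t' ∈ A`; `t'.image sg ∉ A` contains `e`, and `e ∈ edges A`, so `cof A e` is neither `∅` nor `cof G e`:
`e ∈ zt m p` (HS (1)), `e = {p i, p (i + 1)}` with `m ≤ i < 2 m`, and `e' = {p (i - m), p (i - m + 1)}`. -/
def EIJ_stmt : Prop := ∀ (V : Type) [Fintype V] [DecidableEq V] (F : Finset (Finset V))
  (w : Finset V → ZMod 2) (m : ℕ) (p : ℕ → V × ZMod 2) (A : Finset (Finset (V × ZMod 2))),
  IsSurface F → Coc F w →
  Dbl (lift F w) (sg : V × ZMod 2 → V × ZMod 2) → Geo (lift F w) sg m p → Half (lift F w) sg m p A →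
  ∀ e ∈ edges A, ∀ e' ∈ edges A, (∀ i < m, e ≠ {p i, p (i + 1)}) → (∀ i < m, e' ≠ {p i, p (i + 1)}) →
  e.image Prod.fst = e'.image Prod.fst → e = e'

/-- DIST (from nothing): the edges of the sweep are different.  Bottom vertices are the `p i`, `i ≤ m`.
`{x, L x} = {x', L x'}`, `x ≠ x'`: `x = L x'`, `x' = L x`, so `tm x < tm x'` and `tm x' < tm x`; the same for `R` and for
`L, R` (`x = x'`: `R x ≠ L x`).  `{x, L x} = {U y, y}`: `x = U y`, `y = L x`: excluded; `x = y`, `L x = U y` (not a bottom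
vertex): `tm (L x) < tm x = tm y < tm (U y)`.  The same for `R`.  `{U y, y} = {U y', y'}`, `y ≠ y'`: `y = U y'`,
`y' = U y` are not bottom vertices: `tm y < tm (U y) = tm y'` and `tm y' < tm y`. -/
def DIST_stmt : Prop := ∀ (W : Type) [DecidableEq W] (m : ℕ) (p : ℕ → W) (A : Finset (Finset W))
  (L R U : W → W) (ρ : W → ℚ) (tm : W → ℕ) (c1 c0 : ℕ), Swp m p A L R U ρ tm c1 c0 →
  (∀ x ∈ vs A, ∀ x' ∈ vs A, (∀ i ≤ m, x ≠ p i) → (∀ i ≤ m, x' ≠ p i) →
    (({x, L x} : Finset W) = {x', L x'} → x = x') ∧ (({x, R x} : Finset W) = {x', R x'} → x = x') ∧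
    ({x, L x} : Finset W) ≠ {x', R x'}) ∧
  (∀ x ∈ vs A, ∀ y ∈ vs A, (∀ i ≤ m, x ≠ p i) → (∀ i, m ≤ i → i ≤ 2 * m → y ≠ p i) →
    ({x, L x} : Finset W) ≠ {U y, y} ∧ ({x, R x} : Finset W) ≠ {U y, y}) ∧
  (∀ y ∈ vs A, ∀ y' ∈ vs A, (∀ i, m ≤ i → i ≤ 2 * m → y ≠ p i) →
    (∀ i, m ≤ i → i ≤ 2 * m → y' ≠ p i) → ({U y, y} : Finset W) = {U y', y'} → y = y')

/-- TQE (from HS, ISO, LED, EIJ, DIST): the edges of the pointers.  `v ≠ s = (p 0).1`.  The edge of
`(k, v)` is the image under `Prod.fst` of the edge `E k v` of `A`: `E 0 v = {tp v, R (tp v)}`;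
`E 1 v = {U (bt v), bt v}` if `v ∈ Z`, else `{bt v, L (bt v)}`; `E 2 v = {tp v, L (tp v)}` if `v ∈ Z`, else
`{U (tp v), tp v}`.  `tp v ∈ vs A` is not a `p i`, `i ≤ m`; `bt v ∈ vs A` is not a `p i`, `m ≤ i ≤ 2 m` (for `v ∈ Z` by ISO,
HS (6)).  The `E k v` are in `edges A` and are not bottom edges `{p i, p (i + 1)}`, `i < m` (one of the ends is not a
bottom vertex).  By EIJ it suffices that `E k v = E k' v'` implies `k = k'`, `v = v'`: DIST (and `v = (tp v).1`). -/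
def TQE_stmt : Prop := ∀ (V : Type) [Fintype V] [DecidableEq V] (F : Finset (Finset V))
  (w : Finset V → ZMod 2) (m : ℕ) (p : ℕ → V × ZMod 2) (A : Finset (Finset (V × ZMod 2)))
  (L R U : V × ZMod 2 → V × ZMod 2) (ρ : V × ZMod 2 → ℚ) (tm : V × ZMod 2 → ℕ) (c1 c0 : ℕ)
  (Z : Finset V) (ix : V → ℕ) (tp bt : V → V × ZMod 2),
  IsSurface F → Coc F w →
  Dbl (lift F w) (sg : V × ZMod 2 → V × ZMod 2) → Geo (lift F w) sg m p → Half (lift F w) sg m p A →
  Swp m p A L R U ρ tm c1 c0 → Prj m p A Z ix tp bt →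
  (∀ (k : Fin 3) (v : V), v ≠ (p 0).1 →
    {v, (![T1 R tp, T2 Z L U bt, T3 Z L U tp] : Fin 3 → V → V) k v} ∈ edges F) ∧
  ∀ (k k' : Fin 3) (v v' : V), v ≠ (p 0).1 → v' ≠ (p 0).1 →
    ({v, (![T1 R tp, T2 Z L U bt, T3 Z L U tp] : Fin 3 → V → V) k v} : Finset V) =
      {v', (![T1 R tp, T2 Z L U bt, T3 Z L U tp] : Fin 3 → V → V) k' v'} → k = k' ∧ v = v'

/-- CNT (from nothing): `3 |F| = 2 |edges F|`, so a projective plane has `3 (n - 1)` edges. -/
def CNT_stmt : Prop := ∀ (V : Type) [Fintype V] [DecidableEq V] (F : Finset (Finset V)),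
  IsSurface F → Fintype.card V + F.card = (edges F).card + 1 →
  (edges F).card = 3 * (Fintype.card V - 1)

/-- FINAL (from DB, CFR, SWP, PROJ, TQD, TQE, TQR, ORD, CNT): THE THEOREM.  `F = ∅`: then `|V| = 1`
and there is nothing to prove (`Fin 0`).  Otherwise the edges of the pointers are `3 (n - 1)` different
elements of `edges F`, so all of them (CNT). -/
def FINAL_stmt : Prop := ∀ (V : Type) [Fintype V] [DecidableEq V] (F : Finset (Finset V)),
  IsSurface F → (gr (edges F)).Connected → Fintype.card V + F.card = (edges F).card + 1 →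
  ∃ e : Fin (3 * (Fintype.card V - 1)) → Sym2 V, Function.Injective e ∧
    (∀ z, (∃ j, e j = z) ↔ z ∈ (gr (edges F)).edgeSet) ∧
    ∀ j, (SimpleGraph.fromEdgeSet {z | ∃ i < Fintype.card V - 1, z = cyc e j i}).IsTree

end Pool.Agent.helper57.PP
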