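import Pool.Agent.helper57.PP.Spec

set_option autoImplicit false

namespace Pool.Agent.helper57.PP

open Finset

theorem TQD (h1 : HS_stmt) (h2 : ISO_stmt) : TQD_stmt := by
  intro V _ _ F w m p A L R U ρ tm c1 c0 Z ix tp bt hD hG hH hS hP
  obtain ⟨-, i2, i3, i4, -, i6⟩ := h2 _ (lift F w) sg m p hD hG
  obtain ⟨-, -, -, -, -, s6, -⟩ := h1 _ (lift F w) sg m p A hD hG hH
  have m3 := hG.m3
  have ft : ∀ i, (p (m + i)).1 = (p i).1 := by
    intro i
    rw [Nat.add_comm, hG.per i]
    rfl
  have fm : (p m).1 = (p 0).1 := ft 0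
  have A1 : ∀ i ≤ m, ∀ j, 1 ≤ j → j < m → p i ≠ p (m + j) := by
    intro i hi j hj hjm h
    have := i3 i (by omega) (m + j) (by omega) h
    omega
  have A2 : ∀ i j, 1 ≤ i → i < m → 1 ≤ j → j < m → {p i, p (m + j)} ∉ edges A := by
    intro i j hi him hj hjm h
    have h' := edges_mono hH.sub h
    rcases Nat.lt_or_ge i j with hij | hij
    · have h'' : {p (m + j), p (i + 2 * m)} ∈ edges (lift F w) := by
        rw [i2]
        exact edges_comm h'
      have := i4 _ _ (by omega) (by omega) h''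
      omega
    · have := i4 _ _ (by omega) (by omega) h'
      omega
  have cls : ∀ y, (∃ i ≤ m, y = p i) ∨ (∃ j, 1 ≤ j ∧ j < m ∧ y = p (m + j)) ∨ ∀ i, y ≠ p i := by
    intro y
    by_cases h : ∃ i, y = p i
    · obtain ⟨i, hi⟩ := h
      obtain ⟨j, hj, hj'⟩ := i6 i
      rcases Nat.lt_or_ge m j with hl | hl
      · right; left
        refine ⟨j - m, by omega, by omega, ?_⟩
        rw [hi, hj']
        congr 1
        omega
      · left
        exact ⟨j, hl, by rw [hi, hj']⟩
    · right; right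
      intro i hi
      exact h ⟨i, hi⟩
  have top : ∀ i, 1 ≤ i → i < m → ∀ j ≤ m, p (m + i) ≠ p j := fun i hi him j hj h =>
    A1 j hj i hi him h.symm
  -- vertices
  have vZ : ∀ v ∈ Z, ∃ i, 1 ≤ i ∧ i < m ∧ v = (p i).1 ∧ bt v = p i ∧ tp v = p (m + i) ∧ ix v = i := by
    intro v hv
    obtain ⟨a, b, c, d⟩ := hP.z v hv
    have hvs : v ≠ (p 0).1 := fun h => hP.s (h ▸ hv)
    exact ⟨ix v, a, b, by rw [← c]; exact (hP.f v hvs).2.symm, c, d, rfl⟩
  have vI : ∀ v, v ≠ (p 0).1 → v ∉ Z → ∃ x ∈ vs A, (∀ i, x ≠ p i) ∧ v = x.1 ∧ bt v = x ∧ tp v = x := by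
    intro v hv hvZ
    obtain ⟨a, b, c⟩ := hP.i v hv hvZ
    exact ⟨tp v, b, c, (hP.f v hv).1.symm, a, rfl⟩
  have phiI : ∀ x ∈ vs A, (∀ i, x ≠ p i) → phi m Z ix tp tm c1 c0 x.1 = (tm x : ℚ) := by
    intro x hx hx'
    obtain ⟨-, b, c⟩ := hP.pi x hx hx'
    simp [phi, b, c]
  have phiZ : ∀ i, 1 ≤ i → i < m → phi m Z ix tp tm c1 c0 (p i).1 =
      (if i = 1 then (c1 : ℚ) else (c0 : ℚ)) - 1 / 2 + (i : ℚ) / (4 * m) := by
    intro i hi him
    obtain ⟨-, b, c⟩ := hP.pz i hi him
    simp [phi, b, c]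
  have frac : ∀ i : ℕ, 1 ≤ i → i < m → 0 < (i : ℚ) / (4 * m) ∧ (i : ℚ) / (4 * m) < 1 / 4 := by
    intro i hi him
    have h0 : (0 : ℚ) < i := by exact_mod_cast hi
    have h3 : (i : ℚ) < m := by exact_mod_cast him
    have h4 : (0 : ℚ) < m := lt_trans h0 h3
    constructor
    · positivity
    · rw [div_lt_iff₀ (by positivity)]
      linarith
  have low : ∀ y ∈ vs A, (∀ i, y ≠ p i) → ∀ i, 1 ≤ i → i < m → {y, p i} ∈ edges A →
      phi m Z ix tp tm c1 c0 y.1 < phi m Z ix tp tm c1 c0 (p i).1 := by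
    intro y hy hyp i hi him he
    rw [phiI y hy hyp, phiZ i hi him]
    obtain ⟨f1, f2⟩ := frac i hi him
    split_ifs with h
    · subst h
      have h3 : tm y < c1 := by
        by_contra hc
        exact hS.p1 y hy (fun i _ => hyp i) (by omega) he
      have h4 : (tm y : ℚ) + 1 ≤ c1 := by exact_mod_cast h3
      linarith
    · have h3 : tm y < c0 := by
        by_contra hc
        exact hS.p0 y hy (fun i _ => hyp i) (by omega) i hi him he
      have h4 : (tm y : ℚ) + 1 ≤ c0 := by exact_mod_cast h3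
      linarith
  have high : ∀ y ∈ vs A, (∀ i, y ≠ p i) → ∀ i, 1 ≤ i → i < m → {y, p (m + i)} ∈ edges A →
      phi m Z ix tp tm c1 c0 (p i).1 < phi m Z ix tp tm c1 c0 y.1 := by
    intro y hy hyp i hi him he
    rw [phiI y hy hyp, phiZ i hi him]
    obtain ⟨f1, f2⟩ := frac i hi him
    split_ifs with h
    · subst h
      have h3 : c1 ≤ tm y := by
        by_contra hc
        exact hS.p2 y hy (fun i _ => hyp i) (by omega) he
      have h4 : (c1 : ℚ) ≤ tm y := by exact_mod_cast h3
      linarith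
    · have h3 : c0 ≤ tm y := by
        by_contra hc
        exact hS.p1' y hy (fun i _ => hyp i) (by omega) i (by omega) him he
      have h4 : (c0 : ℚ) ≤ tm y := by exact_mod_cast h3
      linarith
  have inc : ∀ i j, 1 ≤ i → i < j → j < m →
      phi m Z ix tp tm c1 c0 (p i).1 < phi m Z ix tp tm c1 c0 (p j).1 := by
    intro i j hi hij hj
    rw [phiZ i hi (by omega), phiZ j (by omega) hj]
    have h3 : (i : ℚ) / (4 * m) < (j : ℚ) / (4 * m) := by
      have h4 : (0 : ℚ) < m := by exact_mod_cast (by omega : 0 < m)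
      apply div_lt_div_of_pos_right _ (by positivity)
      exact_mod_cast hij
    have h5 : (c1 : ℚ) ≤ c0 := by exact_mod_cast hS.c
    rw [if_neg (by omega : ¬ j = 1)]
    split_ifs <;> linarith
  have delI : ∀ x ∈ vs A, (∀ i, x ≠ p i) → del m Z ix tp tm x.1 = m + tm x := by
    intro x hx hx'
    obtain ⟨-, b, c⟩ := hP.pi x hx hx'
    simp [del, b, c]
  have delZ : ∀ i, 1 ≤ i → i < m → del m Z ix tp tm (p i).1 = i := by
    intro i hi him
    obtain ⟨-, b, c⟩ := hP.pz i hi him
    simp [del, b, c]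
  have T1Z : ∀ v ∈ Z, T1 R tp v ≠ (p 0).1 → ∃ i, 1 ≤ i ∧ i + 1 < m ∧ v = (p (i + 1)).1 ∧
      T1 R tp v = (p i).1 ∧ bt v = p (i + 1) := by
    intro v hv hne
    obtain ⟨i, hi, him, e1, e2, e3, e4⟩ := vZ v hv
    have h5 : T1 R tp v = (p (i - 1)).1 := by
      unfold T1
      rw [e3, hS.rt i hi him]
      rw [show m + i - 1 = m + (i - 1) by omega, ft]
    have h6 : i ≠ 1 := by
      rintro rfl
      exact hne h5
    refine ⟨i - 1, by omega, by omega, ?_, h5, ?_⟩
    · rw [show i - 1 + 1 = i by omega]; exact e1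
    · rw [show i - 1 + 1 = i by omega]; exact e2
  constructor
  · exact hP.s
  · -- eq
    intro v hv hvZ
    obtain ⟨x, hx, hx', e1, e2, e3⟩ := vI v hv hvZ
    show ρ (bt v) = ρ (tp v)
    rw [e2, e3]
  · -- inj
    have main : ∀ u v, u ∈ Z → v ∉ Z → v ≠ (p 0).1 →
        phi m Z ix tp tm c1 c0 u ≠ phi m Z ix tp tm c1 c0 v := by
      intro u v hu hv hvs h
      obtain ⟨i, hi, him, e1, -⟩ := vZ u hu
      obtain ⟨x, hx, hx', e1', -⟩ := vI v hvs hv
      rw [e1, e1', phiI x hx hx', phiZ i hi him] at h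
      obtain ⟨f1, f2⟩ := frac i hi him
      split_ifs at h
      · have h3 : (c1 : ℚ) < tm x + 1 := by linarith
        have h4 : (tm x : ℚ) < c1 := by linarith
        have h5 : c1 < tm x + 1 := by exact_mod_cast h3
        have h6 : tm x < c1 := by exact_mod_cast h4
        omega
      · have h3 : (c0 : ℚ) < tm x + 1 := by linarith
        have h4 : (tm x : ℚ) < c0 := by linarith
        have h5 : c0 < tm x + 1 := by exact_mod_cast h3
        have h6 : tm x < c0 := by exact_mod_cast h4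
        omega
    intro u v hu hv h
    by_cases huZ : u ∈ Z
    · by_cases hvZ : v ∈ Z
      · obtain ⟨i, hi, him, e1, -⟩ := vZ u huZ
        obtain ⟨j, hj, hjm, e1', -⟩ := vZ v hvZ
        rw [e1, e1'] at h ⊢
        rcases Nat.lt_trichotomy i j with hl | hl | hl
        · exact absurd h (inc i j hi hl hjm).ne
        · rw [hl]
        · exact absurd h (inc j i hj hl him).ne'
      · exact absurd h (main u v huZ hvZ hv)
    · by_cases hvZ : v ∈ Z
      · exact absurd h.symm (main v u hvZ huZ hu)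
      · obtain ⟨x, hx, hx', e1, -⟩ := vI u hu huZ
        obtain ⟨y, hy, hy', e1', -⟩ := vI v hv hvZ
        rw [e1, e1', phiI x hx hx', phiI y hy hy'] at h
        have h3 : tm x = tm y := by exact_mod_cast h
        rw [e1, e1', hS.inj x hx y hy (fun i _ => hx' i) (fun i _ => hy' i) h3]
  · -- t1
    intro v hv hne
    by_cases hvZ : v ∈ Z
    · obtain ⟨i, hi, him, e1, e2, -⟩ := T1Z v hvZ hne
      rw [e2, e1, delZ i hi (by omega), delZ (i + 1) (by omega) him]
      omega
    · obtain ⟨x, hx, hx', e1, e2, e3⟩ := vI v hv hvZ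
      have e4 : T1 R tp v = (R x).1 := by unfold T1; rw [e3]
      rw [e4] at hne ⊢
      rw [e1, delI x hx hx']
      obtain ⟨r1, r2, r3⟩ := hS.r x hx (fun i _ => hx' i)
      rcases cls (R x) with ⟨i, hi, h⟩ | ⟨j, hj, hjm, h⟩ | h
      · have hi1 : i ≠ 0 := by rintro rfl; exact hne (by rw [h])
        have hi2 : i ≠ m := by rintro rfl; exact hne (by rw [h, fm])
        rw [h, delZ i (by omega) (by omega)]
        omega
      · rw [h, ft, delZ j hj hjm]
        omega
      · have hy := right_mem_vs r1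
        rw [delI _ hy h]
        rcases r3 with ⟨i, hi, h5⟩ | h5
        · exact absurd h5 (h i)
        · omega
  · -- t1Z
    intro v hv hne
    obtain ⟨i, hi, him, e1, e2, e3⟩ := T1Z v hv hne
    obtain ⟨-, g1, g2⟩ := hP.pz i hi (by omega)
    rw [e2]
    refine ⟨g1, ?_, ?_⟩
    · rw [e1]
      exact inc i (i + 1) hi (by omega) him
    · show ρ (bt (p i).1) < ρ (bt v)
      rw [e3, (hP.z _ g1).2.2.1, g2]
      exact hS.inc i (by omega)
  · -- t2
    intro v hv hne
    by_cases hvZ : v ∈ Z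
    · obtain ⟨i, hi, him, e1, e2, e3, e4⟩ := vZ v hvZ
      have e5 : T2 Z L U bt v = (U (p i)).1 := by unfold T2; rw [if_pos hvZ, e2]
      have hq : ∀ j, m ≤ j → j ≤ 2 * m → p i ≠ p j := by
        intro j hj hj2 h
        rcases Nat.lt_or_ge j (2 * m) with hl | hl
        · have := i3 i (by omega) j hl h
          omega
        · have h5 : j = 0 + 2 * m := by omega
          rw [h5, i2] at h
          have := i3 i (by omega) 0 (by omega) h
          omega
      obtain ⟨u1, u2, u3, -, -, -⟩ := hS.u (p i) (s6 i).1 hq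
      have hy := left_mem_vs u1
      have hint : ∀ j, U (p i) ≠ p j := by
        rcases cls (U (p i)) with ⟨j, hj, h⟩ | ⟨j, hj, hjm, h⟩ | h
        · exact absurd h (u2 j hj)
        · rw [h] at u1
          exact absurd (edges_comm u1) (A2 i j hi him hj hjm)
        · exact h
      obtain ⟨-, g1, g2⟩ := hP.pi _ hy hint
      have e6 : bt (U (p i)).1 = U (p i) := by
        rw [(hP.i _ (hP.pi _ hy hint).1 g1).1, g2]
      rw [e5]
      refine ⟨?_, ?_, fun h => absurd h g1⟩
      · show ρ (bt (U (p i)).1) < ρ (bt v)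
        rw [e6, e2]
        exact u3
      · intro _
        rw [e1]
        exact low _ hy hint i hi him u1
    · obtain ⟨x, hx, hx', e1, e2, e3⟩ := vI v hv hvZ
      have e5 : T2 Z L U bt v = (L x).1 := by unfold T2; rw [if_neg hvZ, e2]
      rw [e5] at hne ⊢
      obtain ⟨l1, l2, l3, l4⟩ := hS.l x hx (fun i _ => hx' i)
      have hy := right_mem_vs l1
      rcases cls (L x) with ⟨i, hi, h⟩ | ⟨j, hj, hjm, h⟩ | h
      · have hi1 : i ≠ 0 := by rintro rfl; exact hne (by rw [h])
        have hi2 : i ≠ m := by rintro rfl; exact hne (by rw [h, fm])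
        obtain ⟨-, g1, g2⟩ := hP.pz i (by omega) (by omega)
        rw [h]
        refine ⟨?_, fun hh => absurd g1 hh, fun _ => ?_⟩
        · show ρ (bt (p i).1) < ρ (bt v)
          rw [(hP.z _ g1).2.2.1, g2, e2, ← h]
          exact l2
        · rw [e1]
          exact low x hx hx' i (by omega) (by omega) (by rw [← h]; exact l1)
      · exact absurd h (l3 j hj hjm)
      · obtain ⟨g0, g1, g2⟩ := hP.pi _ hy h
        have e6 : bt (L x).1 = L x := by
          rw [(hP.i _ g0 g1).1, g2]
        refine ⟨?_, fun _ => ?_, fun hh => absurd hh g1⟩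
        · show ρ (bt (L x).1) < ρ (bt v)
          rw [e6, e2]
          exact l2
        · rw [e1, phiI _ hy h, phiI x hx hx']
          rcases l4 with ⟨i, hi, h5⟩ | h5
          · exact absurd h5 (h i)
          · exact_mod_cast h5
  · -- t3
    intro v hv hne
    by_cases hvZ : v ∈ Z
    · obtain ⟨i, hi, him, e1, e2, e3, e4⟩ := vZ v hvZ
      have e5 : T3 Z L U tp v = (L (p (m + i))).1 := by unfold T3; rw [if_pos hvZ, e3]
      rw [e5] at hne ⊢
      obtain ⟨l1, l2, l3, -⟩ := hS.l (p (m + i)) (s6 _).1 (top i hi him)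
      have hy := right_mem_vs l1
      have hint : ∀ j, L (p (m + i)) ≠ p j := by
        rcases cls (L (p (m + i))) with ⟨j, hj, h⟩ | ⟨j, hj, hjm, h⟩ | h
        · exfalso
          have hj1 : j ≠ 0 := by rintro rfl; exact hne (by rw [h])
          have hj2 : j ≠ m := by rintro rfl; exact hne (by rw [h, fm])
          rw [h] at l1
          exact A2 j i (by omega) (by omega) hi him (edges_comm l1)
        · exact absurd h (l3 j hj hjm)
        · exact h
      obtain ⟨g0, g1, g2⟩ := hP.pi _ hy hint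
      refine ⟨?_, fun _ => ?_, fun h => absurd h g1⟩
      · show ρ (tp (L (p (m + i))).1) < ρ (tp v)
        rw [g2, e3]
        exact l2
      · rw [e1]
        exact high _ hy hint i hi him (edges_comm l1)
    · obtain ⟨x, hx, hx', e1, e2, e3⟩ := vI v hv hvZ
      have e5 : T3 Z L U tp v = (U x).1 := by unfold T3; rw [if_neg hvZ, e3]
      rw [e5] at hne ⊢
      obtain ⟨u1, u2, u3, u4, -, -⟩ := hS.u x hx (fun i _ _ => hx' i)
      have hy := left_mem_vs u1
      rcases cls (U x) with ⟨j, hj, h⟩ | ⟨j, hj, hjm, h⟩ | h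
      · exact absurd h (u2 j hj)
      · obtain ⟨-, g1, g2⟩ := hP.pz j hj hjm
        rw [h, ft]
        refine ⟨?_, fun hh => absurd g1 hh, fun _ => ?_⟩
        · show ρ (tp (p j).1) < ρ (tp v)
          rw [(hP.z _ g1).2.2.2, g2, e3, ← h]
          exact u3
        · rw [e1]
          refine high x hx hx' j hj hjm ?_
          rw [← h]
          exact edges_comm u1
      · obtain ⟨g0, g1, g2⟩ := hP.pi _ hy h
        refine ⟨?_, fun _ => ?_, fun hh => absurd hh g1⟩
        · show ρ (tp (U x).1) < ρ (tp v)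
          rw [g2, e3]
          exact u3
        · rw [e1, phiI _ hy h, phiI x hx hx']
          rcases u4 with ⟨i, hi, h5⟩ | h5
          · exact absurd h5 (hx' i)
          · exact_mod_cast h5

end Pool.Agent.helper57.PP
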